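import Pool.Agent.H459R3.Kahane

/-! From a gain for one number of vectors to cotype `q`. -/

set_option autoImplicit false
set_option linter.unusedSectionVars false

open Finset

namespace H459R3

section
variable {ι κ : Type} [Fintype ι] [DecidableEq ι] [Fintype κ] [DecidableEq κ]
variable {V : Type} [AddCommGroup V] [Module ℝ V]

/-- mean square of `p` of the Rademacher sum -/
noncomputable def ms (p : Seminorm ℝ V) (y : ι → V) : ℝ := avg (fun σ => p (rad y σ) ^ 2)

lemma ms_nonneg (p : Seminorm ℝ V) (y : ι → V) : 0 ≤ ms p y := avg_nonneg fun σ => sq_nonneg _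

/-- `∑ p(y_i)² ≤ A E p(∑ ±y_i)²` for families indexed by `ι`. -/
def HasCot (p : Seminorm ℝ V) (ι : Type) [Fintype ι] [DecidableEq ι] (A : ℝ) : Prop :=
  ∀ y : ι → V, ∑ i, p (y i) ^ 2 ≤ A * ms p y

lemma ms_comp_equiv (p : Seminorm ℝ V) (e : ι ≃ κ) (y : κ → V) :
    ms p (fun i => y (e i)) = ms p y := by
  unfold ms
  rw [← avg_comp_inj e e.injective (fun σ => p (rad (fun i => y (e i)) σ) ^ 2)]
  congr 1
  funext σ
  congr 2
  unfold rad
  exact Equiv.sum_comp e (fun k => sg (σ k) • y k)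

lemma HasCot.equiv {p : Seminorm ℝ V} {A : ℝ} (h : HasCot p ι A) (e : ι ≃ κ) : HasCot p κ A := by
  intro y
  have := h (fun i => y (e i))
  rw [ms_comp_equiv] at this
  rwa [Equiv.sum_comp e (fun k => p (y k) ^ 2)] at this

lemma HasCot.prod {p : Seminorm ℝ V} {A B : ℝ} (hA : 0 ≤ A) (h1 : HasCot p ι A)
    (h2 : HasCot p κ B) : HasCot p (ι × κ) (A * B) := by
  intro y
  set u : (ι × κ → Bool) → ι → V := fun σ i => rad (fun j => y (i, j)) (fun j => σ (i, j)) with hu
  have htw : ∀ (η : ι → Bool) (σ : ι × κ → Bool),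
      rad y (twist (fun x : ι × κ => η x.1) σ) = rad (u σ) η := by
    intro η σ
    simp only [hu, rad, twist, Fintype.sum_prod_type]
    refine Finset.sum_congr rfl fun i _ => ?_
    rw [Finset.smul_sum]
    refine Finset.sum_congr rfl fun j _ => ?_
    rw [sg_beq, smul_smul]
  have e1 : ms p y = avg (fun η : ι → Bool => avg (fun σ : ι × κ → Bool => p (rad (u σ) η) ^ 2)) := by
    have : ∀ η : ι → Bool, avg (fun σ : ι × κ → Bool => p (rad (u σ) η) ^ 2) = ms p y := by
      intro η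
      unfold ms
      rw [← avg_twist (fun x : ι × κ => η x.1) (fun σ => p (rad y σ) ^ 2)]
      simp_rw [htw]
    simp_rw [this]
    rw [avg_const]
  have e2 : avg (fun η : ι → Bool => avg (fun σ : ι × κ → Bool => p (rad (u σ) η) ^ 2))
      = avg (fun σ : ι × κ → Bool => ms p (u σ)) := by
    unfold ms avg
    rw [Finset.sum_div, Finset.sum_div]
    simp_rw [Finset.sum_div]
    rw [Finset.sum_comm]
    refine Finset.sum_congr rfl fun σ _ => Finset.sum_congr rfl fun η _ => ?_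
    ring
  have e3 : ∑ i, ∑ j, p (y (i, j)) ^ 2 ≤ B * avg (fun σ : ι × κ → Bool => ∑ i, p (u σ i) ^ 2) := by
    rw [avg_sum, Finset.mul_sum]
    refine Finset.sum_le_sum fun i _ => ?_
    have h := avg_comp_inj (fun j : κ => (i, j)) (fun a b hab => (Prod.mk.inj hab).2)
      (fun τ => p (rad (fun j => y (i, j)) τ) ^ 2)
    have h3 := h2 (fun j => y (i, j))
    unfold ms at h3
    rw [← h] at h3
    exact h3
  rw [Fintype.sum_prod_type, e1, e2]
  have hB : 0 ≤ avg (fun σ : ι × κ → Bool => ∑ i, p (u σ i) ^ 2) :=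
    avg_nonneg fun σ => Finset.sum_nonneg fun i _ => sq_nonneg _
  rcases le_or_gt 0 B with hB0 | hB0
  · calc ∑ i, ∑ j, p (y (i, j)) ^ 2 ≤ B * avg (fun σ : ι × κ → Bool => ∑ i, p (u σ i) ^ 2) := e3
      _ ≤ B * avg (fun σ : ι × κ → Bool => A * ms p (u σ)) := by
          gcongr
          exact avg_mono fun σ => h1 (u σ)
      _ = A * B * avg (fun σ : ι × κ → Bool => ms p (u σ)) := by rw [avg_mul]; ring
  · -- `B < 0` forces everything to vanish
    have hz : ∀ (x : κ → V), ms p x = 0 := by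
      intro x
      have := h2 x
      have h0 : 0 ≤ ∑ i, p (x i) ^ 2 := Finset.sum_nonneg fun i _ => sq_nonneg _
      have h1 := ms_nonneg p x
      nlinarith
    have hz2 : ∑ i, ∑ j, p (y (i, j)) ^ 2 = 0 := by
      refine le_antisymm ?_ (Finset.sum_nonneg fun i _ => Finset.sum_nonneg fun j _ => sq_nonneg _)
      refine Finset.sum_nonpos fun i _ => ?_
      have := h2 (fun j => y (i, j))
      rw [hz] at this
      simpa using this
    have hz3 : avg (fun σ : ι × κ → Bool => ∑ i, p (u σ i) ^ 2) = 0 := by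
      have : 0 ≤ B * avg (fun σ : ι × κ → Bool => ∑ i, p (u σ i) ^ 2) := by
        rw [← hz2]; exact e3
      nlinarith
    have hz4 : avg (fun σ : ι × κ → Bool => ms p (u σ)) = 0 := by
      rw [← e2, ← e1]
      -- p (rad y σ) ≤ ∑ p (u σ i)
      have h5 : ∀ σ, ∀ i, p (u σ i) = 0 := by
        intro σ i
        have hm := hz (fun j => y (i, j))
        unfold ms avg at hm
        rw [div_eq_zero_iff] at hm
        rcases hm with hm | hm
        · rw [Finset.sum_eq_zero_iff_of_nonneg (fun _ _ => sq_nonneg _)] at hm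
          have := hm (fun j => σ (i, j)) (Finset.mem_univ _)
          simpa using this
        · exact absurd hm (by positivity)
      unfold ms
      have h6 : ∀ σ, p (rad y σ) ^ 2 = 0 := by
        intro σ
        have h7 : rad y σ = ∑ i, u σ i := by
          simp only [hu, rad, Fintype.sum_prod_type]
        have h8 : p (rad y σ) ≤ 0 := by
          rw [h7]
          refine (seminorm_sum_le p _ _).trans (le_of_eq ?_)
          exact Finset.sum_eq_zero fun i _ => h5 σ i
        have h9 := apply_nonneg p (rad y σ)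
        have : p (rad y σ) = 0 := le_antisymm h8 h9
        rw [this]; norm_num
      simp_rw [h6]
      exact avg_const 0
    rw [hz2, hz4]; simp

lemma HasCot.pow {p : Seminorm ℝ V} {k : ℕ} {A : ℝ} (hA : 0 ≤ A) (h : HasCot p (Fin k) A) (m : ℕ) :
    HasCot p (Fin m → Fin k) (A ^ m) := by
  induction m with
  | zero =>
    intro y
    have hr : ∀ σ, p (rad y σ) ^ 2 = p (y default) ^ 2 := by
      intro σ
      unfold rad
      rw [Fintype.sum_unique, map_smul_eq_mul, Real.norm_eq_abs, sg_abs, one_mul]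
    unfold ms
    simp_rw [hr]
    rw [avg_const, Fintype.sum_unique]
    simp
  | succ m ih =>
    have h1 := HasCot.prod hA h ih
    have e : Fin k × (Fin m → Fin k) ≃ (Fin (m + 1) → Fin k) :=
      Fin.consEquiv (fun _ : Fin (m + 1) => Fin k)
    have := h1.equiv e
    rwa [← pow_succ'] at this

/-- restriction to a subset of the indices. -/
lemma ms_subtype_le (p : Seminorm ℝ V) (y : ι → V) (S : Finset ι) :
    ms p (fun i : S => y i) ≤ ms p y := by
  refine le_trans (le_of_eq ?_) (avg_restrict_le p y S)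
  unfold ms
  rw [← avg_comp_inj (fun i : S => (i : ι)) Subtype.val_injective
    (fun σ => p (rad (fun i : S => y i) σ) ^ 2)]
  congr 1
  funext σ
  congr 2
  unfold rad
  rw [Finset.sum_coe_sort S (fun i => sg (σ i) • y i)]
  simp only [smul_ite, smul_zero]
  rw [← Finset.sum_filter]
  simp

/-- weak type estimate -/
lemma weak_type {p : Seminorm ℝ V} {γ : ℕ} (hγ : 1 ≤ γ)
    (h : HasCot p (Fin (4 ^ γ)) ((4 : ℝ) ^ γ / 4)) (y : ι → V) (S : Finset ι) (s : ℝ) (hs : 0 ≤ s)
    (hS : ∀ i ∈ S, s ≤ p (y i) ^ 2) :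
    (S.card : ℝ) * s ^ γ ≤ 4 ^ γ * ms p y ^ γ := by
  have hE := ms_nonneg p y
  rcases Nat.eq_zero_or_pos S.card with h0 | h0
  · rw [h0]
    simp only [Nat.cast_zero, zero_mul]
    positivity
  set k : ℕ := 4 ^ γ with hk
  have hk1 : 1 < k := Nat.one_lt_pow (by omega) (by norm_num)
  set m := Nat.log k S.card with hm
  have h1 : k ^ m ≤ S.card := Nat.pow_log_le_self k (by omega)
  have h2 : S.card < k ^ (m + 1) := Nat.lt_pow_succ_log_self hk1 _
  obtain ⟨S', hS', hcard⟩ := Finset.exists_subset_card_eq h1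
  have hA : (0 : ℝ) ≤ (4 : ℝ) ^ γ / 4 := by positivity
  have h3 := HasCot.pow hA h m
  have e : (Fin m → Fin (4 ^ γ)) ≃ S' := by
    apply Fintype.equivOfCardEq
    simp [hcard, hk]
  have h4 := h3.equiv e
  have h5 := h4 (fun i : S' => y i)
  have h6 : (k : ℝ) ^ m * s ≤ ∑ i : S', p (y i) ^ 2 := by
    have : ∑ i : S', s ≤ ∑ i : S', p (y i) ^ 2 :=
      Finset.sum_le_sum fun i _ => hS i (hS' i.2)
    rw [Finset.sum_const, Finset.card_univ, Fintype.card_coe, hcard, nsmul_eq_mul] at this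
    push_cast at this ⊢
    exact this
  have h7 : (k : ℝ) ^ m * s ≤ ((4 : ℝ) ^ γ / 4) ^ m * ms p y :=
    h6.trans (h5.trans (mul_le_mul_of_nonneg_left (ms_subtype_le p y S') (by positivity)))
  have hkr : (k : ℝ) = 4 ^ γ := by rw [hk]; push_cast; rfl
  have h8 : (4 : ℝ) ^ m * s ≤ ms p y := by
    rw [hkr, div_pow] at h7
    have hp : (0 : ℝ) < ((4 : ℝ) ^ γ) ^ m := by positivity
    have h9 : ((4 : ℝ) ^ γ) ^ m / 4 ^ m * ms p y = ((4 : ℝ) ^ γ) ^ m * (ms p y / 4 ^ m) := by ring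
    rw [h9] at h7
    have h10 := le_of_mul_le_mul_left h7 hp
    rw [le_div_iff₀ (by positivity)] at h10
    linarith
  have h11 : ((4 : ℝ) ^ m * s) ^ γ ≤ ms p y ^ γ := pow_le_pow_left₀ (by positivity) h8 γ
  have h12 : (S.card : ℝ) ≤ 4 ^ γ * (4 ^ m) ^ γ := by
    have : (S.card : ℝ) ≤ (k : ℝ) ^ (m + 1) := by exact_mod_cast h2.le
    refine this.trans (le_of_eq ?_)
    rw [hkr, pow_succ, ← pow_mul, ← pow_mul, mul_comm γ m]
    ring
  calc (S.card : ℝ) * s ^ γ ≤ (4 ^ γ * (4 ^ m) ^ γ) * s ^ γ := by gcongr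
    _ = 4 ^ γ * ((4 : ℝ) ^ m * s) ^ γ := by rw [mul_pow]; ring
    _ ≤ 4 ^ γ * ms p y ^ γ := by gcongr

lemma sum_inv_sq_le (n : ℕ) : ∑ r ∈ Finset.range n, (1 : ℝ) / ((r : ℝ) + 1) ^ 2 ≤ 2 := by
  have h : ∀ n : ℕ, ∑ r ∈ Finset.range (n + 1), (1 : ℝ) / ((r : ℝ) + 1) ^ 2 ≤ 2 - 1 / ((n : ℝ) + 1) := by
    intro n
    induction n with
    | zero => norm_num
    | succ n ih =>
      rw [Finset.sum_range_succ]
      push_cast
      have hn : (0 : ℝ) < (n : ℝ) + 1 := by positivity
      have hn2 : (0 : ℝ) < (n : ℝ) + 1 + 1 := by positivity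
      have : (1 : ℝ) / ((n : ℝ) + 1 + 1) ^ 2 ≤ 1 / ((n : ℝ) + 1) - 1 / ((n : ℝ) + 1 + 1) := by
        rw [div_sub_div _ _ hn.ne' hn2.ne', div_le_div_iff₀ (by positivity) (by positivity)]
        nlinarith
      linarith
  rcases n with _ | n
  · simp
  · refine (h n).trans ?_
    have : (0 : ℝ) ≤ 1 / ((n : ℝ) + 1) := by positivity
    linarith

/-- cotype `4γ` from the gain for `4^γ` vectors. -/
theorem cotype_of_gain {p : Seminorm ℝ V} {γ : ℕ} (hγ : 1 ≤ γ)
    (h : HasCot p (Fin (4 ^ γ)) ((4 : ℝ) ^ γ / 4)) (y : ι → V) :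
    ∑ i, p (y i) ^ (4 * γ) ≤ 2 * (4 ^ γ) ^ 2 * ms p y ^ (2 * γ) := by
  have hE := ms_nonneg p y
  have key : ∀ n : ℕ, ∀ S : Finset ι, S.card = n → ∑ i ∈ S, p (y i) ^ (4 * γ)
      ≤ ((4 ^ γ) ^ 2 * ms p y ^ (2 * γ)) * ∑ r ∈ Finset.range n, (1 : ℝ) / ((r : ℝ) + 1) ^ 2 := by
    intro n
    induction n with
    | zero =>
      intro S hS
      rw [Finset.card_eq_zero] at hS
      subst hS
      simp
    | succ n ih =>
      intro S hS
      have hne : S.Nonempty := by rw [← Finset.card_pos]; omega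
      obtain ⟨i0, hi0, hmin⟩ := Finset.exists_min_image S (fun i => p (y i) ^ 2) hne
      have h1 := weak_type hγ h y S (p (y i0) ^ 2) (sq_nonneg _) hmin
      rw [hS] at h1
      have h2 : p (y i0) ^ (4 * γ) ≤ ((4 ^ γ) ^ 2 * ms p y ^ (2 * γ)) * (1 / ((n : ℝ) + 1) ^ 2) := by
        have h3 : ((((n + 1 : ℕ) : ℝ)) * (p (y i0) ^ 2) ^ γ) ^ 2 ≤ (4 ^ γ * ms p y ^ γ) ^ 2 :=
          pow_le_pow_left₀ (by positivity) h1 2
        rw [mul_one_div, le_div_iff₀ (by positivity)]
        push_cast at h3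
        have e1 : (((n : ℝ) + 1) * (p (y i0) ^ 2) ^ γ) ^ 2 = p (y i0) ^ (4 * γ) * ((n : ℝ) + 1) ^ 2 := by
          rw [mul_pow, ← pow_mul, ← pow_mul, mul_comm]
          congr 2
          ring
        have e2 : ((4 : ℝ) ^ γ * ms p y ^ γ) ^ 2 = (4 ^ γ) ^ 2 * ms p y ^ (2 * γ) := by
          rw [mul_pow, ← pow_mul (ms p y), mul_comm γ 2]
        rw [e1, e2] at h3
        exact h3
      have h4 := ih (S.erase i0) (by rw [Finset.card_erase_of_mem hi0, hS]; rfl)
      rw [← Finset.add_sum_erase S _ hi0, Finset.sum_range_succ, mul_add]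
      linarith
  have h1 := key _ Finset.univ rfl
  refine h1.trans ?_
  have h2 := sum_inv_sq_le (Finset.univ : Finset ι).card
  have h3 : (0 : ℝ) ≤ (4 ^ γ) ^ 2 * ms p y ^ (2 * γ) := by positivity
  nlinarith

end

end H459R3
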