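import Pool.Agent.H459R3.Final

/-! From the cotype 2 inequality to all exponents. -/

set_option autoImplicit false
set_option linter.unusedSectionVars false

open MeasureTheory ProbabilityTheory Set
open scoped ENNReal NNReal

namespace H459R3

lemma sum_rpow_le {m : ℕ} (a : Fin m → ℝ) (ha : ∀ i, 0 ≤ a i) {r : ℝ} (hr : 1 ≤ r) :
    ∑ i, a i ^ r ≤ (∑ i, a i) ^ r := by
  have hA : 0 ≤ ∑ i, a i := Finset.sum_nonneg fun i _ => ha i
  rcases hA.eq_or_lt with h0 | h0
  · have h1 : ∀ i, a i = 0 := by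
      intro i
      have := (Finset.sum_eq_zero_iff_of_nonneg (fun i _ => ha i)).1 h0.symm i (Finset.mem_univ i)
      exact this
    simp_rw [h1, Real.zero_rpow (by linarith : r ≠ 0)]
    simp [Real.zero_rpow (by linarith : r ≠ 0)]
  · have h1 : ∀ i, a i ^ r ≤ a i * (∑ i, a i) ^ (r - 1) := by
      intro i
      rcases (ha i).eq_or_lt with hi | hi
      · rw [← hi, Real.zero_rpow (by linarith), zero_mul]
      · have : a i ^ r = a i * a i ^ (r - 1) := by
          rw [← Real.rpow_one_add' hi.le (by linarith)]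
          congr 1; ring
        rw [this]
        refine mul_le_mul_of_nonneg_left ?_ hi.le
        exact Real.rpow_le_rpow hi.le (Finset.single_le_sum (fun i _ => ha i) (Finset.mem_univ i))
          (by linarith)
    refine (Finset.sum_le_sum fun i _ => h1 i).trans (le_of_eq ?_)
    rw [← Finset.sum_mul, ← Real.rpow_one_add' h0.le (by linarith)]
    congr 1; ring

/-- power means over the cube. -/
lemma avg_rpow {m : ℕ} (S : (Fin m → Bool) → ℝ) (hS : ∀ σ, 0 ≤ S σ) {q : ℝ} (hq : 2 ≤ q) :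
    (avg (fun σ => S σ ^ 2)) ^ (q / 2) ≤ avg (fun σ => S σ ^ q) := by
  have h := Real.rpow_arith_mean_le_arith_mean_rpow (Finset.univ : Finset (Fin m → Bool))
    (fun _ => ((2 : ℝ) ^ m)⁻¹) (fun σ => S σ ^ 2) (fun _ _ => by positivity)
    (by
      rw [Finset.sum_const, Finset.card_univ, card_cube, Fintype.card_fin, nsmul_eq_mul]
      push_cast
      field_simp) (fun σ _ => sq_nonneg _) (p := q / 2) (by linarith)
  have e1 : ∑ σ : Fin m → Bool, ((2 : ℝ) ^ m)⁻¹ * S σ ^ 2 = avg (fun σ => S σ ^ 2) := by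
    unfold avg
    rw [Fintype.card_fin, Finset.sum_div]
    exact Finset.sum_congr rfl fun σ _ => by ring
  have e2 : ∑ σ : Fin m → Bool, ((2 : ℝ) ^ m)⁻¹ * (S σ ^ 2) ^ (q / 2) = avg (fun σ => S σ ^ q) := by
    unfold avg
    rw [Fintype.card_fin, Finset.sum_div]
    refine Finset.sum_congr rfl fun σ _ => ?_
    have : (S σ ^ 2) ^ (q / 2) = S σ ^ q := by
      rw [← Real.rpow_natCast, ← Real.rpow_mul (hS σ)]
      congr 1
      push_cast
      ring
    rw [this]
    ring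
  rw [e1, e2] at h
  exact h

/-- cotype `q ≥ 2` from cotype 2, same constant. -/
lemma good2_cotype {N n : ℕ} {g : Fin N → Fin n → ℝ} {K : ℝ} (hK : 1 ≤ K)
    (hg : Surj g) (h : ∀ (m : ℕ) (y : Fin m → Fin n → ℝ), ∑ i, xn g (y i) ^ 2 ≤ K * ms (xs hg) y)
    {q : ℝ} (hq : 2 ≤ q) (m : ℕ) (y : Fin m → Fin n → ℝ) :
    (√K) ^ (-q) * ∑ i, xn g (y i) ^ q ≤ avg (fun σ => xn g (rad y σ) ^ q) := by
  have hK0 : 0 < K := by linarith
  have hsK : 0 < √K := Real.sqrt_pos.2 hK0
  have h1 := sum_rpow_le (fun i => xn g (y i) ^ 2) (fun i => sq_nonneg _) (r := q / 2) (by linarith)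
  have e1 : ∀ i, (xn g (y i) ^ 2) ^ (q / 2) = xn g (y i) ^ q := by
    intro i
    rw [← Real.rpow_natCast, ← Real.rpow_mul (xn_nonneg g _)]
    congr 1
    push_cast
    ring
  simp_rw [e1] at h1
  have h2 : (∑ i, xn g (y i) ^ 2) ^ (q / 2) ≤ (K * ms (xs hg) y) ^ (q / 2) :=
    Real.rpow_le_rpow (Finset.sum_nonneg fun i _ => sq_nonneg _) (h m y) (by linarith)
  have hm := ms_nonneg (xs hg) y
  rw [Real.mul_rpow hK0.le hm] at h2
  have h3 : ms (xs hg) y ^ (q / 2) ≤ avg (fun σ => xn g (rad y σ) ^ q) :=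
    avg_rpow (fun σ => xn g (rad y σ)) (fun σ => xn_nonneg g _) hq
  have h4 : K ^ (q / 2) = (√K) ^ q := by
    rw [Real.sqrt_eq_rpow, ← Real.rpow_mul hK0.le]
    congr 1; ring
  rw [h4] at h2
  have h5 : 0 < (√K) ^ q := Real.rpow_pos_of_pos hsK q
  rw [Real.rpow_neg hsK.le, inv_mul_le_iff₀ h5]
  calc ∑ i, xn g (y i) ^ q ≤ (√K) ^ q * ms (xs hg) y ^ (q / 2) := h1.trans h2
    _ ≤ (√K) ^ q * avg (fun σ => xn g (rad y σ) ^ q) := mul_le_mul_of_nonneg_left h3 h5.le

end H459R3
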