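import Mathlib

/-! Harmonic analysis on the cube `ι → Bool`. -/

set_option autoImplicit false
set_option linter.unusedSectionVars false

open Finset

namespace H459R3

/-- the sign of a bit. -/
noncomputable def sg (b : Bool) : ℝ := if b then 1 else -1

@[simp] lemma sg_true : sg true = 1 := rfl
@[simp] lemma sg_false : sg false = -1 := by simp [sg]
@[simp] lemma sg_mul_self (b : Bool) : sg b * sg b = 1 := by cases b <;> simp
lemma sg_sq (b : Bool) : sg b ^ 2 = 1 := by cases b <;> simp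
lemma sg_not (b : Bool) : sg (!b) = - sg b := by cases b <;> simp
lemma sg_abs (b : Bool) : |sg b| = 1 := by cases b <;> simp
lemma sg_beq (a b : Bool) : sg (a == b) = sg a * sg b := by cases a <;> cases b <;> simp

section
variable {ι : Type*} [Fintype ι] [DecidableEq ι]

/-- sums over the cube of a product. -/
lemma sum_prod (φ : ι → Bool → ℝ) :
    ∑ σ : ι → Bool, ∏ i, φ i (σ i) = ∏ i, (φ i true + φ i false) := by
  have h := Finset.prod_univ_sum (fun _ : ι => (Finset.univ : Finset Bool)) φ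
  rw [Fintype.piFinset_univ] at h
  rw [← h]
  refine Finset.prod_congr rfl fun i _ => ?_
  simp

lemma card_cube : Fintype.card (ι → Bool) = 2 ^ Fintype.card ι := by simp

/-- average over the cube. -/
noncomputable def avg (φ : (ι → Bool) → ℝ) : ℝ := (∑ σ, φ σ) / 2 ^ Fintype.card ι

omit [DecidableEq ι] in
lemma two_pow_pos : (0 : ℝ) < 2 ^ Fintype.card ι := by positivity

lemma avg_const (c : ℝ) : avg (fun _ : ι → Bool => c) = c := by
  unfold avg
  rw [Finset.sum_const, Finset.card_univ, card_cube, nsmul_eq_mul]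
  push_cast
  field_simp

lemma avg_add (f g : (ι → Bool) → ℝ) : avg (fun σ => f σ + g σ) = avg f + avg g := by
  unfold avg
  rw [Finset.sum_add_distrib, add_div]

lemma avg_sub (f g : (ι → Bool) → ℝ) : avg (fun σ => f σ - g σ) = avg f - avg g := by
  unfold avg
  rw [Finset.sum_sub_distrib, sub_div]

lemma avg_mul (c : ℝ) (f : (ι → Bool) → ℝ) : avg (fun σ => c * f σ) = c * avg f := by
  unfold avg
  rw [← Finset.mul_sum, mul_div_assoc]

lemma avg_sum {κ : Type*} (s : Finset κ) (f : κ → (ι → Bool) → ℝ) :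
    avg (fun σ => ∑ k ∈ s, f k σ) = ∑ k ∈ s, avg (f k) := by
  unfold avg
  rw [Finset.sum_comm, Finset.sum_div]

lemma avg_mono {f g : (ι → Bool) → ℝ} (h : ∀ σ, f σ ≤ g σ) : avg f ≤ avg g := by
  unfold avg
  gcongr
  exact h _

lemma avg_nonneg {f : (ι → Bool) → ℝ} (h : ∀ σ, 0 ≤ f σ) : 0 ≤ avg f := by
  unfold avg
  exact div_nonneg (Finset.sum_nonneg fun σ _ => h σ) (by positivity)

/-- Cauchy-Schwarz for the average. -/
lemma avg_sq_le (f : (ι → Bool) → ℝ) : (avg f) ^ 2 ≤ avg (fun σ => f σ ^ 2) := by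
  have h := avg_nonneg (f := fun σ => (f σ - avg f) ^ 2) (fun σ => sq_nonneg _)
  have e : avg (fun σ => (f σ - avg f) ^ 2) = avg (fun σ => f σ ^ 2) - (avg f) ^ 2 := by
    have e1 : (fun σ => (f σ - avg f) ^ 2)
        = fun σ => (f σ ^ 2 - 2 * avg f * f σ) + avg f ^ 2 := by
      funext σ; ring
    rw [e1, avg_add, avg_sub, avg_mul, avg_const]; ring
  linarith

/-- Walsh functions. -/
noncomputable def walsh (A : Finset ι) (σ : ι → Bool) : ℝ := ∏ i ∈ A, sg (σ i)

omit [Fintype ι] [DecidableEq ι] in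
@[simp] lemma walsh_empty (σ : ι → Bool) : walsh ∅ σ = 1 := by simp [walsh]
omit [Fintype ι] [DecidableEq ι] in
@[simp] lemma walsh_singleton (i : ι) (σ : ι → Bool) : walsh {i} σ = sg (σ i) := by simp [walsh]

lemma sum_walsh_rho (ρ : ℝ) (σ τ : ι → Bool) :
    ∑ A : Finset ι, ρ ^ A.card * (walsh A σ * walsh A τ)
      = ∏ i, (1 + ρ * (sg (σ i) * sg (τ i))) := by
  have h := Finset.prod_add (fun i => ρ * (sg (σ i) * sg (τ i))) (fun _ => (1 : ℝ))
    (Finset.univ : Finset ι)
  simp only [Finset.prod_const_one, mul_one, Finset.powerset_univ] at h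
  have e : ∏ i, (1 + ρ * (sg (σ i) * sg (τ i))) = ∏ i, (ρ * (sg (σ i) * sg (τ i)) + 1) :=
    Finset.prod_congr rfl fun i _ => add_comm _ _
  rw [e, h]
  refine Finset.sum_congr rfl fun A _ => ?_
  rw [Finset.prod_mul_distrib, Finset.prod_const, Finset.prod_mul_distrib]
  rfl

lemma sum_walsh (σ τ : ι → Bool) :
    ∑ A : Finset ι, (walsh A σ * walsh A τ) = if σ = τ then 2 ^ Fintype.card ι else 0 := by
  have h := sum_walsh_rho 1 σ τ
  simp only [one_pow, one_mul] at h
  rw [h]
  split_ifs with hst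
  · subst hst
    simp only [sg_mul_self, Finset.prod_const, Finset.card_univ]
    norm_num
  · have : ∃ i, σ i ≠ τ i := by
      by_contra hc
      push Not at hc
      exact hst (funext hc)
    obtain ⟨i, hi⟩ := this
    refine Finset.prod_eq_zero (Finset.mem_univ i) ?_
    revert hi
    cases σ i <;> cases τ i <;> simp

/-- Fourier-Walsh coefficients. -/
noncomputable def hat (g : (ι → Bool) → ℝ) (A : Finset ι) : ℝ := avg (fun σ => g σ * walsh A σ)

lemma hat_empty (g : (ι → Bool) → ℝ) : hat g ∅ = avg g := by simp [hat]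

lemma inversion (g : (ι → Bool) → ℝ) (σ : ι → Bool) : g σ = ∑ A : Finset ι, hat g A * walsh A σ := by
  have : ∑ A : Finset ι, hat g A * walsh A σ
      = (∑ τ, g τ * ∑ A : Finset ι, (walsh A τ * walsh A σ)) / 2 ^ Fintype.card ι := by
    unfold hat avg
    simp_rw [Finset.mul_sum]
    rw [Finset.sum_comm, Finset.sum_div]
    refine Finset.sum_congr rfl fun A _ => ?_
    rw [div_mul_eq_mul_div, Finset.sum_mul]
    congr 1
    refine Finset.sum_congr rfl fun τ _ => by ring
  rw [this]
  simp only [sum_walsh, mul_ite, mul_zero, Finset.sum_ite_eq', Finset.mem_univ, if_true]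
  field_simp

/-- Parseval. -/
lemma parseval (g : (ι → Bool) → ℝ) : ∑ A : Finset ι, hat g A ^ 2 = avg (fun σ => g σ ^ 2) := by
  have h : ∀ A : Finset ι, hat g A ^ 2
      = (∑ σ, g σ * (hat g A * walsh A σ)) / 2 ^ Fintype.card ι := by
    intro A
    have : hat g A ^ 2 = hat g A * hat g A := sq _
    rw [this]
    nth_rw 2 [hat]
    unfold avg
    rw [mul_div_assoc', Finset.mul_sum]
    congr 1
    refine Finset.sum_congr rfl fun σ _ => by ring
  simp_rw [h]
  rw [← Finset.sum_div, Finset.sum_comm]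
  unfold avg
  congr 1
  refine Finset.sum_congr rfl fun σ _ => ?_
  rw [← Finset.mul_sum, ← inversion]
  show g σ * g σ = g σ ^ 2
  ring

/-- the noise kernel -/
noncomputable def kern (ρ : ℝ) (σ τ : ι → Bool) : ℝ := ∏ i, ((1 + ρ * (sg (σ i) * sg (τ i))) / 2)

lemma kern_nonneg {ρ : ℝ} (h0 : 0 ≤ ρ) (h1 : ρ ≤ 1) (σ τ : ι → Bool) : 0 ≤ kern ρ σ τ := by
  refine Finset.prod_nonneg fun i _ => ?_
  have : -1 ≤ sg (σ i) * sg (τ i) := by cases σ i <;> cases τ i <;> norm_num
  nlinarith

lemma kern_comm (ρ : ℝ) (σ τ : ι → Bool) : kern ρ σ τ = kern ρ τ σ := by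
  unfold kern
  refine Finset.prod_congr rfl fun i _ => by rw [mul_comm (sg (σ i))]

lemma sum_kern_walsh (ρ : ℝ) (σ : ι → Bool) (A : Finset ι) :
    ∑ τ, kern ρ σ τ * walsh A τ = ρ ^ A.card * walsh A σ := by
  have h : ∀ τ : ι → Bool, kern ρ σ τ * walsh A τ
      = ∏ i, (fun (i : ι) (b : Bool) =>
          ((1 + ρ * (sg (σ i) * sg b)) / 2) * (if i ∈ A then sg b else 1)) i (τ i) := by
    intro τ
    unfold kern walsh
    rw [Finset.prod_mul_distrib]
    congr 1
    simp
  rw [Finset.sum_congr rfl fun τ _ => h τ]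
  rw [sum_prod (fun (i : ι) (b : Bool) =>
          ((1 + ρ * (sg (σ i) * sg b)) / 2) * (if i ∈ A then sg b else 1))]
  have h2 : ∀ i : ι, ((1 + ρ * (sg (σ i) * sg true)) / 2) * (if i ∈ A then sg true else 1)
      + ((1 + ρ * (sg (σ i) * sg false)) / 2) * (if i ∈ A then sg false else 1)
      = if i ∈ A then ρ * sg (σ i) else 1 := by
    intro i
    split_ifs <;> simp <;> ring
  simp_rw [h2]
  unfold walsh
  rw [Finset.prod_ite_mem, Finset.univ_inter, Finset.prod_mul_distrib, Finset.prod_const]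

lemma sum_kern (ρ : ℝ) (σ : ι → Bool) : ∑ τ, kern ρ σ τ = 1 := by
  have := sum_kern_walsh ρ σ ∅
  simpa using this

lemma sum_kern' (ρ : ℝ) (τ : ι → Bool) : ∑ σ, kern ρ σ τ = 1 := by
  simp_rw [kern_comm ρ _ τ]
  exact sum_kern ρ τ

lemma sum_kern_sg (ρ : ℝ) (σ : ι → Bool) (i : ι) :
    ∑ τ, kern ρ σ τ * sg (τ i) = ρ * sg (σ i) := by
  have := sum_kern_walsh ρ σ {i}
  simpa using this

/-- the scalar noise operator contracts functions without components of degree `0` and `1`. -/
lemma noise_scalar {ρ : ℝ} (h0 : 0 ≤ ρ) (h1 : ρ ≤ 1) (g : (ι → Bool) → ℝ) (hg0 : avg g = 0)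
    (hg1 : ∀ i, avg (fun σ => g σ * sg (σ i)) = 0) :
    avg (fun σ => (∑ τ, kern ρ σ τ * g τ) ^ 2) ≤ ρ ^ 4 * avg (fun σ => g σ ^ 2) := by
  rw [← parseval, ← parseval]
  have h : ∀ A, hat (fun σ => ∑ τ, kern ρ σ τ * g τ) A = ρ ^ A.card * hat g A := by
    intro A
    unfold hat avg
    rw [mul_div_assoc']
    congr 1
    simp_rw [Finset.sum_mul]
    rw [Finset.sum_comm, Finset.mul_sum]
    refine Finset.sum_congr rfl fun τ _ => ?_
    have := sum_kern_walsh ρ τ A
    calc ∑ σ, kern ρ σ τ * g τ * walsh A σ = g τ * ∑ σ, kern ρ τ σ * walsh A σ := by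
          rw [Finset.mul_sum]
          refine Finset.sum_congr rfl fun σ _ => ?_
          rw [kern_comm ρ σ τ]; ring
      _ = ρ ^ A.card * (g τ * walsh A τ) := by rw [this]; ring
  rw [Finset.mul_sum]
  refine Finset.sum_le_sum fun A _ => ?_
  rw [h]
  rcases Nat.lt_or_ge A.card 2 with hA | hA
  · have hz : hat g A = 0 := by
      interval_cases hc : A.card
      · rw [Finset.card_eq_zero] at hc
        subst hc
        rw [hat_empty, hg0]
      · rw [Finset.card_eq_one] at hc
        obtain ⟨i, rfl⟩ := hc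
        unfold hat
        simpa using hg1 i
    rw [hz]; simp
  · rw [mul_pow, ← pow_mul]
    gcongr ?_ * _
    exact pow_le_pow_of_le_one h0 h1 (by omega)

lemma avg_walsh (A : Finset ι) : avg (walsh A) = if A = ∅ then 1 else 0 := by
  have h := sum_kern_walsh (0 : ℝ) (fun _ => true) A
  have hk : ∀ τ : ι → Bool, kern 0 (fun _ => true) τ = 1 / 2 ^ Fintype.card ι := by
    intro τ
    unfold kern
    simp [Finset.prod_const]
  unfold avg
  rw [Finset.sum_div]
  simp_rw [hk] at h
  have e : ∑ σ, walsh A σ / 2 ^ Fintype.card ι = ∑ σ, 1 / 2 ^ Fintype.card ι * walsh A σ :=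
    Finset.sum_congr rfl fun σ _ => by ring
  rw [e, h]
  split_ifs with hA
  · subst hA; simp
  · have : A.card ≠ 0 := by rwa [Ne, Finset.card_eq_zero]
    rw [zero_pow this, zero_mul]

/-- average of a product of two signs. -/
lemma avg_sg_mul_sg (i j : ι) : avg (fun σ : ι → Bool => sg (σ i) * sg (σ j)) = if i = j then 1 else 0 := by
  split_ifs with h
  · subst h
    simp only [sg_mul_self]
    exact avg_const 1
  · have := avg_walsh ({i, j} : Finset ι)
    rw [if_neg (by simp)] at this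
    rw [← this]
    congr 1
    funext σ
    unfold walsh
    rw [Finset.prod_pair h]

end

end H459R3
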