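import Pool.Agent.H459R3.Znorm

/-! The deterministic part: cotype of the quotient norm from three inequalities for `G`. -/

set_option autoImplicit false
set_option linter.unusedSectionVars false

open Finset

namespace H459R3

section
variable {N n : ℕ}

/-- the linear map `t ↦ ∑ t_j g_j`. -/
noncomputable def Gm (g : Fin N → Fin n → ℝ) : (Fin N → ℝ) →ₗ[ℝ] (Fin n → ℝ) where
  toFun t := ∑ j, t j • g j
  map_add' s t := by simp [add_smul, Finset.sum_add_distrib]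
  map_smul' c t := by simp [smul_smul, Finset.smul_sum]

lemma Gm_apply (g : Fin N → Fin n → ℝ) (t : Fin N → ℝ) : Gm g t = ∑ j, t j • g j := rfl

/-- the quotient norm. -/
noncomputable def xn (g : Fin N → Fin n → ℝ) (y : Fin n → ℝ) : ℝ :=
  sInf {s : ℝ | ∃ t : Fin N → ℝ, ∑ j, t j • g j = y ∧ ∑ j, |t j| = s}

lemma xn_bdd (g : Fin N → Fin n → ℝ) (y : Fin n → ℝ) :
    BddBelow {s : ℝ | ∃ t : Fin N → ℝ, ∑ j, t j • g j = y ∧ ∑ j, |t j| = s} := by
  refine ⟨0, ?_⟩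
  rintro s ⟨t, _, rfl⟩
  exact Finset.sum_nonneg fun i _ => abs_nonneg _

lemma xn_le (g : Fin N → Fin n → ℝ) (t : Fin N → ℝ) : xn g (Gm g t) ≤ l1 t :=
  csInf_le (xn_bdd g _) ⟨t, rfl, rfl⟩

lemma xn_nonneg (g : Fin N → Fin n → ℝ) (y : Fin n → ℝ) : 0 ≤ xn g y := by
  refine Real.sInf_nonneg ?_
  rintro s ⟨t, _, rfl⟩
  exact Finset.sum_nonneg fun i _ => abs_nonneg _

/-- surjectivity. -/
def Surj (g : Fin N → Fin n → ℝ) : Prop := ∀ y : Fin n → ℝ, ∃ t : Fin N → ℝ, ∑ j, t j • g j = y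

lemma xn_attained {g : Fin N → Fin n → ℝ} (hg : Surj g) (y : Fin n → ℝ) :
    ∃ t, Gm g t = y ∧ l1 t = xn g y := by
  obtain ⟨t0, ht0⟩ := hg y
  have hcl : IsClosed {t : Fin N → ℝ | Gm g t = y} :=
    isClosed_eq (Gm g).continuous_of_finiteDimensional continuous_const
  have hev : ∀ᶠ t in Filter.cocompact (Fin N → ℝ) ⊓ Filter.principal {t | Gm g t = y},
      l1 t0 ≤ l1 t := by
    refine Filter.Eventually.filter_mono inf_le_left ?_
    have := (tendsto_norm_cocompact_atTop (E := Fin N → ℝ)).eventually_ge_atTop (l1 t0)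
    filter_upwards [this] with t ht
    exact ht.trans (norm_le_l1 t)
  obtain ⟨t, ht, hmin⟩ := ContinuousOn.exists_isMinOn' (continuous_l1.continuousOn) hcl ht0 hev
  refine ⟨t, ht, le_antisymm ?_ ?_⟩
  · refine le_csInf ⟨_, t, ht, rfl⟩ ?_
    rintro s ⟨u, hu, rfl⟩
    exact hmin hu
  · have := xn_le g t
    rwa [ht] at this

/-- the quotient norm as a seminorm. -/
noncomputable def xs {g : Fin N → Fin n → ℝ} (hg : Surj g) : Seminorm ℝ (Fin n → ℝ) :=
  Seminorm.ofSMulLE (xn g)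
    (by
      refine le_antisymm ?_ (xn_nonneg g 0)
      have := xn_le g 0
      simpa using this)
    (by
      intro x y
      obtain ⟨t, ht, ht1⟩ := xn_attained hg x
      obtain ⟨u, hu, hu1⟩ := xn_attained hg y
      rw [← ht1, ← hu1, ← ht, ← hu, ← map_add]
      exact (xn_le g _).trans (map_add_le_add l1 t u))
    (by
      intro r x
      obtain ⟨t, ht, ht1⟩ := xn_attained hg x
      rw [← ht1, ← ht, ← map_smul]
      refine (xn_le g _).trans (le_of_eq ?_)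
      rw [map_smul_eq_mul])

lemma xs_apply {g : Fin N → Fin n → ℝ} (hg : Surj g) (y : Fin n → ℝ) : xs hg y = xn g y := rfl

/-- an odd norm-preserving lift. -/
lemma exists_lift {g : Fin N → Fin n → ℝ} (hg : Surj g) :
    ∃ Λ : (Fin n → ℝ) → Fin N → ℝ, (∀ y, Gm g (Λ y) = y) ∧ (∀ y, Λ (-y) = - Λ y) ∧
      ∀ y, l1 (Λ y) ≤ xn g y := by
  choose u hu1 hu2 using xn_attained hg
  refine ⟨fun y => (1 / 2 : ℝ) • (u y - u (-y)), fun y => ?_, fun y => ?_, fun y => ?_⟩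
  · rw [map_smul, map_sub, hu1, hu1, sub_neg_eq_add, ← two_smul ℝ, smul_smul]
    norm_num
  · show (1 / 2 : ℝ) • (u (-y) - u (- -y)) = -((1 / 2 : ℝ) • (u y - u (-y)))
    rw [neg_neg, ← smul_neg]
    congr 1
    abel
  · rw [map_smul_eq_mul, Real.norm_of_nonneg (by norm_num)]
    have h1 := map_sub_le_add l1 (u y) (u (-y))
    have h2 : xn g (-y) = xn g y := by
      rw [← xs_apply hg, ← xs_apply hg, map_neg_eq_map]
    rw [hu2, hu2, h2] at h1
    linarith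

/-- the abstract transfer: `p` on `ℝ^N` dominated by `l1`, Hilbertian on `ker G`. -/
theorem transfer {g : Fin N → Fin n → ℝ} (hg : Surj g) (p : Seminorm ℝ (Fin N → ℝ))
    {α θ : ℝ} (hα : 0 < α) (hθ : 0 < θ) (hθ1 : θ ≤ 1) (hp : ∀ v, p v ≤ l1 v)
    (hup : ∀ v, Gm g v = 0 → p v ≤ α * l2 v) (hlow : ∀ v, Gm g v = 0 → θ * (α * l2 v) ≤ p v)
    {ι : Type} [Fintype ι] [DecidableEq ι] (y : ι → Fin n → ℝ) :
    ∃ a : ι → Fin N → ℝ, (∀ i, Gm g (a i) = y i) ∧
      ms p a ≤ (4 / θ + 1) ^ 2 * ms (xs hg) y := by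
  obtain ⟨Λ, h1, h2, h3⟩ := exists_lift hg
  set f : (ι → Bool) → Fin N → ℝ := fun σ => Λ (rad y σ) with hf
  have hGf : ∀ σ, Gm g (f σ) = rad y σ := fun σ => h1 _
  have hcoef : ∀ i, Gm g (coef f i) = y i := by
    intro i
    rw [map_coef]
    simp_rw [hGf]
    exact coef_rad y i
  refine ⟨coef f, hcoef, ?_⟩
  have hodd : ∀ σ, f (neg σ) = - f σ := by
    intro σ
    simp only [hf, rad_neg, h2]
  have hT : ∀ σ, Gm g (f σ) = Gm g (rad (coef f) σ) := by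
    intro σ
    rw [map_rad, hGf]
    simp_rw [hcoef]
  have key := lift_bound (Gm g) p hα hθ hθ1 hup hlow f hodd hT
  have h4 : N2 (fun σ => p (f σ)) ≤ N2 (fun σ => xs hg (rad y σ)) :=
    N2_mono (fun σ => apply_nonneg _ _) fun σ => (hp _).trans (h3 _)
  have h5 : N2 (fun σ => p (rad (coef f) σ)) ≤ (4 / θ + 1) * N2 (fun σ => xs hg (rad y σ)) :=
    key.trans (mul_le_mul_of_nonneg_left h4 (by positivity))
  have h6 := pow_le_pow_left₀ (N2_nonneg _) h5 2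
  rw [mul_pow, N2_sq, N2_sq] at h6
  exact h6

/-- cotype 2 of `l1`. -/
lemma l1_cotype {ι : Type} [Fintype ι] [DecidableEq ι] {k : ℕ} (e : ι ≃ Fin k) (a : ι → Fin N → ℝ) :
    ∑ i, l1 (a i) ^ 2 ≤ 4 * ms l1 a := by
  have h1 : ∑ i, l1 (a i) ^ 2 = ∑ j : Fin k, l1 (a (e.symm j)) ^ 2 :=
    (Equiv.sum_comp e.symm (fun i => l1 (a i) ^ 2)).symm
  have h2 := minkowski (Finset.univ : Finset (Fin N)) (fun j => a (e.symm j))
  have h3 : ∑ i : Fin N, √(∑ j, a (e.symm j) i ^ 2) ≤ 2 * avg (fun σ => l1 (rad a σ)) := by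
    have e1 : (fun σ => l1 (rad a σ)) = fun σ => ∑ i, |rad a σ i| := by
      funext σ; exact l1_apply _
    rw [e1, avg_sum, Finset.mul_sum]
    refine Finset.sum_le_sum fun i _ => ?_
    have e2 : ∑ j, a (e.symm j) i ^ 2 = ∑ j, a j i ^ 2 :=
      Equiv.sum_comp e.symm (fun j => a j i ^ 2)
    rw [e2]
    simp_rw [rad_apply]
    exact khintchine _
  rw [h1]
  refine h2.trans ?_
  have h4 : (0 : ℝ) ≤ ∑ i : Fin N, √(∑ j, a (e.symm j) i ^ 2) :=
    Finset.sum_nonneg fun i _ => Real.sqrt_nonneg _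
  have h5 := pow_le_pow_left₀ h4 h3 2
  refine h5.trans ?_
  rw [mul_pow]
  have h6 := avg_sq_le (fun σ => l1 (rad a σ))
  unfold ms
  linarith

/-- regime of proportional `N`: cotype 2. -/
theorem det_small {g : Fin N → Fin n → ℝ} (hg : Surj g) (hN : 0 < N) {θ : ℝ} (hθ : 0 < θ)
    (hθ1 : θ ≤ 1) (hker : ∀ v, Gm g v = 0 → θ * (√N * l2 v) ≤ l1 v)
    {ι : Type} [Fintype ι] [DecidableEq ι] (y : ι → Fin n → ℝ) :
    ∑ i, xn g (y i) ^ 2 ≤ 4 * (4 / θ + 1) ^ 2 * ms (xs hg) y := by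
  have hα : (0 : ℝ) < √N := Real.sqrt_pos.2 (by exact_mod_cast hN)
  have hup : ∀ v : Fin N → ℝ, Gm g v = 0 → l1 v ≤ √N * l2 v := by
    intro v _
    have := l1_le_l2 v
    simpa using this
  obtain ⟨a, ha1, ha2⟩ := transfer hg l1 hα hθ hθ1 (fun v => le_rfl) hup hker y
  have h1 := l1_cotype (Fintype.equivFin ι) a
  calc ∑ i, xn g (y i) ^ 2 ≤ ∑ i, l1 (a i) ^ 2 := by
        refine Finset.sum_le_sum fun i _ => ?_
        rw [← ha1 i]
        exact pow_le_pow_left₀ (xn_nonneg g _) (xn_le g _) 2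
    _ ≤ 4 * ms l1 a := h1
    _ ≤ 4 * ((4 / θ + 1) ^ 2 * ms (xs hg) y) := by linarith
    _ = _ := by ring

/-- regime of large `N`. -/
theorem det_large {g : Fin N → Fin n → ℝ} (hg : Surj g) (hn : 0 < n) {L c C1 c2 C2 C3 θ C4 : ℝ}
    {γ : ℕ} (hγ : 1 ≤ γ) (hL : 0 < L) (hc : 0 < c) (hC1 : 0 ≤ C1) (hc2 : 0 < c2)
    (hC4 : 1 ≤ C4)
    (E1 : ∀ b, l2 (Gm g b) ≤ C1 * (√n * l2 b + √L * l1 b))
    (E2 : ∀ b, c2 * (√n * l2 b) ≤ l2 (Gm g b) + C2 * (√L * l1 b))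
    (E3 : ∀ y, √L * xn g y ≤ C3 * l2 y)
    (hc1 : 4 * (C1 ^ 2 * c) ≤ 1 / 8) (hk : 8 * (72 + 64 * (1 + C1) ^ 2) ≤ (4 : ℝ) ^ γ)
    (hθ : 0 < θ) (hθ1 : θ ≤ 1) (hθ2 : θ ≤ c2) (hθ3 : θ * (C2 * √c) ≤ c2)
    (hC43 : C3 ≤ C4 * √c)
    {ι : Type} [Fintype ι] [DecidableEq ι] (y : ι → Fin n → ℝ) :
    ∑ i, xn g (y i) ^ (4 * γ) ≤ 2 * (4 ^ γ) ^ 2 * (C4 * (4 / θ + 1)) ^ (4 * γ)
      * ms (xs hg) y ^ (2 * γ) := by
  set α : NNReal := ⟨√(c * n / L), Real.sqrt_nonneg _⟩ with hα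
  set β : NNReal := ⟨√(c / L), Real.sqrt_nonneg _⟩ with hβ
  have hn' : (0 : ℝ) < n := by exact_mod_cast hn
  have hαv : (α : ℝ) = √(c * n / L) := rfl
  have hβv : (β : ℝ) = √(c / L) := rfl
  have hα0 : (0 : ℝ) < α := by rw [hαv]; exact Real.sqrt_pos.2 (by positivity)
  have hβ0 : (0 : ℝ) < β := by rw [hβv]; exact Real.sqrt_pos.2 (by positivity)
  have r1 : (β : ℝ) * √n = α := by
    rw [hαv, hβv, ← Real.sqrt_mul (by positivity)]
    congr 1
    field_simp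
  have r2 : (β : ℝ) * √L = √c := by
    rw [hβv, ← Real.sqrt_mul (by positivity)]
    congr 1
    field_simp
  have hsc : √c ^ 2 = c := Real.sq_sqrt hc.le
  -- hypothesis of the gain
  have hQ : ∀ w, qn (Gm g) α β w ≤ (1 + C1) * (α * l2 w) + (C1 * √c) * l1 w := by
    intro w
    rw [qn_apply]
    have h1 := mul_le_mul_of_nonneg_left (E1 w) hβ0.le
    have h2 : (β : ℝ) * (C1 * (√n * l2 w + √L * l1 w))
        = C1 * ((β * √n) * l2 w) + C1 * (β * √L) * l1 w := by ring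
    rw [h2, r1, r2] at h1
    linarith
  have hgain := gain (Gm g) α β (A1 := 1 + C1) (ε1 := C1 * √c) (by positivity) (by positivity) hQ
    (k := 4 ^ γ) (by rw [mul_pow, hsc]; exact hc1) (by push_cast; exact hk)
  have hgain' : HasCot (zn (Gm g) α β) (Fin (4 ^ γ)) ((4 : ℝ) ^ γ / 4) := by
    have := hgain
    push_cast at this
    exact this
  -- the kernel is Hilbertian
  have hup : ∀ v, Gm g v = 0 → zn (Gm g) α β v ≤ α * l2 v := by
    intro v hv
    refine (zn_le_qn _ _ _ _).trans (le_of_eq ?_)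
    rw [qn_apply, hv, map_zero, mul_zero, add_zero]
  have hlow : ∀ v, Gm g v = 0 → θ * (α * l2 v) ≤ zn (Gm g) α β v := by
    intro v hv
    obtain ⟨b, hb⟩ := zn_attained (Gm g) α β v
    rw [← hb, qn_apply]
    set w := v - b with hw
    have hvb : v = b + w := by rw [hw]; abel
    have hGw : l2 (Gm g w) = l2 (Gm g b) := by
      have : Gm g w = - Gm g b := by
        rw [hw, map_sub, hv, zero_sub]
      rw [this, map_neg_eq_map]
    have h1 : l2 v ≤ l2 b + l2 w := by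
      nth_rw 1 [hvb]
      exact map_add_le_add _ _ _
    have h2 := E2 b
    rw [← hGw] at h2
    -- multiply h2 by β
    have h3 := mul_le_mul_of_nonneg_left h2 hβ0.le
    have h4 : (β : ℝ) * (c2 * (√n * l2 b)) = c2 * ((β * √n) * l2 b) := by ring
    have h5 : (β : ℝ) * (l2 (Gm g w) + C2 * (√L * l1 b))
        = β * l2 (Gm g w) + C2 * (β * √L) * l1 b := by ring
    rw [h4, h5, r1, r2] at h3
    -- c2 α |b| ≤ β |Gw| + C2 √c l1 b
    have hb0 := l2_nonneg b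
    have hw0 := l2_nonneg w
    have hG0 := l2_nonneg (Gm g w)
    have hl0 := l1_nonneg b
    have h6 : θ * (α * l2 b) ≤ (β * l2 (Gm g w)) + l1 b := by
      have h7 : c2 * (θ * (α * l2 b)) ≤ c2 * ((β * l2 (Gm g w)) + l1 b) := by
        have h8 := mul_le_mul_of_nonneg_left h3 hθ.le
        have h9 : θ * (β * l2 (Gm g w)) ≤ c2 * (β * l2 (Gm g w)) :=
          mul_le_mul_of_nonneg_right hθ2 (by positivity)
        have h10 : θ * (C2 * √c) * l1 b ≤ c2 * l1 b := mul_le_mul_of_nonneg_right hθ3 hl0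
        nlinarith
      exact le_of_mul_le_mul_left h7 hc2
    have h11 : θ * (α * l2 v) ≤ θ * (α * l2 b) + θ * (α * l2 w) := by
      rw [← mul_add, ← mul_add]
      gcongr
    have h12 : θ * (α * l2 w) ≤ 1 * (α * l2 w) := mul_le_mul_of_nonneg_right hθ1 (by positivity)
    linarith
  obtain ⟨a, ha1, ha2⟩ := transfer hg (zn (Gm g) α β) hα0 hθ hθ1 (zn_le_l1 _ _ _) hup hlow y
  have hcot := cotype_of_gain hγ hgain' a
  -- from Z to X
  have hXZ : ∀ a, xn g (Gm g a) ≤ C4 * zn (Gm g) α β a := by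
    intro a
    obtain ⟨b, hb⟩ := zn_attained (Gm g) α β a
    rw [← hb, qn_apply]
    set w := a - b with hw
    have hab : a = b + w := by rw [hw]; abel
    have h1 : xn g (Gm g a) ≤ xn g (Gm g b) + xn g (Gm g w) := by
      nth_rw 1 [hab]
      rw [map_add, ← xs_apply hg, ← xs_apply hg, ← xs_apply hg]
      exact map_add_le_add _ _ _
    have h2 := xn_le g b
    have h3 := mul_le_mul_of_nonneg_left (E3 (Gm g w)) hβ0.le
    have h4 : (β : ℝ) * (√L * xn g (Gm g w)) = (β * √L) * xn g (Gm g w) := by ring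
    rw [h4, r2] at h3
    have hsc0 : 0 < √c := Real.sqrt_pos.2 hc
    have h5 : xn g (Gm g w) ≤ C4 * (β * l2 (Gm g w)) := by
      have h6 : √c * xn g (Gm g w) ≤ √c * (C4 * (β * l2 (Gm g w))) := by
        refine h3.trans ?_
        have := mul_le_mul_of_nonneg_right hC43 (mul_nonneg hβ0.le (l2_nonneg (Gm g w)))
        nlinarith
      exact le_of_mul_le_mul_left h6 hsc0
    have h7 : l1 b ≤ C4 * l1 b := le_mul_of_one_le_left (l1_nonneg b) hC4
    have h8 : 0 ≤ C4 * (α * l2 w) := by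
      have := l2_nonneg w
      positivity
    linarith
  have hms0 := ms_nonneg (xs hg) y
  have hC40 : 0 ≤ C4 := by linarith
  calc ∑ i, xn g (y i) ^ (4 * γ) ≤ ∑ i, (C4 * zn (Gm g) α β (a i)) ^ (4 * γ) := by
        refine Finset.sum_le_sum fun i _ => ?_
        rw [← ha1 i]
        exact pow_le_pow_left₀ (xn_nonneg g _) (hXZ _) _
    _ = C4 ^ (4 * γ) * ∑ i, zn (Gm g) α β (a i) ^ (4 * γ) := by
        rw [Finset.mul_sum]
        exact Finset.sum_congr rfl fun i _ => mul_pow _ _ _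
    _ ≤ C4 ^ (4 * γ) * (2 * (4 ^ γ) ^ 2 * ms (zn (Gm g) α β) a ^ (2 * γ)) := by gcongr
    _ ≤ C4 ^ (4 * γ) * (2 * (4 ^ γ) ^ 2 * ((4 / θ + 1) ^ 2 * ms (xs hg) y) ^ (2 * γ)) := by
        have := ms_nonneg (zn (Gm g) α β) a
        gcongr
    _ = _ := by
        have e : ((4 / θ + 1) ^ 2) ^ (2 * γ) = (4 / θ + 1) ^ (4 * γ) := by
          rw [← pow_mul]
          congr 1
          ring
        rw [mul_pow ((4 / θ + 1) ^ 2), e, mul_pow C4]
        ring

end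

end H459R3
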