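import Pool.Agent.H459R3.Point2
import Pool.Agent.H459R3.Det

/-! The events. -/

set_option autoImplicit false
set_option linter.unusedSectionVars false

open MeasureTheory ProbabilityTheory Set
open scoped ENNReal NNReal

namespace H459R3

variable {N n : ℕ}

lemma Gm_coord (g : Fin N → Fin n → ℝ) (b : Fin N → ℝ) (l : Fin n) :
    Gm g b l = ∑ j, b j * g j l := by
  rw [Gm_apply]
  simp [Finset.sum_apply]

lemma inner_Gm (g : Fin N → Fin n → ℝ) (b : Fin N → ℝ) (t : Fin n → ℝ) :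
    ∑ l, Gm g b l * t l = ∑ j, b j * ∑ l, g j l * t l := by
  simp_rw [Gm_coord, Finset.sum_mul, Finset.mul_sum]
  rw [Finset.sum_comm]
  exact Finset.sum_congr rfl fun j _ => Finset.sum_congr rfl fun l _ => by ring

/-- the first event -/
def Ev1 (g : Fin N → Fin n → ℝ) (L : ℝ) : Prop :=
  ∀ b, l2 (Gm g b) ≤ 8 * (√n * l2 b + √L * l1 b)

lemma ev1_of_net (g : Fin N → Fin n → ℝ) (L : ℝ) (T : Finset (Fin n → ℝ))
    (hT : ∀ x : Fin n → ℝ, l2 x = 1 → ∃ t ∈ T, l2 (x - t) ≤ 1 / 2)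
    (hg : ∀ t ∈ T, ∑ i, (max (|∑ l, g i l * t l| - 2 * √L) 0) ^ 2 < 16 * (n : ℝ)) :
    Ev1 g L := by
  intro b
  set v := Gm g b with hv
  rcases (l2_nonneg v).eq_or_lt with h0 | h0
  · rw [← h0]
    have h1 := l2_nonneg b
    have h2 := l1_nonneg b
    positivity
  set x : Fin n → ℝ := (l2 v)⁻¹ • v with hx
  have hx1 : l2 x = 1 := by
    rw [hx, map_smul_eq_mul, Real.norm_of_nonneg (by positivity)]
    field_simp
  obtain ⟨t, ht, hxt⟩ := hT x hx1
  have hxv : ∑ l, x l * v l = l2 v := by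
    simp only [hx, Pi.smul_apply, smul_eq_mul, mul_assoc]
    rw [← Finset.mul_sum]
    have : ∑ l, v l * v l = l2 v ^ 2 := by
      rw [l2_sq]; exact Finset.sum_congr rfl fun l _ => (sq _).symm
    rw [this]
    field_simp
  have h1 : ∑ l, (x - t) l * v l ≤ 1 / 2 * l2 v :=
    (inner_le_l2 _ _).trans (mul_le_mul_of_nonneg_right hxt h0.le)
  have h2 : ∑ l, (x - t) l * v l = ∑ l, x l * v l - ∑ l, v l * t l := by
    rw [← Finset.sum_sub_distrib]
    exact Finset.sum_congr rfl fun l _ => by simp only [Pi.sub_apply]; ring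
  rw [h2, hxv, hv, inner_Gm, ← hv] at h1
  have h3 : ∑ j, b j * ∑ l, g j l * t l
      ≤ 2 * √L * l1 b + l2 b * √(∑ i, (max (|∑ l, g i l * t l| - 2 * √L) 0) ^ 2) := by
    have h4 : ∀ j, b j * ∑ l, g j l * t l
        ≤ 2 * √L * |b j| + |b j| * max (|∑ l, g j l * t l| - 2 * √L) 0 := by
      intro j
      have h5 : b j * ∑ l, g j l * t l ≤ |b j| * |∑ l, g j l * t l| := by
        rw [← abs_mul]; exact le_abs_self _
      have h6 := le_max_left (|∑ l, g j l * t l| - 2 * √L) 0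
      have h7 := mul_le_mul_of_nonneg_left h6 (abs_nonneg (b j))
      nlinarith
    refine (Finset.sum_le_sum fun j _ => h4 j).trans ?_
    rw [Finset.sum_add_distrib, ← Finset.mul_sum, ← l1_apply]
    gcongr
    have h8 := inner_le_l2 (fun j => |b j|) (fun j => max (|∑ l, g j l * t l| - 2 * √L) 0)
    refine h8.trans (le_of_eq ?_)
    rw [l2_eq, l2_eq, l2_eq]
    simp
  have h9 : √(∑ i, (max (|∑ l, g i l * t l| - 2 * √L) 0) ^ 2) ≤ 4 * √n := by
    have : (4 : ℝ) * √n = √(16 * n) := by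
      rw [Real.sqrt_mul (by norm_num)]
      congr 1
      rw [show (16 : ℝ) = 4 ^ 2 by norm_num, Real.sqrt_sq (by norm_num)]
    rw [this]
    exact Real.sqrt_le_sqrt (hg t ht).le
  have h10 := mul_le_mul_of_nonneg_left h9 (l2_nonneg b)
  have h11 : 0 ≤ √L * l1 b := mul_nonneg (Real.sqrt_nonneg _) (l1_nonneg b)
  nlinarith

lemma bad1 {L : ℝ} (hL : 0 ≤ L) (hNL : N * Real.exp (-L) ≤ n / 2) :
    mu N n {g | ¬ Ev1 g L} ≤ ENNReal.ofReal (Real.exp (-n)) := by
  obtain ⟨T, hT1, hT2, hT3⟩ := exists_net_pi (Fin n) (δ := 1 / 2) (by norm_num)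
  have hsub : {g : Fin N → Fin n → ℝ | ¬ Ev1 g L}
      ⊆ ⋃ t ∈ T, {g | 16 * (n : ℝ) ≤ ∑ i, (max (|∑ l, g i l * t l| - 2 * √L) 0) ^ 2} := by
    intro g hg
    simp only [Set.mem_ofPred_eq] at hg
    by_contra hc
    simp only [Set.mem_iUnion, Set.mem_ofPred_eq, not_exists, not_le] at hc
    exact hg (ev1_of_net g L T hT3 fun t ht => hc t ht)
  refine (measure_mono hsub).trans ((measure_biUnion_finset_le T _).trans ?_)
  refine (Finset.sum_le_sum fun t ht => point1 hL hNL (hT1 t ht)).trans ?_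
  rw [Finset.sum_const, nsmul_eq_mul]
  rw [← ENNReal.ofReal_natCast, ← ENNReal.ofReal_mul (by positivity)]
  refine ENNReal.ofReal_le_ofReal ?_
  rw [Fintype.card_fin] at hT2
  have h5 : (1 + 2 / (1 / 2 : ℝ)) = 5 := by norm_num
  rw [h5] at hT2
  have h6 : (5 : ℝ) ≤ Real.exp 2 := by
    have := Real.exp_one_gt_d9
    have h7 : Real.exp 2 = Real.exp 1 ^ 2 := by rw [← Real.exp_nat_mul]; norm_num
    rw [h7]
    nlinarith
  have h8 : (T.card : ℝ) ≤ Real.exp (2 * n) := by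
    refine hT2.trans ?_
    have := pow_le_pow_left₀ (by norm_num) h6 n
    rw [← Real.exp_nat_mul] at this
    rw [mul_comm]
    exact this
  calc (T.card : ℝ) * Real.exp (-3 * n) ≤ Real.exp (2 * n) * Real.exp (-3 * n) := by gcongr
    _ = Real.exp (-n) := by rw [← Real.exp_add]; congr 1; ring

/-- extension by zero -/
def ext0 (S : Finset (Fin N)) (t : S → ℝ) : Fin N → ℝ := fun i => if h : i ∈ S then t ⟨i, h⟩ else 0

lemma l2_ext0 (S : Finset (Fin N)) (t : S → ℝ) : l2 (ext0 S t) = l2 t := by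
  rw [l2_eq, l2_eq]
  congr 1
  rw [← Finset.sum_subset (Finset.subset_univ S)]
  · rw [← Finset.sum_coe_sort S]
    refine Finset.sum_congr rfl fun i _ => ?_
    simp [ext0]
  · intro i _ hi
    simp [ext0, hi]

lemma ext0_sub (S : Finset (Fin N)) (s t : S → ℝ) : ext0 S (s - t) = ext0 S s - ext0 S t := by
  funext i
  unfold ext0
  by_cases h : i ∈ S <;> simp [h]

lemma l1_supp (S : Finset (Fin N)) (t : S → ℝ) : l1 (ext0 S t) ≤ √S.card * l2 (ext0 S t) := by
  rw [l2_ext0]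
  have h1 : l1 (ext0 S t) = l1 t := by
    rw [l1_apply, l1_apply]
    rw [← Finset.sum_subset (Finset.subset_univ S)]
    · rw [← Finset.sum_coe_sort S]
      refine Finset.sum_congr rfl fun i _ => ?_
      simp [ext0]
    · intro i _ hi
      simp [ext0, hi]
  rw [h1]
  have := l1_le_l2 t
  simpa using this

/-- the sparse event: lower bound on vectors supported on `m` coordinates. -/
def Ev2 (g : Fin N → Fin n → ℝ) (c2 : ℝ) (m : ℕ) : Prop :=
  ∀ S : Finset (Fin N), S.card = m → ∀ t : S → ℝ, c2 * (√n * l2 (ext0 S t)) ≤ l2 (Gm g (ext0 S t))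

lemma ev2_of_net (g : Fin N → Fin n → ℝ) {L c0 δ : ℝ} {m : ℕ} (h1 : Ev1 g L) (hc0 : 0 < c0)
    (hδ : 32 * δ ≤ √c0) (hδ0 : 0 ≤ δ) (hm : L * m ≤ n) 
    (T : (S : Finset (Fin N)) → Finset (S → ℝ))
    (hT : ∀ S : Finset (Fin N), ∀ x : S → ℝ, l2 x = 1 → ∃ t ∈ T S, l2 (x - t) ≤ δ)
    (hg : ∀ S : Finset (Fin N), S.card = m → ∀ t ∈ T S,
      c0 * n < ∑ l, (∑ j, (ext0 S t) j • g j) l ^ 2) :
    Ev2 g (√c0 / 2) m := by
  have hc0s : 0 < √c0 := Real.sqrt_pos.2 hc0
  have unit : ∀ S : Finset (Fin N), S.card = m → ∀ x : S → ℝ, l2 x = 1 →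
      √c0 / 2 * √n ≤ l2 (Gm g (ext0 S x)) := by
    intro S hS x hx
    obtain ⟨t, ht, hxt⟩ := hT S x hx
    have h2 : √c0 * √n ≤ l2 (Gm g (ext0 S t)) := by
      rw [l2_eq, ← Real.sqrt_mul hc0.le]
      exact Real.sqrt_le_sqrt (hg S hS t ht).le
    have h3 := h1 (ext0 S (x - t))
    have h4 := l1_supp S (x - t)
    rw [hS] at h4
    rw [l2_ext0] at h3 h4
    have h5 : √L * (√m * l2 (x - t)) ≤ √n * l2 (x - t) := by
      rw [← mul_assoc]
      refine mul_le_mul_of_nonneg_right ?_ (l2_nonneg _)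
      rcases le_or_gt 0 L with hL | hL
      · rw [← Real.sqrt_mul hL]
        exact Real.sqrt_le_sqrt hm
      · rw [Real.sqrt_eq_zero_of_nonpos hL.le, zero_mul]
        exact Real.sqrt_nonneg _
    have h6 : √L * l1 (ext0 S (x - t)) ≤ √n * l2 (x - t) :=
      (mul_le_mul_of_nonneg_left h4 (Real.sqrt_nonneg _)).trans h5
    have h7 : √n * l2 (x - t) ≤ √n * δ := mul_le_mul_of_nonneg_left hxt (Real.sqrt_nonneg _)
    have h8 : l2 (Gm g (ext0 S t)) ≤ l2 (Gm g (ext0 S x)) + l2 (Gm g (ext0 S (x - t))) := by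
      have : ext0 S t = ext0 S x - ext0 S (x - t) := by
        rw [ext0_sub]; abel
      rw [this, map_sub]
      exact map_sub_le_add _ _ _
    have h9 : √n * (32 * δ) ≤ √n * √c0 := mul_le_mul_of_nonneg_left hδ (Real.sqrt_nonneg _)
    nlinarith
  intro S hS t
  rw [l2_ext0]
  rcases (l2_nonneg t).eq_or_lt with h0 | h0
  · rw [← h0]
    simpa using l2_nonneg _
  · have h2 := unit S hS ((l2 t)⁻¹ • t) (by
      rw [map_smul_eq_mul, Real.norm_of_nonneg (by positivity)]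
      field_simp)
    have h3 : ext0 S ((l2 t)⁻¹ • t) = (l2 t)⁻¹ • ext0 S t := by
      funext i
      unfold ext0
      by_cases h : i ∈ S <;> simp [h]
    rw [h3, map_smul, map_smul_eq_mul, Real.norm_of_nonneg (by positivity)] at h2
    have h4 := mul_le_mul_of_nonneg_right h2 h0.le
    have h5 : (l2 t)⁻¹ * l2 (Gm g (ext0 S t)) * l2 t = l2 (Gm g (ext0 S t)) := by field_simp
    rw [h5] at h4
    linarith

end H459R3
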