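import Pool.Agent.H459R3.Events

/-! The events, continued. -/

set_option autoImplicit false
set_option linter.unusedSectionVars false

open MeasureTheory ProbabilityTheory Set
open scoped ENNReal NNReal

namespace H459R3

variable {N n : ℕ}

/-- the binomial coefficient. -/
lemma choose_le_exp {L : ℝ} (hn : 0 < n) (hL : Real.exp L = Real.exp 1 * N / n) (m : ℕ) :
    ((N.choose m : ℕ) : ℝ) ≤ Real.exp (L * m + n) := by
  have h1 : ((N.choose m : ℕ) : ℝ) ≤ (N : ℝ) ^ m / (m.factorial : ℝ) := Nat.choose_le_pow_div m N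
  have h2 : (n : ℝ) ^ m / (m.factorial : ℝ) ≤ Real.exp n := by
    exact Real.pow_div_factorial_le_exp (n : ℝ) (by positivity) m
  have hn' : (0 : ℝ) < n := by exact_mod_cast hn
  have hm : (0 : ℝ) < (m.factorial : ℝ) := by exact_mod_cast Nat.factorial_pos m
  have h3 : Real.exp (L * m + n) = (Real.exp 1 * N / n) ^ m * Real.exp n := by
    rw [Real.exp_add, mul_comm L, Real.exp_nat_mul, hL]
  rw [h3]
  have h4 : (1 : ℝ) ≤ Real.exp 1 ^ m := by
    apply one_le_pow₀
    have := Real.add_one_le_exp 1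
    linarith
  calc ((N.choose m : ℕ) : ℝ) ≤ (N : ℝ) ^ m / (m.factorial : ℝ) := h1
    _ ≤ Real.exp 1 ^ m * ((N : ℝ) ^ m / (m.factorial : ℝ)) := le_mul_of_one_le_left (by positivity) h4
    _ = (Real.exp 1 * N / n) ^ m * ((n : ℝ) ^ m / (m.factorial : ℝ)) := by
        rw [div_pow, mul_pow]
        field_simp
    _ ≤ (Real.exp 1 * N / n) ^ m * Real.exp n := by gcongr

/-- constants for the sparse event. -/
lemma bad2 : ∃ c0 : ℝ, 0 < c0 ∧ ∃ c' : ℝ, 0 < c' ∧ c' ≤ 1 ∧ ∀ (N n m : ℕ) (L : ℝ), 0 < n →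
    0 ≤ L → Real.exp L = Real.exp 1 * N / n → L * m ≤ c' * n → (m : ℝ) ≤ c' * n →
    N * Real.exp (-L) ≤ n / 2 →
    mu N n {g | ¬ (Ev1 g L ∧ Ev2 g (√c0 / 2) m)} ≤ ENNReal.ofReal (2 * Real.exp (-n)) := by
  obtain ⟨c0, hc0, hP⟩ := point2 4
  have hc0s : 0 < √c0 := Real.sqrt_pos.2 hc0
  set δ : ℝ := √c0 / 32 with hδ
  have hδ0 : 0 < δ := by positivity
  set Q : ℝ := 1 + 2 / δ with hQ
  have hQ1 : 1 ≤ Q := by
    have : 0 < 2 / δ := by positivity
    linarith
  have hlQ : 0 ≤ Real.log Q := Real.log_nonneg hQ1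
  refine ⟨c0, hc0, 1 / (1 + Real.log Q), by positivity, ?_, ?_⟩
  · rw [div_le_one (by linarith)]; linarith
  intro N n m L hn hL hexp hLm hm hNL
  have hc'1 : 1 / (1 + Real.log Q) ≤ 1 := by
    rw [div_le_one (by linarith)]; linarith
  have hn' : (0 : ℝ) < n := by exact_mod_cast hn
  have hLm' : L * m ≤ n := by
    refine hLm.trans ?_
    exact mul_le_of_le_one_left hn'.le hc'1
  choose T hT1 hT2 hT3 using fun S : Finset (Fin N) => exists_net_pi S (δ := δ) hδ0
  have hsub : {g : Fin N → Fin n → ℝ | ¬ (Ev1 g L ∧ Ev2 g (√c0 / 2) m)}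
      ⊆ {g | ¬ Ev1 g L} ∪ ⋃ S ∈ (Finset.univ : Finset (Fin N)).powersetCard m, ⋃ t ∈ T S,
        {g | ∑ l, (∑ j, (ext0 S t) j • g j) l ^ 2 ≤ c0 * n} := by
    intro g hg
    simp only [Set.mem_ofPred_eq, not_and] at hg
    by_cases h1 : Ev1 g L
    · right
      by_contra hc
      simp only [Set.mem_iUnion, Set.mem_ofPred_eq, not_exists, not_le,
        Finset.mem_powersetCard, Finset.subset_univ, true_and] at hc
      refine hg h1 (ev2_of_net g h1 hc0 (by rw [hδ]; linarith) hδ0.le hLm' T hT3 ?_)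
      intro S hS t ht
      exact hc S hS t ht
    · left; exact h1
  refine (measure_mono hsub).trans ((measure_union_le _ _).trans ?_)
  have hb2 : mu N n (⋃ S ∈ (Finset.univ : Finset (Fin N)).powersetCard m, ⋃ t ∈ T S,
        {g | ∑ l, (∑ j, (ext0 S t) j • g j) l ^ 2 ≤ c0 * n}) ≤ ENNReal.ofReal (Real.exp (-n)) := by
    refine (measure_biUnion_finset_le _ _).trans ?_
    have h3 : ∀ S ∈ (Finset.univ : Finset (Fin N)).powersetCard m,
        mu N n (⋃ t ∈ T S, {g | ∑ l, (∑ j, (ext0 S t) j • g j) l ^ 2 ≤ c0 * n})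
        ≤ ENNReal.ofReal (Q ^ m * Real.exp (-4 * n)) := by
      intro S hS
      rw [Finset.mem_powersetCard] at hS
      refine (measure_biUnion_finset_le _ _).trans ?_
      refine (Finset.sum_le_sum fun t ht => hP N n (ext0 S t) (by rw [l2_ext0]; exact hT1 S t ht)).trans ?_
      rw [Finset.sum_const, nsmul_eq_mul, ← ENNReal.ofReal_natCast,
        ← ENNReal.ofReal_mul (by positivity)]
      refine ENNReal.ofReal_le_ofReal ?_
      have h4 := hT2 S
      rw [Fintype.card_coe, hS.2] at h4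
      gcongr
    refine (Finset.sum_le_sum h3).trans ?_
    rw [Finset.sum_const, Finset.card_powersetCard, Finset.card_univ, Fintype.card_fin,
      nsmul_eq_mul, ← ENNReal.ofReal_natCast, ← ENNReal.ofReal_mul (by positivity)]
    refine ENNReal.ofReal_le_ofReal ?_
    have h5 := choose_le_exp (N := N) hn hexp m
    have h6 : Q ^ m ≤ Real.exp n := by
      have h7 : Q ^ m = Real.exp (m * Real.log Q) := by
        rw [mul_comm, Real.exp_mul, Real.exp_log (by linarith), Real.rpow_natCast]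
      rw [h7]
      apply Real.exp_le_exp.2
      have h8 := mul_le_mul_of_nonneg_right hm hlQ
      refine h8.trans ?_
      have h9 : 1 / (1 + Real.log Q) * Real.log Q ≤ 1 := by
        rw [one_div, inv_mul_le_iff₀ (by linarith)]; linarith
      nlinarith
    calc ((N.choose m : ℕ) : ℝ) * (Q ^ m * Real.exp (-4 * n))
        ≤ Real.exp (L * m + n) * (Real.exp n * Real.exp (-4 * n)) := by gcongr
      _ = Real.exp (L * m - 2 * n) := by
          rw [← Real.exp_add, ← Real.exp_add]; congr 1; ring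
      _ ≤ Real.exp (-n) := by
          apply Real.exp_le_exp.2; linarith
  refine (add_le_add (bad1 hL hNL) hb2).trans (le_of_eq ?_)
  rw [← ENNReal.ofReal_add (Real.exp_pos _).le (Real.exp_pos _).le]
  congr 1
  ring

/-- the lower bound for all vectors. -/
lemma lower_all (g : Fin N → Fin n → ℝ) {L c' c2 : ℝ} {m : ℕ} (hL : 0 < L) (h1 : Ev1 g L)
    (hc' : 0 < c') (hc2 : 0 < c2) (hmN : m ≤ N) (hn : 0 < n)
    (hm2 : m = 0 → c' * n ≤ L) (hm3 : 0 < m → c' * n ≤ 2 * L * m)
    (h2 : 0 < m → Ev2 g c2 m) (b : Fin N → ℝ) :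
    c2 * (√n * l2 b) ≤ l2 (Gm g b) + ((c2 + 8) * √(2 / c') + 8) * (√L * l1 b) := by
  have hl2 := l2_nonneg b
  have hl1 := l1_nonneg b
  have hsL : 0 < √L := Real.sqrt_pos.2 hL
  have hn' : (0 : ℝ) < n := by exact_mod_cast hn
  rcases Nat.eq_zero_or_pos m with hm0 | hm0
  · have h3 := hm2 hm0
    have h4 : √n ≤ √(2 / c') * √L := by
      rw [← Real.sqrt_mul (by positivity)]
      apply Real.sqrt_le_sqrt
      have : (n : ℝ) ≤ L / c' := by
        rw [le_div_iff₀ hc']; linarith
      have h5 : 0 < L / c' := by positivity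
      have h6 : 2 / c' * L = 2 * (L / c') := by ring
      rw [h6]; linarith
    have h5 : √n * l2 b ≤ (√(2 / c') * √L) * l1 b :=
      mul_le_mul h4 (l2_le_l1 b) hl2 (by positivity)
    have h6 := l2_nonneg (Gm g b)
    have h7 : c2 * (√n * l2 b) ≤ c2 * ((√(2 / c') * √L) * l1 b) :=
      mul_le_mul_of_nonneg_left h5 hc2.le
    have h8 : 0 ≤ 8 * √(2 / c') * (√L * l1 b) := by positivity
    have h9 : 0 ≤ 8 * (√L * l1 b) := by positivity
    nlinarith
  · have hm' : (0 : ℝ) < m := by exact_mod_cast hm0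
    set S0 : Finset (Fin N) := Finset.univ.filter fun i => l1 b < m * |b i| with hS0
    have hcard : S0.card ≤ m := by
      by_contra hc
      push Not at hc
      have h3 : ∑ i ∈ S0, l1 b ≤ ∑ i ∈ S0, (m : ℝ) * |b i| :=
        Finset.sum_le_sum fun i hi => (Finset.mem_filter.1 hi).2.le
      rw [Finset.sum_const, nsmul_eq_mul, ← Finset.mul_sum] at h3
      have h4 : ∑ i ∈ S0, |b i| ≤ l1 b := by
        rw [l1_apply]
        exact Finset.sum_le_univ_sum_of_nonneg fun i => abs_nonneg _
      have h5 : (S0.card : ℝ) * l1 b ≤ m * l1 b := h3.trans (mul_le_mul_of_nonneg_left h4 hm'.le)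
      have h6 : l1 b = 0 := by
        by_contra h0
        have h7 : 0 < l1 b := lt_of_le_of_ne hl1 (Ne.symm h0)
        have h8 := le_of_mul_le_mul_right h5 h7
        have : S0.card ≤ m := by exact_mod_cast h8
        omega
      have h7 : S0.Nonempty := by rw [← Finset.card_pos]; omega
      obtain ⟨i, hi⟩ := h7
      have h8 := (Finset.mem_filter.1 hi).2
      have h9 : |b i| ≤ l1 b := by
        rw [l1_apply]
        exact Finset.single_le_sum (f := fun i => |b i|) (fun i _ => abs_nonneg _) (Finset.mem_univ i)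
      rw [h6] at h8 h9
      have h10 : |b i| = 0 := le_antisymm h9 (abs_nonneg _)
      rw [h10, mul_zero] at h8
      exact lt_irrefl _ h8
    obtain ⟨S, hSS, -, hScard⟩ := Finset.exists_subsuperset_card_eq (Finset.subset_univ S0) hcard
      (by simpa using hmN)
    set b1 := res S b with hb1
    set b2 := res Sᶜ b with hb2
    have hb12 : b = b1 + b2 := (res_add_res_compl S b).symm
    have hb1e : b1 = ext0 S (fun i => b i) := by
      funext i
      simp only [hb1, res, ext0]
      split_ifs <;> rfl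
    have h3 := h2 hm0 S hScard (fun i => b i)
    rw [← hb1e] at h3
    have h4 := h1 b2
    have h5 : l1 b2 ≤ l1 b := l1_res_le _ _
    have h6 : √m * l2 b2 ≤ l1 b := by
      have h7 : (√m * l2 b2) ^ 2 ≤ l1 b ^ 2 := by
        rw [mul_pow, Real.sq_sqrt hm'.le, hb2, l2_res_sq, Finset.mul_sum]
        have h8 : ∀ i ∈ Sᶜ, (m : ℝ) * b i ^ 2 ≤ l1 b * |b i| := by
          intro i hi
          have hi' : i ∉ S0 := fun h => (Finset.mem_compl.1 hi) (hSS h)
          have h9 : (m : ℝ) * |b i| ≤ l1 b := by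
            by_contra hc
            push Not at hc
            exact hi' (Finset.mem_filter.2 ⟨Finset.mem_univ _, hc⟩)
          have := mul_le_mul_of_nonneg_right h9 (abs_nonneg (b i))
          have h10 : b i ^ 2 = |b i| * |b i| := by rw [← sq, sq_abs]
          rw [h10]
          linarith
        refine (Finset.sum_le_sum h8).trans ?_
        rw [← Finset.mul_sum, sq]
        refine mul_le_mul_of_nonneg_left ?_ hl1
        rw [l1_apply]
        exact Finset.sum_le_univ_sum_of_nonneg fun i => abs_nonneg _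
      exact (pow_le_pow_iff_left₀ (mul_nonneg (Real.sqrt_nonneg _) (l2_nonneg _)) hl1
        (by norm_num)).1 h7
    have h7 : √n * l2 b2 ≤ √(2 / c') * (√L * l1 b) := by
      have h8 : √n ≤ √(2 / c') * √L * √m := by
        rw [← Real.sqrt_mul (by positivity), ← Real.sqrt_mul (by positivity)]
        apply Real.sqrt_le_sqrt
        have h9 := hm3 hm0
        have h10 : (n : ℝ) ≤ (2 * L * m) / c' := by
          rw [le_div_iff₀ hc']; linarith
        refine h10.trans (le_of_eq ?_)
        field_simp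
      calc √n * l2 b2 ≤ (√(2 / c') * √L * √m) * l2 b2 := mul_le_mul_of_nonneg_right h8 (l2_nonneg _)
        _ = √(2 / c') * √L * (√m * l2 b2) := by ring
        _ ≤ √(2 / c') * √L * l1 b := mul_le_mul_of_nonneg_left h6 (by positivity)
        _ = _ := by ring
    have h8 : l2 b ≤ l2 b1 + l2 b2 := by
      nth_rw 1 [hb12]
      exact map_add_le_add _ _ _
    have h9 : l2 (Gm g b1) ≤ l2 (Gm g b) + l2 (Gm g b2) := by
      have : b1 = b - b2 := by rw [hb12]; abel
      rw [this, map_sub]
      exact map_sub_le_add _ _ _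
    have h10 : √n * l2 b ≤ √n * l2 b1 + √n * l2 b2 := by
      rw [← mul_add]
      exact mul_le_mul_of_nonneg_left h8 (Real.sqrt_nonneg _)
    have h11 : √L * l1 b2 ≤ √L * l1 b := mul_le_mul_of_nonneg_left h5 hsL.le
    have h12 := mul_le_mul_of_nonneg_left h10 hc2.le
    have h13 := mul_le_mul_of_nonneg_left h7 (by positivity : 0 ≤ c2 + 8)
    nlinarith

end H459R3
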