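import Pool.Agent.H459R3.Events2

/-! The third event: inradius of the polytope. -/

set_option autoImplicit false
set_option linter.unusedSectionVars false

open MeasureTheory ProbabilityTheory Set
open scoped ENNReal NNReal

namespace H459R3

variable {N n : ℕ}

/-- the third event. -/
def Ev3 (g : Fin N → Fin n → ℝ) (L : ℝ) : Prop :=
  ∀ θ : Fin n → ℝ, l2 θ = 1 → ∃ i, √L / 4 ≤ |∑ l, g i l * θ l|

/-- few rows have a large inner product with a small vector. -/
lemma few_large (g : Fin N → Fin n → ℝ) {L : ℝ} (hL : 1 ≤ L) (hn : 0 < n) (h1 : Ev1 g L)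
    {x : Fin n → ℝ} (hx : l2 x ≤ 1 / 256) :
    ((Finset.univ.filter fun i => √L / 4 ≤ |∑ l, g i l * x l|).card : ℝ) < n := by
  classical
  set I := Finset.univ.filter fun i => √L / 4 ≤ |∑ l, g i l * x l| with hI
  have hsL : 1 ≤ √L := Real.one_le_sqrt.2 hL
  have hn' : (0 : ℝ) < n := by exact_mod_cast hn
  set b : Fin N → ℝ := fun i => if i ∈ I then SignType.sign (∑ l, g i l * x l) else 0 with hb
  have hbabs : ∀ i, |b i| ≤ if i ∈ I then 1 else 0 := by
    intro i
    simp only [hb]
    split_ifs with hi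
    · rcases lt_trichotomy (∑ l, g i l * x l) 0 with h | h | h <;> simp [h]
    · simp
  have hb1 : l1 b ≤ I.card := by
    rw [l1_apply]
    refine (Finset.sum_le_sum fun i _ => hbabs i).trans (le_of_eq ?_)
    simp
  have hb2 : l2 b ≤ √I.card := by
    rw [l2_eq]
    apply Real.sqrt_le_sqrt
    have : ∀ i, b i ^ 2 ≤ if i ∈ I then (1 : ℝ) else 0 := by
      intro i
      have h2 := hbabs i
      have h3 := abs_nonneg (b i)
      rw [← sq_abs]
      split_ifs at h2 ⊢ with hi
      · nlinarith
      · nlinarith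
    refine (Finset.sum_le_sum fun i _ => this i).trans (le_of_eq ?_)
    simp
  have h2 : √L / 4 * I.card ≤ ∑ l, Gm g b l * x l := by
    rw [inner_Gm]
    have h3 : ∀ i, b i * ∑ l, g i l * x l = if i ∈ I then |∑ l, g i l * x l| else 0 := by
      intro i
      simp only [hb]
      split_ifs
      · exact sign_mul_self _
      · simp
    simp_rw [h3]
    rw [Finset.sum_ite_mem, Finset.univ_inter]
    have h4 : ∑ i ∈ I, √L / 4 ≤ ∑ i ∈ I, |∑ l, g i l * x l| :=
      Finset.sum_le_sum fun i hi => (Finset.mem_filter.1 hi).2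
    rw [Finset.sum_const, nsmul_eq_mul] at h4
    linarith
  have h3 : ∑ l, Gm g b l * x l ≤ l2 (Gm g b) * l2 x := inner_le_l2 _ _
  have h4 := h1 b
  have h5 : l2 (Gm g b) * l2 x ≤ (8 * (√n * √I.card + √L * I.card)) * (1 / 256) := by
    refine mul_le_mul ?_ hx (l2_nonneg _) (by positivity)
    refine h4.trans ?_
    gcongr
  -- (√L/4) |I| ≤ (1/32)(√n √|I| + √L |I|)
  have h6 : √L * I.card ≤ √n * √I.card := by
    have h7 := h2.trans (h3.trans h5)
    have h8 : 0 ≤ √L * (I.card : ℝ) := by positivity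
    have h9 : 0 ≤ √n * √(I.card : ℝ) := by positivity
    nlinarith
  by_contra hc
  push Not at hc
  have hI0 : (0 : ℝ) < I.card := lt_of_lt_of_le hn' hc
  have h7 : √(I.card : ℝ) ^ 2 = I.card := Real.sq_sqrt hI0.le
  have h8 : 0 < √(I.card : ℝ) := Real.sqrt_pos.2 hI0
  have h9 : √n ≤ √(I.card : ℝ) := Real.sqrt_le_sqrt hc
  -- strict from h2..h5
  have h10 := h2.trans (h3.trans h5)
  have h11 : √n * √(I.card : ℝ) ≤ I.card := by nlinarith
  have h12 : (I.card : ℝ) ≤ √L * I.card := le_mul_of_one_le_left hI0.le hsL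
  nlinarith

lemma bad3 {L : ℝ} (hL : 1 ≤ L) (hn : 0 < n) (hNL : N * Real.exp (-L) ≤ n / 2)
    (hN : 16 * 9 * (n : ℝ) ≤ N * Real.exp (-L / 2)) :
    mu N n {g | ¬ (Ev1 g L ∧ Ev3 g L)} ≤ ENNReal.ofReal (2 * Real.exp (-n)) := by
  obtain ⟨T, hT1, hT2, hT3⟩ := exists_net_pi (Fin n) (δ := 1 / 256) (by norm_num)
  have hL0 : 0 ≤ L := by linarith
  have hsub : {g : Fin N → Fin n → ℝ | ¬ (Ev1 g L ∧ Ev3 g L)}
      ⊆ {g | ¬ Ev1 g L} ∪ ⋃ t ∈ T,
        {g | ((Finset.univ.filter fun i => √L / 2 ≤ |∑ l, g i l * t l|).card : ℝ) < n} := by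
    intro g hg
    simp only [Set.mem_ofPred_eq, not_and] at hg
    by_cases h1 : Ev1 g L
    · right
      by_contra hc
      simp only [Set.mem_iUnion, Set.mem_ofPred_eq, not_exists, not_lt] at hc
      refine hg h1 ?_
      intro θ hθ
      obtain ⟨t, ht, hθt⟩ := hT3 θ hθ
      have h2 := hc t ht
      have h3 := few_large g hL hn h1 hθt
      by_contra hc2
      push Not at hc2
      have h4 : (Finset.univ.filter fun i => √L / 2 ≤ |∑ l, g i l * t l|)
          ⊆ Finset.univ.filter fun i => √L / 4 ≤ |∑ l, g i l * (θ - t) l| := by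
        intro i hi
        rw [Finset.mem_filter] at hi ⊢
        refine ⟨Finset.mem_univ _, ?_⟩
        have h5 := hc2 i
        have h6 : ∑ l, g i l * (θ - t) l = ∑ l, g i l * θ l - ∑ l, g i l * t l := by
          rw [← Finset.sum_sub_distrib]
          exact Finset.sum_congr rfl fun l _ => by simp only [Pi.sub_apply]; ring
        rw [h6]
        have h7 := abs_sub_abs_le_abs_sub (∑ l, g i l * t l) (∑ l, g i l * θ l)
        rw [abs_sub_comm] at h7
        linarith [hi.2]
      have h5 := Finset.card_le_card h4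
      have h6 : ((Finset.univ.filter fun i => √L / 2 ≤ |∑ l, g i l * t l|).card : ℝ)
          ≤ ((Finset.univ.filter fun i => √L / 4 ≤ |∑ l, g i l * (θ - t) l|).card : ℝ) := by
        exact_mod_cast h5
      linarith
    · left; exact h1
  refine (measure_mono hsub).trans ((measure_union_le _ _).trans ?_)
  have hb2 : mu N n (⋃ t ∈ T,
        {g | ((Finset.univ.filter fun i => √L / 2 ≤ |∑ l, g i l * t l|).card : ℝ) < n})
        ≤ ENNReal.ofReal (Real.exp (-n)) := by
    refine (measure_biUnion_finset_le _ _).trans ?_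
    refine (Finset.sum_le_sum fun t ht => point3 hL0 (hT1 t ht)).trans ?_
    rw [Finset.sum_const, nsmul_eq_mul, ← ENNReal.ofReal_natCast, ← ENNReal.ofReal_mul (by positivity)]
    refine ENNReal.ofReal_le_ofReal ?_
    rw [Fintype.card_fin] at hT2
    have h5 : (1 + 2 / (1 / 256 : ℝ)) = 513 := by norm_num
    rw [h5] at hT2
    have h6 : (513 : ℝ) ≤ Real.exp 7 := by
      have := Real.exp_one_gt_d9
      have h7 : Real.exp 7 = Real.exp 1 ^ 7 := by rw [← Real.exp_nat_mul]; norm_num
      rw [h7]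
      calc (513 : ℝ) ≤ 2.7 ^ 7 := by norm_num
        _ ≤ Real.exp 1 ^ 7 := by
          apply pow_le_pow_left₀ (by norm_num)
          linarith
    have h8 : (T.card : ℝ) ≤ Real.exp (7 * n) := by
      refine hT2.trans ?_
      have := pow_le_pow_left₀ (by norm_num) h6 n
      rw [← Real.exp_nat_mul] at this
      rw [mul_comm]
      exact this
    calc (T.card : ℝ) * Real.exp (n - 1 / 16 * (N * Real.exp (-L / 2)))
        ≤ Real.exp (7 * n) * Real.exp (n - 1 / 16 * (N * Real.exp (-L / 2))) := by gcongr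
      _ = Real.exp (8 * n - 1 / 16 * (N * Real.exp (-L / 2))) := by
          rw [← Real.exp_add]; congr 1; ring
      _ ≤ Real.exp (-n) := by
          apply Real.exp_le_exp.2
          linarith
  refine (add_le_add (bad1 hL0 hNL) hb2).trans (le_of_eq ?_)
  rw [← ENNReal.ofReal_add (Real.exp_pos _).le (Real.exp_pos _).le]
  congr 1
  ring

/-- representation with small `l1` norm, by Hahn-Banach. -/
lemma ev3_repr (g : Fin N → Fin n → ℝ) {L : ℝ} (hL : 0 < L) (h3 : Ev3 g L) (y : Fin n → ℝ) :
    ∃ t, Gm g t = y ∧ √L * l1 t ≤ 4 * l2 y := by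
  have hsL : 0 < √L := Real.sqrt_pos.2 hL
  set r : ℝ := 4 * l2 y / √L with hr
  have hr0 : 0 ≤ r := by have := l2_nonneg y; positivity
  set B : Set (Fin N → ℝ) := {t | l1 t ≤ r} with hB
  have hBcl : IsClosed B := isClosed_le continuous_l1 continuous_const
  have hBbd : Bornology.IsBounded B := by
    rw [isBounded_iff_forall_norm_le]
    exact ⟨r, fun t ht => (norm_le_l1 t).trans ht⟩
  have hBcomp : IsCompact B := Metric.isCompact_of_isClosed_isBounded hBcl hBbd
  have hBconv : Convex ℝ B := by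
    have := (l1 : Seminorm ℝ (Fin N → ℝ)).convex_closedBall 0 r
    have e : B = (l1 : Seminorm ℝ (Fin N → ℝ)).closedBall 0 r := by
      ext t
      rw [Seminorm.mem_closedBall, sub_zero]
      rfl
    rw [e]; exact this
  set P : Set (Fin n → ℝ) := Gm g '' B with hP
  have hPconv : Convex ℝ P := hBconv.linear_image (Gm g)
  have hPcl : IsClosed P := (hBcomp.image (Gm g).continuous_of_finiteDimensional).isClosed
  by_cases hy : y ∈ P
  · obtain ⟨t, ht, hty⟩ := hy
    refine ⟨t, hty, ?_⟩
    have h4 : l1 t ≤ r := ht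
    calc √L * l1 t ≤ √L * r := mul_le_mul_of_nonneg_left h4 hsL.le
      _ = 4 * l2 y := by rw [hr]; field_simp
  · exfalso
    obtain ⟨f, u, hf1, hf2⟩ := geometric_hahn_banach_closed_point hPconv hPcl hy
    set θ : Fin n → ℝ := fun l => f (Pi.single l 1) with hθ
    have hfθ : ∀ z : Fin n → ℝ, f z = ∑ l, z l * θ l := by
      intro z
      have h5 : z = ∑ l, z l • (Pi.single l (1 : ℝ) : Fin n → ℝ) := by
        funext k
        simp [Finset.sum_apply, Pi.single_apply]
      conv_lhs => rw [h5]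
      rw [map_sum]
      simp [hθ]
    have hu : 0 < u := by
      have h0 : (0 : Fin n → ℝ) ∈ P := ⟨0, by simp [hB, hr0], map_zero _⟩
      have := hf1 0 h0
      simpa using this
    have hyθ : u < l2 y * l2 θ := by
      refine hf2.trans_le ?_
      rw [hfθ]
      exact inner_le_l2 _ _
    have hθ0 : 0 < l2 θ := by
      by_contra hc
      push Not at hc
      have : l2 θ = 0 := le_antisymm hc (l2_nonneg _)
      rw [this, mul_zero] at hyθ
      linarith
    obtain ⟨i, hi⟩ := h3 ((l2 θ)⁻¹ • θ) (by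
      rw [map_smul_eq_mul, Real.norm_of_nonneg (by positivity)]
      field_simp)
    have h6 : ∑ l, g i l * ((l2 θ)⁻¹ • θ) l = (l2 θ)⁻¹ * ∑ l, g i l * θ l := by
      rw [Finset.mul_sum]
      exact Finset.sum_congr rfl fun l _ => by simp only [Pi.smul_apply, smul_eq_mul]; ring
    rw [h6, abs_mul, abs_of_pos (inv_pos.2 hθ0)] at hi
    have h7 : √L / 4 * l2 θ ≤ |∑ l, g i l * θ l| := by
      have := mul_le_mul_of_nonneg_right hi hθ0.le
      have e : (l2 θ)⁻¹ * |∑ l, g i l * θ l| * l2 θ = |∑ l, g i l * θ l| := by field_simp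
      rwa [e] at this
    -- the vertex
    set s : ℝ := ((SignType.sign (∑ l, g i l * θ l) : SignType) : ℝ) with hs
    have hs1 : |s| ≤ 1 := by
      rcases lt_trichotomy (∑ l, g i l * θ l) 0 with h | h | h <;> simp [hs, h]
    have hmem : Gm g (Pi.single i (r * s)) ∈ P := by
      refine ⟨Pi.single i (r * s), ?_, rfl⟩
      show l1 (Pi.single i (r * s)) ≤ r
      rw [l1_apply]
      have : ∑ j, |(Pi.single i (r * s) : Fin N → ℝ) j| = |r * s| := by
        rw [Finset.sum_eq_single i]
        · simp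
        · intro j _ hj
          simp [Pi.single_apply, hj]
        · simp
      rw [this, abs_mul, abs_of_nonneg hr0]
      exact mul_le_of_le_one_right hr0 hs1
    have h8 := hf1 _ hmem
    have h9 : f (Gm g (Pi.single i (r * s))) = r * |∑ l, g i l * θ l| := by
      rw [hfθ, inner_Gm]
      rw [Finset.sum_eq_single i]
      · rw [Pi.single_eq_same, mul_assoc, hs, sign_mul_self]
      · intro j _ hj
        simp [Pi.single_apply, hj]
      · simp
    rw [h9] at h8
    have h10 : l2 y * l2 θ ≤ r * |∑ l, g i l * θ l| := by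
      have h11 := mul_le_mul_of_nonneg_left h7 hr0
      have h12 : r * (√L / 4 * l2 θ) = l2 y * l2 θ := by
        rw [hr]; field_simp
      linarith
    linarith

end H459R3
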