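import Pool.Agent.H459R3.Main

/-! Bridges to the statements. -/

set_option autoImplicit false
set_option linter.unusedSectionVars false

open MeasureTheory ProbabilityTheory Set
open scoped ENNReal NNReal Pointwise

namespace H459R3

/-- probability of the complement. -/
lemma prob_ge {Ω : Type} [MeasurableSpace Ω] (μ : Measure Ω) [IsProbabilityMeasure μ] (S T : Set Ω)
    (hTS : T ⊆ S) {δ : ℝ} (hδ : 0 ≤ δ) (h : μ Tᶜ ≤ ENNReal.ofReal δ) :
    ENNReal.ofReal (1 - δ) ≤ μ S := by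
  have h1 : (1 : ℝ≥0∞) ≤ μ S + ENNReal.ofReal δ := by
    calc (1 : ℝ≥0∞) = μ Set.univ := measure_univ.symm
      _ = μ (T ∪ Tᶜ) := by rw [Set.union_compl_self]
      _ ≤ μ T + μ Tᶜ := measure_union_le _ _
      _ ≤ μ S + ENNReal.ofReal δ := add_le_add (measure_mono hTS) h
  rw [ENNReal.ofReal_sub _ hδ, ENNReal.ofReal_one]
  exact tsub_le_iff_right.2 h1

lemma exists_n0 {ε : ℝ} (hε : 0 < ε) : ∃ n₀ : ℕ, 0 < n₀ ∧ ∀ n : ℕ, n₀ ≤ n → 4 * Real.exp (-n) ≤ ε := by
  obtain ⟨k, hk⟩ := exists_nat_ge (4 / ε)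
  refine ⟨k + 1, by omega, fun n hn => ?_⟩
  have h1 : (k : ℝ) ≤ n := by
    have : k ≤ n := by omega
    exact_mod_cast this
  have h2 : (4 / ε : ℝ) ≤ Real.exp n := by
    have := Real.add_one_le_exp (n : ℝ)
    linarith
  rw [Real.exp_neg]
  rw [div_le_iff₀ hε] at h2
  rw [mul_inv_le_iff₀ (Real.exp_pos _)]
  linarith

lemma avg_eq_sum {m : ℕ} (f : (Fin m → Bool) → ℝ) :
    (1 / (2 : ℝ) ^ m) * ∑ σ, f σ = avg f := by
  unfold avg
  rw [Fintype.card_fin]
  ring

/-- the bijection between bits and `Fin 2` with `(-1)^(s)` the sign. -/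
def bitEquiv : Bool ≃ Fin 2 where
  toFun b := if b then 0 else 1
  invFun s := if s = 0 then true else false
  left_inv b := by cases b <;> simp
  right_inv s := by fin_cases s <;> simp

lemma sign_bit (b : Bool) : ((-1 : ℝ)) ^ ((bitEquiv b : Fin 2) : ℕ) = sg b := by
  cases b <;> simp [bitEquiv]

/-- from `Good` to the `L¹` cotype inequality. -/
lemma good_L1 {N n : ℕ} {g : Fin N → Fin n → ℝ} {γ : ℕ} (hγ : 1 ≤ γ) {K : ℝ} (hK : 0 ≤ K)
    (hg : Surj g) (h : ∀ (m : ℕ) (y : Fin m → Fin n → ℝ),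
      ∑ i, xn g (y i) ^ (4 * γ) ≤ K * ms (xs hg) y ^ (2 * γ)) (m : ℕ) (y : Fin m → Fin n → ℝ) :
    (∑ i, xn g (y i) ^ (((4 * γ : ℕ)) : ℝ)) ^ (1 / (((4 * γ : ℕ)) : ℝ))
      ≤ (K * 2 ^ (2 * γ)) ^ (1 / (((4 * γ : ℕ)) : ℝ)) * avg (fun σ => xn g (rad y σ)) := by
  have hq : (((4 * γ : ℕ)) : ℝ) ≠ 0 := by
    have : 4 * γ ≠ 0 := by omega
    exact_mod_cast this
  have ha : 0 ≤ avg (fun σ => xn g (rad y σ)) := avg_nonneg fun σ => xn_nonneg g _
  have h1 : ∑ i, xn g (y i) ^ (((4 * γ : ℕ)) : ℝ) ≤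
      (K * 2 ^ (2 * γ)) * avg (fun σ => xn g (rad y σ)) ^ (4 * γ) := by
    simp_rw [Real.rpow_natCast]
    refine (h m y).trans ?_
    have h2 : ms (xs hg) y ≤ 2 * avg (fun σ => xn g (rad y σ)) ^ 2 := kahane (xs hg) y
    have h3 := pow_le_pow_left₀ (ms_nonneg _ _) h2 (2 * γ)
    have h4 : (2 * avg (fun σ => xn g (rad y σ)) ^ 2) ^ (2 * γ)
        = 2 ^ (2 * γ) * avg (fun σ => xn g (rad y σ)) ^ (4 * γ) := by
      rw [mul_pow, ← pow_mul]
      congr 2
      ring
    rw [h4] at h3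
    calc K * ms (xs hg) y ^ (2 * γ) ≤ K * (2 ^ (2 * γ) * avg (fun σ => xn g (rad y σ)) ^ (4 * γ)) :=
          mul_le_mul_of_nonneg_left h3 hK
      _ = _ := by ring
  have h0 : 0 ≤ ∑ i, xn g (y i) ^ (((4 * γ : ℕ)) : ℝ) :=
    Finset.sum_nonneg fun i _ => Real.rpow_nonneg (xn_nonneg g _) _
  refine (Real.rpow_le_rpow h0 h1 (by positivity)).trans (le_of_eq ?_)
  rw [Real.mul_rpow (by positivity) (by positivity), ← Real.rpow_natCast (avg _) (4 * γ),
    ← Real.rpow_mul ha, mul_one_div_cancel hq, Real.rpow_one]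

/-- from `Good` to the `L²` cotype inequality. -/
lemma good_L2 {N n : ℕ} {g : Fin N → Fin n → ℝ} {γ : ℕ} (hγ : 1 ≤ γ) {K : ℝ} (hK : 0 ≤ K)
    (hg : Surj g) (h : ∀ (m : ℕ) (y : Fin m → Fin n → ℝ),
      ∑ i, xn g (y i) ^ (4 * γ) ≤ K * ms (xs hg) y ^ (2 * γ)) (m : ℕ) (y : Fin m → Fin n → ℝ) :
    (∑ i, xn g (y i) ^ (((4 * γ : ℕ)) : ℝ)) ^ (1 / (((4 * γ : ℕ)) : ℝ))
      ≤ K ^ (1 / (((4 * γ : ℕ)) : ℝ)) * (ms (xs hg) y) ^ (1 / 2 : ℝ) := by
  have hq : (((4 * γ : ℕ)) : ℝ) ≠ 0 := by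
    have : 4 * γ ≠ 0 := by omega
    exact_mod_cast this
  have hm := ms_nonneg (xs hg) y
  have h1 : ∑ i, xn g (y i) ^ (((4 * γ : ℕ)) : ℝ) ≤ K * ms (xs hg) y ^ (2 * γ) := by
    simp_rw [Real.rpow_natCast]
    exact h m y
  have h0 : 0 ≤ ∑ i, xn g (y i) ^ (((4 * γ : ℕ)) : ℝ) :=
    Finset.sum_nonneg fun i _ => Real.rpow_nonneg (xn_nonneg g _) _
  refine (Real.rpow_le_rpow h0 h1 (by positivity)).trans (le_of_eq ?_)
  rw [Real.mul_rpow hK (by positivity), ← Real.rpow_natCast (ms _ _) (2 * γ), ← Real.rpow_mul hm]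
  congr 2
  push_cast
  have hγ' : (γ : ℝ) ≠ 0 := by
    have : γ ≠ 0 := by omega
    exact_mod_cast this
  field_simp
  norm_num

/-- the polytope is the image of the `ℓ₁` ball. -/
lemma hull_eq {N n : ℕ} (hN : 0 < N) (g : Fin N → Fin n → ℝ) :
    convexHull ℝ (Set.range g ∪ Set.range (-g)) = Gm g '' {t | l1 t ≤ 1} := by
  classical
  apply Set.Subset.antisymm
  · refine convexHull_min ?_ ?_
    · have hs : ∀ i : Fin N, Gm g (Pi.single i 1) = g i := by
        intro i
        rw [Gm_apply, Finset.sum_eq_single i]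
        · simp
        · intro j _ hj; simp [Pi.single_apply, hj]
        · simp
      have hl : ∀ i : Fin N, l1 (Pi.single i (1 : ℝ)) ≤ 1 := by
        intro i
        rw [l1_apply, Finset.sum_eq_single i]
        · simp
        · intro j _ hj; simp [Pi.single_apply, hj]
        · simp
      rintro x (⟨i, rfl⟩ | ⟨i, rfl⟩)
      · exact ⟨Pi.single i 1, hl i, hs i⟩
      · refine ⟨-Pi.single i 1, ?_, ?_⟩
        · show l1 (-(Pi.single i (1 : ℝ))) ≤ 1
          rw [map_neg_eq_map]; exact hl i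
        · rw [map_neg, hs]; rfl
    · have e : {t : Fin N → ℝ | l1 t ≤ 1} = (l1 : Seminorm ℝ (Fin N → ℝ)).closedBall 0 1 := by
        ext t
        rw [Seminorm.mem_closedBall, sub_zero]
        rfl
      rw [e]
      exact ((l1 : Seminorm ℝ (Fin N → ℝ)).convex_closedBall 0 1).linear_image (Gm g)
  · rintro _ ⟨t, ht, rfl⟩
    have ht' : l1 t ≤ 1 := ht
    set P := convexHull ℝ (Set.range g ∪ Set.range (-g)) with hP
    have hPc : Convex ℝ P := convex_convexHull _ _
    have hgP : ∀ i, g i ∈ P := fun i => subset_convexHull _ _ (Or.inl ⟨i, rfl⟩)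
    have hnP : ∀ i, -g i ∈ P := fun i => subset_convexHull _ _ (Or.inr ⟨i, rfl⟩)
    have h0P : (0 : Fin n → ℝ) ∈ P := by
      have := hPc (hgP ⟨0, hN⟩) (hnP ⟨0, hN⟩) (a := 1 / 2) (b := 1 / 2) (by norm_num) (by norm_num)
        (by norm_num)
      simpa using this
    set w : Option (Fin N) → ℝ := fun o => match o with
      | none => 1 - l1 t
      | some j => |t j| with hw
    set z : Option (Fin N) → Fin n → ℝ := fun o => match o with
      | none => 0
      | some j => ((SignType.sign (t j) : SignType) : ℝ) • g j with hz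
    have key := hPc.sum_mem (t := Finset.univ) (w := w) (z := z)
      (by
        intro o _
        cases o with
        | none => simp only [hw]; linarith
        | some j => exact abs_nonneg _)
      (by
        rw [Fintype.sum_option]
        simp only [hw]
        rw [← l1_apply]; ring)
      (by
        intro o _
        cases o with
        | none => exact h0P
        | some j =>
          simp only [hz]
          rcases lt_trichotomy (t j) 0 with h | h | h
          · simpa [h] using hnP j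
          · simpa [h] using h0P
          · simpa [h] using hgP j)
    have e : Gm g t = ∑ o, w o • z o := by
      rw [Fintype.sum_option]
      simp only [hw, hz, smul_zero, zero_add, smul_smul]
      rw [Gm_apply]
      refine Finset.sum_congr rfl fun j _ => ?_
      rw [abs_mul_sign]
    rw [e]
    exact key

/-- the gauge of the polytope is the quotient norm. -/
lemma gauge_eq {N n : ℕ} (hN : 0 < N) {g : Fin N → Fin n → ℝ} (hg : Surj g) (y : Fin n → ℝ) :
    gauge (convexHull ℝ (Set.range g ∪ Set.range (-g))) y = xn g y := by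
  rw [hull_eq hN g]
  apply le_antisymm
  · obtain ⟨t, ht, ht1⟩ := xn_attained hg y
    refine le_of_forall_pos_le_add fun ε hε => ?_
    set r := xn g y + ε with hr
    have hr0 : 0 < r := by have := xn_nonneg g y; linarith
    refine gauge_le_of_mem hr0.le ?_
    rw [Set.mem_smul_set_iff_inv_smul_mem₀ hr0.ne']
    refine ⟨r⁻¹ • t, ?_, by rw [map_smul, ht]⟩
    show l1 (r⁻¹ • t) ≤ 1
    rw [map_smul_eq_mul, Real.norm_of_nonneg (by positivity), ht1, inv_mul_le_iff₀ hr0]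
    linarith
  · rw [gauge_def]
    have hne : {r : ℝ | r ∈ Set.Ioi 0 ∧ y ∈ r • (Gm g '' {t | l1 t ≤ 1})}.Nonempty := by
      obtain ⟨t, ht, ht1⟩ := xn_attained hg y
      set r := xn g y + 1 with hr
      have hr0 : 0 < r := by have := xn_nonneg g y; linarith
      refine ⟨r, hr0, ?_⟩
      rw [Set.mem_smul_set_iff_inv_smul_mem₀ hr0.ne']
      refine ⟨r⁻¹ • t, ?_, by rw [map_smul, ht]⟩
      show l1 (r⁻¹ • t) ≤ 1
      rw [map_smul_eq_mul, Real.norm_of_nonneg (by positivity), ht1, inv_mul_le_iff₀ hr0]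
      linarith
    refine le_csInf hne ?_
    rintro r ⟨hr0, hr⟩
    have hr0' : (0 : ℝ) < r := hr0
    rw [Set.mem_smul_set_iff_inv_smul_mem₀ hr0'.ne'] at hr
    obtain ⟨t, ht, hty⟩ := hr
    have h1 : Gm g (r • t) = y := by
      rw [map_smul, hty, smul_smul, mul_inv_cancel₀ hr0'.ne', one_smul]
    have h2 := xn_le g (r • t)
    rw [h1, map_smul_eq_mul, Real.norm_of_nonneg hr0'.le] at h2
    have h3 : l1 t ≤ 1 := ht
    nlinarith

end H459R3
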