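import Pool.Agent.H459R3.Net

/-! Laws of linear forms of Gaussian matrices and one-point estimates. -/

set_option autoImplicit false
set_option linter.unusedSectionVars false

open MeasureTheory ProbabilityTheory Set
open scoped ENNReal NNReal

namespace H459R3

/-- the standard Gaussian measure on `ℝ^n` -/
noncomputable def gn (n : ℕ) : Measure (Fin n → ℝ) := Measure.pi fun _ : Fin n => gaussianReal 0 1

/-- the law of a Gaussian matrix. -/
noncomputable def mu (N n : ℕ) : Measure (Fin N → Fin n → ℝ) := Measure.pi fun _ : Fin N => gn n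

instance (n : ℕ) : IsProbabilityMeasure (gn n) := by unfold gn; infer_instance
instance (N n : ℕ) : IsProbabilityMeasure (mu N n) := by unfold mu; infer_instance

/-- integral of a product. -/
lemma lint_pi_pow {α : Type} [MeasurableSpace α] (ν : Measure α) [IsProbabilityMeasure ν] (N : ℕ)
    {f : α → ℝ≥0∞} (hf : Measurable f) :
    ∫⁻ x : Fin N → α, ∏ i, f (x i) ∂(Measure.pi fun _ : Fin N => ν) = (∫⁻ x, f x ∂ν) ^ N := by
  have hi : iIndepFun (fun (i : Fin N) (x : Fin N → α) => f (x i)) (Measure.pi fun _ : Fin N => ν) :=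
    iIndepFun_pi (X := fun _ => f) (fun _ => hf.aemeasurable)
  rw [lintegral_prod_eq_prod_lintegral_of_indepFun Finset.univ _ hi
    (fun i => hf.comp (measurable_pi_apply i))]
  have h : ∀ i : Fin N, ∫⁻ x : Fin N → α, f (x i) ∂(Measure.pi fun _ : Fin N => ν) = ∫⁻ x, f x ∂ν := by
    intro i
    have := (measurePreserving_eval (fun _ : Fin N => ν) i).lintegral_comp hf
    exact this
  simp_rw [h]
  simp

/-- law of `⟨x, y⟩` for `|y| = 1`. -/
lemma law_inner {n : ℕ} {y : Fin n → ℝ} (hy : l2 y = 1) :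
    (gn n).map (fun x => ∑ l, x l * y l) = gaussianReal 0 1 := by
  set L : StrongDual ℝ (EuclideanSpace ℝ (Fin n)) := innerSL ℝ (WithLp.toLp 2 y) with hL
  have h1 : (stdGaussian (EuclideanSpace ℝ (Fin n))).map L = gaussianReal 0 1 := by
    have h2 := IsGaussian.map_eq_gaussianReal (μ := stdGaussian (EuclideanSpace ℝ (Fin n))) L
    rw [h2]
    have h3 : ‖L‖ = 1 := by
      rw [hL, innerSL_apply_norm]
      exact hy
    rw [integral_strongDual_stdGaussian, variance_dual_stdGaussian, h3]
    simp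
  rw [← h1, ← map_pi_eq_stdGaussian, Measure.map_map (by fun_prop) (by fun_prop)]
  rfl

/-- law of `G x` for `|x| = 1`. -/
lemma law_Gx {N n : ℕ} {x : Fin N → ℝ} (hx : l2 x = 1) :
    (mu N n).map (fun g => ∑ j, x j • g j) = gn n := by
  have hmeas : Measurable (fun g : Fin N → Fin n → ℝ => ∑ j, x j • g j) := by fun_prop
  have key : ((mu N n).map (fun g => ∑ j, x j • g j)).map (WithLp.toLp 2)
      = (gn n).map (WithLp.toLp 2) := by
    unfold gn
    rw [map_pi_eq_stdGaussian]
    apply Measure.ext_of_charFun (E := EuclideanSpace ℝ (Fin n))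
    ext t
    rw [charFun_stdGaussian, charFun_apply, integral_map (by fun_prop) (by fun_prop),
      integral_map hmeas.aemeasurable (by fun_prop)]
    have h1 : ∀ g : Fin N → Fin n → ℝ,
        Complex.exp (((inner ℝ (WithLp.toLp 2 (∑ j, x j • g j) : EuclideanSpace ℝ (Fin n)) t : ℝ) : ℂ)
          * Complex.I)
        = ∏ j, Complex.exp (((inner ℝ (WithLp.toLp 2 (g j) : EuclideanSpace ℝ (Fin n)) (x j • t) : ℝ) : ℂ)
          * Complex.I) := by
      intro g
      rw [← Complex.exp_sum, ← Finset.sum_mul]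
      congr 2
      rw [WithLp.toLp_sum, sum_inner]
      push_cast
      refine Finset.sum_congr rfl fun j _ => ?_
      rw [WithLp.toLp_smul, real_inner_smul_left, real_inner_smul_right]
    simp_rw [h1]
    unfold mu
    rw [integral_fintype_prod_eq_prod (μ := fun _ : Fin N => gn n)
      (f := fun j (z : Fin n → ℝ) => Complex.exp
        (((inner ℝ (WithLp.toLp 2 z : EuclideanSpace ℝ (Fin n)) (x j • t) : ℝ) : ℂ) * Complex.I))]
    have h2 : ∀ j, ∫ z : Fin n → ℝ, Complex.exp
        (((inner ℝ (WithLp.toLp 2 z : EuclideanSpace ℝ (Fin n)) (x j • t) : ℝ) : ℂ) * Complex.I) ∂(gn n)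
        = Complex.exp (-‖x j • t‖ ^ 2 / 2) := by
      intro j
      rw [← charFun_stdGaussian, ← map_pi_eq_stdGaussian, charFun_apply,
        integral_map (by fun_prop) (by fun_prop)]
      rfl
    simp_rw [h2]
    rw [← Complex.exp_sum]
    congr 1
    rw [← Finset.sum_div, Finset.sum_neg_distrib]
    congr 2
    have h3 : ∑ j, x j ^ 2 = 1 := by rw [← l2_sq, hx]; norm_num
    have h4 : ∀ j, ((‖x j • t‖ : ℝ) : ℂ) ^ 2 = ((x j ^ 2 * ‖t‖ ^ 2 : ℝ) : ℂ) := by
      intro j
      rw [norm_smul, Real.norm_eq_abs]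
      push_cast
      rw [mul_pow, ← Complex.ofReal_pow, sq_abs]
      push_cast
      rfl
    simp_rw [h4]
    rw [← Complex.ofReal_sum, ← Finset.sum_mul, h3, one_mul]
    push_cast
    rfl
  have h6 : ((WithLp.ofLp : EuclideanSpace ℝ (Fin n) → Fin n → ℝ) ∘ (WithLp.toLp 2)) = id := rfl
  have h7 : ∀ ν : Measure (Fin n → ℝ), Measure.map (WithLp.ofLp : EuclideanSpace ℝ (Fin n) → Fin n → ℝ)
      (ν.map (WithLp.toLp 2)) = ν := by
    intro ν
    rw [Measure.map_map (by fun_prop) (by fun_prop), h6, Measure.map_id]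
  rw [← h7 ((mu N n).map (fun g => ∑ j, x j • g j)), key, h7]

/-- one-dimensional Gaussian integral. -/
lemma gauss_exp_sq {a : ℝ} (ha : a < 1 / 2) :
    ∫⁻ z, ENNReal.ofReal (Real.exp (a * z ^ 2)) ∂(gaussianReal 0 1)
      = ENNReal.ofReal ((√(1 - 2 * a))⁻¹) := by
  rw [gaussianReal_of_var_ne_zero 0 one_ne_zero,
    lintegral_withDensity_eq_lintegral_mul _ (measurable_gaussianPDF 0 1) (by fun_prop)]
  have h1 : ∀ z : ℝ, (gaussianPDF 0 1 * fun z => ENNReal.ofReal (Real.exp (a * z ^ 2))) z
      = ENNReal.ofReal ((√(2 * Real.pi))⁻¹ * Real.exp (-(1 / 2 - a) * z ^ 2)) := by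
    intro z
    rw [Pi.mul_apply, gaussianPDF, ← ENNReal.ofReal_mul (gaussianPDFReal_nonneg _ _ _)]
    congr 1
    rw [gaussianPDFReal]
    simp only [NNReal.coe_one, mul_one, sub_zero]
    rw [mul_assoc, ← Real.exp_add]
    congr 2
    ring
  simp_rw [h1]
  rw [← ofReal_integral_eq_lintegral_ofReal]
  · congr 1
    rw [integral_const_mul, integral_gaussian]
    have hp : 0 < Real.pi := Real.pi_pos
    have h2 : 0 < 1 / 2 - a := by linarith
    have h3 : 1 - 2 * a = 2 * (1 / 2 - a) := by ring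
    rw [← Real.sqrt_inv, ← Real.sqrt_mul (by positivity), ← Real.sqrt_inv, h3]
    congr 1
    field_simp
  · exact ((integrable_exp_neg_mul_sq (by linarith)).const_mul _)
  · exact Filter.Eventually.of_forall fun z => by positivity

end H459R3
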