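import Pool.Agent.H459R3.Rad

/-! Kahane's inequality with constant `√2`, Khintchine, marginals. -/

set_option autoImplicit false
set_option linter.unusedSectionVars false

open Finset

namespace H459R3

section
variable {ι : Type*} [Fintype ι] [DecidableEq ι]
variable {V : Type*} [AddCommGroup V] [Module ℝ V]

/-- change of variables on the cube. -/
lemma avg_equiv (e : (ι → Bool) ≃ (ι → Bool)) (f : (ι → Bool) → ℝ) :
    avg (fun σ => f (e σ)) = avg f := by
  unfold avg
  rw [Equiv.sum_comp e f]

/-- flip a coordinate -/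
def flip (i : ι) (σ : ι → Bool) : ι → Bool := Function.update σ i (!(σ i))

lemma flip_flip (i : ι) : Function.Involutive (flip i) := by
  intro σ
  unfold flip
  simp

/-- negate all coordinates. -/
def neg (σ : ι → Bool) : ι → Bool := fun i => !(σ i)

lemma neg_neg' : Function.Involutive (neg : (ι → Bool) → (ι → Bool)) := by
  intro σ
  funext i
  simp [neg]

lemma avg_flip (i : ι) (f : (ι → Bool) → ℝ) : avg (fun σ => f (flip i σ)) = avg f :=
  avg_equiv (flip_flip i).toPerm f

lemma avg_neg (f : (ι → Bool) → ℝ) : avg (fun σ => f (neg σ)) = avg f :=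
  avg_equiv neg_neg'.toPerm f

lemma walsh_flip (i : ι) (A : Finset ι) (σ : ι → Bool) :
    walsh A (flip i σ) = (if i ∈ A then -1 else 1) * walsh A σ := by
  unfold walsh
  have h : ∀ j, sg (flip i σ j) = (if j = i then -1 else 1) * sg (σ j) := by
    intro j
    unfold flip
    by_cases hj : j = i
    · subst hj
      simp [sg_not]
    · simp [hj]
  simp_rw [h, Finset.prod_mul_distrib]
  congr 1
  rw [Finset.prod_ite_eq']

lemma walsh_neg (A : Finset ι) (σ : ι → Bool) :
    walsh A (neg σ) = (-1) ^ A.card * walsh A σ := by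
  unfold walsh neg
  simp_rw [sg_not]
  rw [Finset.prod_neg]

/-- bilinear Parseval -/
lemma plancherel (f g : (ι → Bool) → ℝ) :
    avg (fun σ => f σ * g σ) = ∑ A : Finset ι, hat f A * hat g A := by
  have h : ∀ σ, f σ * g σ = ∑ A : Finset ι, hat f A * (g σ * walsh A σ) := by
    intro σ
    calc f σ * g σ = (∑ A : Finset ι, hat f A * walsh A σ) * g σ := by rw [← inversion]
      _ = _ := by
        rw [Finset.sum_mul]
        exact Finset.sum_congr rfl fun A _ => by ring
  simp_rw [h]
  rw [avg_sum]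
  exact Finset.sum_congr rfl fun A _ => avg_mul _ _

lemma hat_flip (i : ι) (f : (ι → Bool) → ℝ) (A : Finset ι) :
    hat (fun σ => f (flip i σ)) A = (if i ∈ A then -1 else 1) * hat f A := by
  unfold hat
  rw [← avg_flip i (fun σ => f σ * walsh A σ), ← avg_mul]
  congr 1
  funext σ
  rw [walsh_flip]
  split_ifs <;> ring

lemma hat_neg (f : (ι → Bool) → ℝ) (hf : ∀ σ, f (neg σ) = f σ) (A : Finset ι) :
    hat f A = (-1) ^ A.card * hat f A := by
  have h : hat f A = avg (fun σ => (f (neg σ) * walsh A (neg σ))) := by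
    rw [avg_neg (fun σ => f σ * walsh A σ)]
    rfl
  nth_rw 1 [h]
  unfold hat
  rw [← avg_mul]
  congr 1
  funext σ
  rw [walsh_neg, hf]
  ring

lemma rad_neg (y : ι → V) (σ : ι → Bool) : rad y (neg σ) = - rad y σ := by
  unfold rad neg
  rw [← Finset.sum_neg_distrib]
  exact Finset.sum_congr rfl fun i _ => by rw [sg_not, neg_smul]

lemma sum_rad_flip (y : ι → V) (σ : ι → Bool) :
    ∑ i, rad y (flip i σ) = ((Fintype.card ι : ℝ) - 2) • rad y σ := by
  have h : ∀ i, rad y (flip i σ) = rad y σ - (2 : ℝ) • (sg (σ i) • y i) := by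
    intro i
    have : ∀ j, sg (flip i σ j) • y j
        = sg (σ j) • y j - (if j = i then (2 : ℝ) • (sg (σ j) • y j) else 0) := by
      intro j
      unfold flip
      by_cases hj : j = i
      · subst hj
        simp only [Function.update_self, sg_not, if_true, neg_smul, two_smul]
        abel
      · simp [hj]
    unfold rad
    simp_rw [this, Finset.sum_sub_distrib]
    congr 1
    rw [Finset.sum_ite_eq' Finset.univ i]
    simp
  simp_rw [h, Finset.sum_sub_distrib, ← Finset.smul_sum]
  rw [Finset.sum_const, Finset.card_univ, sub_smul]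
  congr 1
  rw [← Nat.cast_smul_eq_nsmul ℝ]

/-- Kahane's inequality (Latała–Oleszkiewicz): `E p(S)² ≤ 2 (E p(S))²`. -/
theorem kahane (p : Seminorm ℝ V) (y : ι → V) :
    avg (fun σ => p (rad y σ) ^ 2) ≤ 2 * (avg (fun σ => p (rad y σ))) ^ 2 := by
  set h : (ι → Bool) → ℝ := fun σ => p (rad y σ) with hh
  have heven : ∀ σ, h (neg σ) = h σ := by
    intro σ
    simp only [hh, rad_neg, map_neg_eq_map]
  have hh0 : ∀ σ, 0 ≤ h σ := fun σ => apply_nonneg p _
  have hpos : ∀ σ, ((Fintype.card ι : ℝ) - 2) * h σ ≤ ∑ i, h (flip i σ) := by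
    intro σ
    have h1 : p (∑ i, rad y (flip i σ)) ≤ ∑ i, h (flip i σ) := seminorm_sum_le p _ _
    rw [sum_rad_flip, map_smul_eq_mul, Real.norm_eq_abs] at h1
    refine le_trans ?_ h1
    exact mul_le_mul_of_nonneg_right (le_abs_self _) (hh0 σ)
  -- upper bound
  have hU : ∑ i, (avg (fun σ => h σ * h σ) - avg (fun σ => h σ * h (flip i σ)))
      ≤ 2 * avg (fun σ => h σ ^ 2) := by
    rw [Finset.sum_sub_distrib, Finset.sum_const, Finset.card_univ, nsmul_eq_mul]
    rw [← avg_sum]
    have h3 : avg (fun σ => ((Fintype.card ι : ℝ) - 2) * (h σ * h σ))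
        ≤ avg (fun σ => ∑ i, h σ * h (flip i σ)) := by
      refine avg_mono fun σ => ?_
      rw [← Finset.mul_sum]
      have := mul_le_mul_of_nonneg_left (hpos σ) (hh0 σ)
      linarith
    rw [avg_mul] at h3
    have h4 : avg (fun σ => h σ * h σ) = avg (fun σ => h σ ^ 2) := by
      congr 1; funext σ; ring
    rw [h4] at h3 ⊢
    linarith
  -- lower bound
  have hL : ∑ i, (avg (fun σ => h σ * h σ) - avg (fun σ => h σ * h (flip i σ)))
      = ∑ A : Finset ι, 2 * (A.card : ℝ) * hat h A ^ 2 := by
    have h1 : ∀ i, avg (fun σ => h σ * h σ) - avg (fun σ => h σ * h (flip i σ))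
        = ∑ A : Finset ι, (if i ∈ A then 2 * hat h A ^ 2 else 0) := by
      intro i
      rw [plancherel, plancherel, ← Finset.sum_sub_distrib]
      refine Finset.sum_congr rfl fun A _ => ?_
      rw [hat_flip]
      split_ifs <;> ring
    simp_rw [h1]
    rw [Finset.sum_comm]
    refine Finset.sum_congr rfl fun A _ => ?_
    rw [← Finset.sum_filter, Finset.sum_const, nsmul_eq_mul]
    simp only [Finset.filter_univ_mem]
    ring
  have hM : 4 * (avg (fun σ => h σ ^ 2) - (avg h) ^ 2)
      ≤ ∑ A : Finset ι, 2 * (A.card : ℝ) * hat h A ^ 2 := by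
    rw [← parseval, ← hat_empty]
    have h1 : ∑ A : Finset ι, hat h A ^ 2 - hat h ∅ ^ 2
        = ∑ A ∈ Finset.univ.erase (∅ : Finset ι), hat h A ^ 2 := by
      rw [← Finset.add_sum_erase _ _ (Finset.mem_univ (∅ : Finset ι))]
      ring
    rw [h1, Finset.mul_sum]
    refine (Finset.sum_le_sum (g := fun A : Finset ι => 2 * (A.card : ℝ) * hat h A ^ 2) ?_).trans
      (Finset.sum_le_sum_of_subset_of_nonneg (Finset.erase_subset _ _) fun A _ _ => by positivity)
    intro A hA
    have hA0 : A ≠ ∅ := Finset.ne_of_mem_erase hA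
    have hc : A.card ≠ 0 := by rwa [Ne, Finset.card_eq_zero]
    rcases Nat.lt_or_ge A.card 2 with h2 | h2
    · have : A.card = 1 := by omega
      have h3 := hat_neg h heven A
      rw [this] at h3
      have : hat h A = 0 := by linarith
      rw [this]; simp
    · have : (2 : ℝ) ≤ A.card := by exact_mod_cast h2
      nlinarith [sq_nonneg (hat h A)]
  have : 4 * (avg (fun σ => h σ ^ 2) - (avg h) ^ 2) ≤ 2 * avg (fun σ => h σ ^ 2) :=
    hM.trans (hL ▸ hU)
  linarith

/-- Khintchine's inequality. -/
lemma khintchine (c : ι → ℝ) : √(∑ i, c i ^ 2) ≤ 2 * avg (fun σ => |rad c σ|) := by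
  have h := kahane (normSeminorm ℝ ℝ) c
  simp only [coe_normSeminorm, Real.norm_eq_abs, sq_abs] at h
  rw [avg_rad_sq] at h
  have h0 : 0 ≤ avg (fun σ => |rad c σ|) := avg_nonneg fun σ => abs_nonneg _
  rw [Real.sqrt_le_left (by linarith)]
  nlinarith

/-- marginals of the uniform measure. -/
lemma avg_comp_inj {κ : Type*} [Fintype κ] [DecidableEq κ] (e : κ → ι)
    (he : Function.Injective e) (φ : (κ → Bool) → ℝ) :
    avg (fun σ : ι → Bool => φ (fun k => σ (e k))) = avg φ := by
  have h : ∀ σ : ι → Bool, φ (fun k => σ (e k))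
      = ∑ A : Finset κ, hat φ A * walsh (A.map ⟨e, he⟩) σ := by
    intro σ
    rw [inversion φ]
    refine Finset.sum_congr rfl fun A _ => ?_
    congr 1
    unfold walsh
    rw [Finset.prod_map]
    rfl
  simp_rw [h]
  rw [avg_sum]
  simp_rw [avg_mul, avg_walsh]
  simp only [Finset.map_eq_empty, mul_ite, mul_one, mul_zero, Finset.sum_ite_eq', Finset.mem_univ,
    if_true]
  exact hat_empty φ

/-- multiply the signs by given ones. -/
def twist (τ σ : ι → Bool) : ι → Bool := fun i => τ i == σ i

lemma twist_twist (τ : ι → Bool) : Function.Involutive (twist τ) := by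
  intro σ
  funext i
  unfold twist
  cases τ i <;> cases σ i <;> rfl

lemma avg_twist (τ : ι → Bool) (f : (ι → Bool) → ℝ) : avg (fun σ => f (twist τ σ)) = avg f :=
  avg_equiv (twist_twist τ).toPerm f

/-- contraction principle for coordinate restrictions. -/
lemma avg_restrict_le (p : Seminorm ℝ V) (y : ι → V) (A : Finset ι) :
    avg (fun σ => p (rad (fun i => if i ∈ A then y i else 0) σ) ^ 2)
      ≤ avg (fun σ => p (rad y σ) ^ 2) := by
  set τ : ι → Bool := fun i => decide (i ∈ A) with hτ
  have h : ∀ σ, p (rad (fun i => if i ∈ A then y i else 0) σ) ^ 2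
      ≤ (p (rad y σ) ^ 2 + p (rad y (twist τ σ)) ^ 2) / 2 := by
    intro σ
    have e : rad (fun i => if i ∈ A then y i else 0) σ
        = (1 / 2 : ℝ) • (rad y σ + rad y (twist τ σ)) := by
      unfold rad
      rw [← Finset.sum_add_distrib, Finset.smul_sum]
      refine Finset.sum_congr rfl fun i _ => ?_
      unfold twist
      rw [sg_beq, hτ]
      by_cases hi : i ∈ A
      · simp only [hi, if_true, decide_true, sg_true, one_mul]
        rw [← two_smul ℝ, smul_smul]
        norm_num
      · simp [hi]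
    rw [e, map_smul_eq_mul]
    have h1 := map_add_le_add p (rad y σ) (rad y (twist τ σ))
    have h0 := apply_nonneg p (rad y σ + rad y (twist τ σ))
    have h2 := apply_nonneg p (rad y σ)
    have h3 := apply_nonneg p (rad y (twist τ σ))
    rw [Real.norm_of_nonneg (by norm_num)]
    have h4 := pow_le_pow_left₀ h0 h1 2
    nlinarith [sq_nonneg (p (rad y σ) - p (rad y (twist τ σ)))]
  refine (avg_mono h).trans (le_of_eq ?_)
  have e2 : (fun σ => (p (rad y σ) ^ 2 + p (rad y (twist τ σ)) ^ 2) / 2)
      = fun σ => (1 / 2) * (p (rad y σ) ^ 2 + p (rad y (twist τ σ)) ^ 2) := by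
    funext σ; ring
  rw [e2, avg_mul, avg_add, avg_twist τ (fun σ => p (rad y σ) ^ 2)]
  ring

end

end H459R3
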