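import Pool.Agent.H459R3.Cotype

/-! The norms `l1`, `l2` on `κ → ℝ` and the lifting lemma (Pisier's trick). -/

set_option autoImplicit false
set_option linter.unusedSectionVars false

open Finset

namespace H459R3

section
variable {ι κ : Type} [Fintype ι] [DecidableEq ι] [Fintype κ] [DecidableEq κ]
variable {W : Type} [AddCommGroup W] [Module ℝ W]

/-- the `ℓ₁` norm -/
noncomputable def l1 : Seminorm ℝ (κ → ℝ) :=
  Seminorm.of (fun x => ∑ i, |x i|)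
    (fun x y => by
      rw [← Finset.sum_add_distrib]
      exact Finset.sum_le_sum fun i _ => abs_add_le _ _)
    (fun a x => by
      simp only [Pi.smul_apply, smul_eq_mul, abs_mul, Real.norm_eq_abs]
      rw [← Finset.mul_sum])

lemma l1_apply (x : κ → ℝ) : l1 x = ∑ i, |x i| := rfl

/-- the `ℓ₂` norm -/
noncomputable def l2 : Seminorm ℝ (κ → ℝ) :=
  (normSeminorm ℝ (EuclideanSpace ℝ κ)).comp (WithLp.linearEquiv 2 ℝ (κ → ℝ)).symm.toLinearMap

lemma l2_eq (x : κ → ℝ) : l2 x = √(∑ i, x i ^ 2) := by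
  unfold l2
  rw [Seminorm.comp_apply, coe_normSeminorm, EuclideanSpace.norm_eq]
  congr 1
  refine Finset.sum_congr rfl fun i _ => ?_
  rw [Real.norm_eq_abs, sq_abs]
  rfl

lemma l2_sq (x : κ → ℝ) : l2 x ^ 2 = ∑ i, x i ^ 2 := by
  rw [l2_eq, Real.sq_sqrt (Finset.sum_nonneg fun i _ => sq_nonneg _)]

lemma l2_nonneg (x : κ → ℝ) : 0 ≤ l2 x := apply_nonneg _ _

lemma l1_nonneg (x : κ → ℝ) : 0 ≤ l1 x := apply_nonneg _ _

lemma l2_le_of_sq_le {x : κ → ℝ} {c : ℝ} (hc : 0 ≤ c) (h : ∑ i, x i ^ 2 ≤ c ^ 2) : l2 x ≤ c := by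
  rw [l2_eq, Real.sqrt_le_left hc]
  exact h

lemma l2_le_l1 (x : κ → ℝ) : l2 x ≤ l1 x := by
  refine l2_le_of_sq_le (l1_nonneg x) ?_
  rw [l1_apply]
  calc ∑ i, x i ^ 2 = ∑ i, |x i| ^ 2 := by simp
    _ ≤ (∑ i, |x i|) ^ 2 := Finset.sum_sq_le_sq_sum_of_nonneg fun i _ => abs_nonneg _

lemma l1_le_l2 (x : κ → ℝ) : l1 x ≤ √(Fintype.card κ) * l2 x := by
  rw [l1_apply, l2_eq, ← Real.sqrt_mul (by positivity)]
  refine Real.le_sqrt_of_sq_le ?_
  have := sq_sum_le_card_mul_sum_sq (s := (Finset.univ : Finset κ)) (f := fun i => |x i|)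
  simpa using this

lemma inner_le_l2 (x y : κ → ℝ) : ∑ i, x i * y i ≤ l2 x * l2 y := by
  rw [l2_eq, l2_eq, ← Real.sqrt_mul (Finset.sum_nonneg fun i _ => sq_nonneg _)]
  refine Real.le_sqrt_of_sq_le ?_
  exact Finset.sum_mul_sq_le_sq_mul_sq _ _ _

lemma avg_l2_sq (f : (ι → Bool) → κ → ℝ) :
    avg (fun σ => l2 (f σ) ^ 2) = ∑ j, avg (fun σ => f σ j ^ 2) := by
  simp_rw [l2_sq]
  rw [avg_sum]

lemma coef_apply (f : (ι → Bool) → κ → ℝ) (i : ι) (j : κ) :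
    coef f i j = coef (fun σ => f σ j) i :=
  map_coef (LinearMap.proj j : (κ → ℝ) →ₗ[ℝ] ℝ) f i

lemma rad_apply (y : ι → κ → ℝ) (σ : ι → Bool) (j : κ) :
    rad y σ j = rad (fun i => y i j) σ :=
  map_rad (LinearMap.proj j : (κ → ℝ) →ₗ[ℝ] ℝ) y σ

lemma noise_apply (ρ : ℝ) (f : (ι → Bool) → κ → ℝ) (σ : ι → Bool) (j : κ) :
    noise ρ f σ j = noise ρ (fun σ => f σ j) σ :=
  map_noise (LinearMap.proj j : (κ → ℝ) →ₗ[ℝ] ℝ) ρ f σ

lemma N2_l2_noise {ρ : ℝ} (h0 : 0 ≤ ρ) (h1 : ρ ≤ 1) (g : (ι → Bool) → κ → ℝ)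
    (hg0 : avgV g = 0) (hg1 : ∀ i, coef g i = 0) :
    N2 (fun σ => l2 (noise ρ g σ)) ≤ ρ ^ 2 * N2 (fun σ => l2 (g σ)) := by
  have h : N2 (fun σ => l2 (noise ρ g σ)) ^ 2 ≤ (ρ ^ 2 * N2 (fun σ => l2 (g σ))) ^ 2 := by
    rw [mul_pow, N2_sq, N2_sq, avg_l2_sq, avg_l2_sq, Finset.mul_sum]
    refine Finset.sum_le_sum fun j _ => ?_
    have e1 : avg (fun σ => g σ j) = 0 := by
      have := map_avgV (LinearMap.proj j : (κ → ℝ) →ₗ[ℝ] ℝ) g
      rw [hg0, avgV_real] at this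
      simpa using this.symm
    have e2 : ∀ i, avg (fun σ => g σ j * sg (σ i)) = 0 := by
      intro i
      rw [← coef_real, ← coef_apply, hg1]
      rfl
    have := noise_scalar h0 h1 (fun σ => g σ j) e1 e2
    have e3 : (fun σ => noise ρ g σ j ^ 2) = fun σ => (∑ τ, kern ρ σ τ * g τ j) ^ 2 := by
      funext σ
      rw [noise_apply]
      simp [noise]
    rw [e3]
    refine this.trans (le_of_eq ?_)
    ring
  exact (pow_le_pow_iff_left₀ (N2_nonneg _) (mul_nonneg (sq_nonneg _) (N2_nonneg _))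
    (by norm_num)).1 h

lemma avgV_odd {V : Type} [AddCommGroup V] [Module ℝ V] (f : (ι → Bool) → V)
    (hodd : ∀ σ, f (neg σ) = - f σ) : avgV f = 0 := by
  unfold avgV
  have h : ∑ σ, f σ = - ∑ σ, f σ := by
    rw [← Finset.sum_neg_distrib, ← Equiv.sum_comp (neg_neg' (ι := ι)).toPerm f]
    exact Finset.sum_congr rfl fun σ _ => hodd σ
  have h2 : (2 : ℝ) • ∑ σ, f σ = 0 := by
    rw [two_smul]
    nth_rw 2 [h]
    rw [add_neg_cancel]
  have h3 : ∑ σ, f σ = 0 := by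
    have := congrArg (fun v => (2 : ℝ)⁻¹ • v) h2
    simpa [smul_smul] using this
  rw [h3, smul_zero]

/-- Lifting lemma: bound of the degree one part of an odd function `f` when `f - P₁ f` takes its
values in a subspace on which `p` is Hilbertian. -/
theorem lift_bound (T : (κ → ℝ) →ₗ[ℝ] W) (p : Seminorm ℝ (κ → ℝ)) {α θ : ℝ} (hα : 0 < α)
    (hθ : 0 < θ) (hθ1 : θ ≤ 1)
    (hup : ∀ v, T v = 0 → p v ≤ α * l2 v) (hlow : ∀ v, T v = 0 → θ * (α * l2 v) ≤ p v)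
    (f : (ι → Bool) → κ → ℝ) (hodd : ∀ σ, f (neg σ) = - f σ)
    (hT : ∀ σ, T (f σ) = T (rad (coef f) σ)) :
    N2 (fun σ => p (rad (coef f) σ)) ≤ (4 / θ + 1) * N2 (fun σ => p (f σ)) := by
  set a : (ι → Bool) → κ → ℝ := rad (coef f) with ha
  set g : (ι → Bool) → κ → ℝ := fun σ => f σ - a σ with hg
  set M := N2 (fun σ => p (f σ)) with hM
  set D := N2 (fun σ => p (a σ)) with hD
  set ρ : ℝ := θ / 2 with hρ
  have hρ0 : 0 ≤ ρ := by positivity
  have hρ1 : ρ ≤ 1 := by rw [hρ]; linarith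
  have hg0 : avgV g = 0 := by
    apply avgV_odd
    intro σ
    simp only [hg, ha, hodd, rad_neg]
    abel
  have hg1 : ∀ i, coef g i = 0 := fun i => coef_sub_rad f i
  have hTg : ∀ σ, T (g σ) = 0 := by
    intro σ
    simp only [hg, map_sub, hT σ, sub_self]
  have hTn : ∀ σ, T (noise ρ g σ) = 0 := by
    intro σ
    rw [map_noise]
    unfold noise
    simp [hTg]
  have e1 : ∀ σ, ρ * p (a σ) ≤ p (noise ρ f σ) + p (noise ρ g σ) := by
    intro σ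
    have h1 : ρ • a σ = noise ρ f σ - noise ρ g σ := by
      rw [noise_sub ρ f a σ, ha, noise_rad]
      abel
    have h2 : p (ρ • a σ) = ρ * p (a σ) := by
      rw [map_smul_eq_mul, Real.norm_of_nonneg hρ0]
    rw [← h2, h1]
    exact map_sub_le_add p _ _
  have e2 : N2 (fun σ => ρ * p (a σ)) ≤ N2 (fun σ => p (noise ρ f σ))
      + N2 (fun σ => p (noise ρ g σ)) := by
    refine (N2_mono (fun σ => mul_nonneg hρ0 (apply_nonneg _ _)) e1).trans ?_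
    exact N2_add_le _ _
  rw [N2_mul hρ0] at e2
  have e3 : N2 (fun σ => p (noise ρ f σ)) ≤ M := N2_noise_le p hρ0 hρ1 f
  have e4 : N2 (fun σ => p (noise ρ g σ)) ≤ α * (ρ ^ 2 * N2 (fun σ => l2 (g σ))) := by
    refine (N2_mono (fun σ => apply_nonneg _ _) fun σ => hup _ (hTn σ)).trans ?_
    rw [N2_mul hα.le]
    exact mul_le_mul_of_nonneg_left (N2_l2_noise hρ0 hρ1 g hg0 hg1) hα.le
  have e5 : θ * (α * N2 (fun σ => l2 (g σ))) ≤ M + D := by
    rw [← N2_mul hα.le, ← N2_mul hθ.le]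
    refine (N2_mono (fun σ => mul_nonneg hθ.le (mul_nonneg hα.le (l2_nonneg _)))
      fun σ => hlow _ (hTg σ)).trans ?_
    refine (N2_mono (fun σ => apply_nonneg _ _) fun σ => map_sub_le_add p (f σ) (a σ)).trans ?_
    exact N2_add_le _ _
  have hX : 0 ≤ N2 (fun σ => l2 (g σ)) := N2_nonneg _
  have hM0 : 0 ≤ M := N2_nonneg _
  have hD0 : 0 ≤ D := N2_nonneg _
  -- ρ D ≤ M + ρ² α X, θ α X ≤ M + D
  have e6 : ρ * D ≤ M + ρ ^ 2 * (α * N2 (fun σ => l2 (g σ))) := by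
    have : α * (ρ ^ 2 * N2 (fun σ => l2 (g σ))) = ρ ^ 2 * (α * N2 (fun σ => l2 (g σ))) := by ring
    linarith
  have e7 : ρ ^ 2 * (α * N2 (fun σ => l2 (g σ))) ≤ θ / 4 * (M + D) := by
    have : ρ ^ 2 * (α * N2 (fun σ => l2 (g σ))) = θ / 4 * (θ * (α * N2 (fun σ => l2 (g σ)))) := by
      rw [hρ]; ring
    rw [this]
    exact mul_le_mul_of_nonneg_left e5 (by positivity)
  have e8 : θ / 4 * D ≤ (1 + θ / 4) * M := by
    rw [hρ] at e6
    nlinarith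
  have : (4 / θ + 1) * M = (4 / θ) * ((1 + θ / 4) * M) := by
    field_simp
  rw [this]
  have h9 : D = (4 / θ) * (θ / 4 * D) := by field_simp
  rw [h9]
  exact mul_le_mul_of_nonneg_left e8 (by positivity)

end

end H459R3
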