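import Pool.Agent.H459R3.SurjAE

/-! Main estimates: cotype with high probability. -/

set_option autoImplicit false
set_option linter.unusedSectionVars false

open MeasureTheory ProbabilityTheory Set
open scoped ENNReal NNReal

namespace H459R3

/-- cotype inequality with exponents `q = 4γ`. -/
def Good {N n : ℕ} (g : Fin N → Fin n → ℝ) (γ : ℕ) (K : ℝ) : Prop :=
  ∃ hg : Surj g, ∀ (m : ℕ) (y : Fin m → Fin n → ℝ),
    ∑ i, xn g (y i) ^ (4 * γ) ≤ K * ms (xs hg) y ^ (2 * γ)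

/-- cotype 2 inequality. -/
def Good2 {N n : ℕ} (g : Fin N → Fin n → ℝ) (K : ℝ) : Prop :=
  ∃ hg : Surj g, ∀ (m : ℕ) (y : Fin m → Fin n → ℝ),
    ∑ i, xn g (y i) ^ 2 ≤ K * ms (xs hg) y

lemma sum_pow_le {m : ℕ} (a : Fin m → ℝ) (ha : ∀ i, 0 ≤ a i) {k : ℕ} (hk : 1 ≤ k) :
    ∑ i, a i ^ k ≤ (∑ i, a i) ^ k := by
  obtain ⟨k, rfl⟩ := Nat.exists_eq_add_of_le hk
  have hA : 0 ≤ ∑ i, a i := Finset.sum_nonneg fun i _ => ha i
  have h1 : ∀ i, a i ^ (1 + k) ≤ a i * (∑ i, a i) ^ k := by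
    intro i
    rw [pow_add, pow_one]
    refine mul_le_mul_of_nonneg_left ?_ (ha i)
    exact pow_le_pow_left₀ (ha i) (Finset.single_le_sum (fun i _ => ha i) (Finset.mem_univ i)) k
  refine (Finset.sum_le_sum fun i _ => h1 i).trans (le_of_eq ?_)
  rw [← Finset.sum_mul, pow_add, pow_one]

lemma Good2.good {N n : ℕ} {g : Fin N → Fin n → ℝ} {K : ℝ} (hK : 0 ≤ K) (h : Good2 g K) {γ : ℕ}
    (hγ : 1 ≤ γ) : Good g γ (K ^ (2 * γ)) := by
  obtain ⟨hg, h⟩ := h
  refine ⟨hg, fun m y => ?_⟩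
  have h1 := h m y
  have h2 := sum_pow_le (fun i => xn g (y i) ^ 2) (fun i => sq_nonneg _) (k := 2 * γ) (by omega)
  have h3 : ∀ i, xn g (y i) ^ (4 * γ) = (xn g (y i) ^ 2) ^ (2 * γ) := by
    intro i
    rw [← pow_mul]; congr 1; ring
  simp_rw [h3]
  refine h2.trans ?_
  rw [← mul_pow]
  exact pow_le_pow_left₀ (Finset.sum_nonneg fun i _ => sq_nonneg _) h1 _

/-- the parameter `L`. -/
noncomputable def LL (N n : ℕ) : ℝ := 1 + Real.log (N / n)

lemma LL_one_le {N n : ℕ} (hn : 0 < n) (h : n ≤ N) : 1 ≤ LL N n := by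
  unfold LL
  have : 0 ≤ Real.log ((N : ℝ) / n) := by
    apply Real.log_nonneg
    rw [one_le_div (by exact_mod_cast hn)]
    exact_mod_cast h
  linarith

lemma exp_LL {N n : ℕ} (hn : 0 < n) (h : n ≤ N) :
    Real.exp (LL N n) = Real.exp 1 * N / n := by
  unfold LL
  have hn' : (0 : ℝ) < n := by exact_mod_cast hn
  have hN' : (0 : ℝ) < N := by exact_mod_cast (lt_of_lt_of_le hn h)
  rw [Real.exp_add, Real.exp_log (by positivity)]
  ring

lemma exp_neg_LL {N n : ℕ} (hn : 0 < n) (h : n ≤ N) :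
    N * Real.exp (-LL N n) = n / Real.exp 1 := by
  have hn' : (0 : ℝ) < n := by exact_mod_cast hn
  have hN' : (0 : ℝ) < N := by exact_mod_cast (lt_of_lt_of_le hn h)
  rw [Real.exp_neg, exp_LL hn h]
  field_simp

lemma exp_neg_LL_le {N n : ℕ} (hn : 0 < n) (h : n ≤ N) :
    N * Real.exp (-LL N n) ≤ n / 2 := by
  rw [exp_neg_LL hn h]
  have := Real.exp_one_gt_d9
  have hn' : (0 : ℝ) ≤ n := by positivity
  exact div_le_div_of_nonneg_left hn' (by norm_num) (by linarith)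

/-- the common lower bound. -/
lemma common : ∃ c2 : ℝ, 0 < c2 ∧ ∃ C2 : ℝ, 0 < C2 ∧ ∀ (N n : ℕ), 0 < n → n ≤ N →
    mu N n {g | ¬ (Ev1 g (LL N n) ∧
      ∀ b, c2 * (√n * l2 b) ≤ l2 (Gm g b) + C2 * (√(LL N n) * l1 b))}
      ≤ ENNReal.ofReal (2 * Real.exp (-n)) := by
  obtain ⟨c0, hc0, c', hc', hc'1, hbad⟩ := bad2
  have hc0s : 0 < √c0 := Real.sqrt_pos.2 hc0
  refine ⟨√c0 / 2, by positivity, (√c0 / 2 + 8) * √(2 / c') + 8, by positivity, ?_⟩
  intro N n hn hnN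
  set L := LL N n with hLdef
  have hL1 : 1 ≤ L := LL_one_le hn hnN
  have hL0 : 0 < L := by linarith
  have hn' : (0 : ℝ) < n := by exact_mod_cast hn
  set x : ℝ := c' * n / L with hx
  have hx0 : 0 ≤ x := by positivity
  set m : ℕ := ⌊x⌋₊ with hm
  have hmx : (m : ℝ) ≤ x := Nat.floor_le hx0
  have hxm : x < m + 1 := Nat.lt_floor_add_one x
  have hLx : L * x = c' * n := by rw [hx]; field_simp
  have hLm : L * m ≤ c' * n := by
    rw [← hLx]; exact mul_le_mul_of_nonneg_left hmx hL0.le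
  have hm' : (m : ℝ) ≤ c' * n := by
    have : (m : ℝ) ≤ L * m := le_mul_of_one_le_left (by positivity) hL1
    linarith
  have hmN : m ≤ N := by
    have h1 : (m : ℝ) ≤ n := hm'.trans (mul_le_of_le_one_left hn'.le hc'1)
    have h2 : m ≤ n := by exact_mod_cast h1
    omega
  refine le_trans (measure_mono ?_) (hbad N n m L hn hL0.le (exp_LL hn hnN) hLm hm'
    (exp_neg_LL_le hn hnN))
  intro g hg
  simp only [Set.mem_ofPred_eq] at hg ⊢
  intro hE
  apply hg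
  refine ⟨hE.1, fun b => ?_⟩
  refine lower_all g hL0 hE.1 hc' (by positivity) hmN hn ?_ ?_ (fun _ => hE.2) b
  · intro h0
    rw [h0] at hxm
    have h1 : x < 1 := by simpa using hxm
    have := mul_lt_mul_of_pos_left h1 hL0
    rw [hLx] at this
    linarith
  · intro h0
    have h1 : (1 : ℝ) ≤ m := by exact_mod_cast h0
    have h2 : x ≤ 2 * m := by linarith
    have := mul_le_mul_of_nonneg_left h2 hL0.le
    rw [hLx] at this
    linarith

/-- the regime `n ≤ N ≤ κ n`: cotype 2. -/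
theorem small_regime (κ : ℝ) (hκ : 1 ≤ κ) : ∃ K : ℝ, 1 ≤ K ∧ ∀ (N n : ℕ), 0 < n → n ≤ N →
    (N : ℝ) ≤ κ * n → mu N n {g | ¬ Good2 g K} ≤ ENNReal.ofReal (2 * Real.exp (-n)) := by
  obtain ⟨c2, hc2, C2, hC2, hcommon⟩ := common
  have hκ0 : 0 < κ := by linarith
  set θ : ℝ := min 1 (c2 / (C2 * κ)) with hθ
  have hθ0 : 0 < θ := lt_min (by norm_num) (by positivity)
  have hθ1 : θ ≤ 1 := min_le_left _ _
  refine ⟨4 * (4 / θ + 1) ^ 2, ?_, ?_⟩
  · have : 0 ≤ 4 / θ := by positivity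
    nlinarith
  intro N n hn hnN hNκ
  have hn' : (0 : ℝ) < n := by exact_mod_cast hn
  have hN0 : 0 < N := lt_of_lt_of_le hn hnN
  have hN' : (0 : ℝ) < N := by exact_mod_cast hN0
  have hL1 := LL_one_le hn hnN
  have hLκ : LL N n ≤ κ := by
    unfold LL
    have h1 : Real.log ((N : ℝ) / n) ≤ (N : ℝ) / n - 1 := Real.log_le_sub_one_of_pos (by positivity)
    have h2 : (N : ℝ) / n ≤ κ := by rw [div_le_iff₀ hn']; exact hNκ
    linarith
  have hsub : {g : Fin N → Fin n → ℝ | ¬ Good2 g (4 * (4 / θ + 1) ^ 2)}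
      ⊆ {g | ¬ (Ev1 g (LL N n) ∧
          ∀ b, c2 * (√n * l2 b) ≤ l2 (Gm g b) + C2 * (√(LL N n) * l1 b))} ∪ {g | ¬ Surj g} := by
    intro g hg
    simp only [Set.mem_ofPred_eq, Set.mem_union] at hg ⊢
    by_contra hc
    push Not at hc
    obtain ⟨⟨h1, h2⟩, hs⟩ := hc
    apply hg
    refine ⟨hs, fun m y => ?_⟩
    refine det_small hs hN0 hθ0 hθ1 ?_ y
    intro v hv
    have h3 := h2 v
    rw [hv, map_zero, zero_add] at h3
    have h4 : √(N : ℝ) ≤ √κ * √n := by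
      rw [← Real.sqrt_mul hκ0.le]
      exact Real.sqrt_le_sqrt hNκ
    have h5 : √(LL N n) ≤ √κ := Real.sqrt_le_sqrt hLκ
    have h6 : θ * (C2 * κ) ≤ c2 := by
      have : θ ≤ c2 / (C2 * κ) := min_le_right _ _
      rwa [le_div_iff₀ (by positivity)] at this
    have hl2 := l2_nonneg v
    have hl1 := l1_nonneg v
    have hκs : √κ * √κ = κ := Real.mul_self_sqrt hκ0.le
    have hC2κ : 0 < C2 * √κ := by positivity
    -- C2 √κ θ √N |v| ≤ C2 √κ l1 v
    refine le_of_mul_le_mul_left ?_ hC2κ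
    calc C2 * √κ * (θ * (√N * l2 v)) ≤ C2 * √κ * (θ * ((√κ * √n) * l2 v)) := by gcongr
      _ = (θ * (C2 * (√κ * √κ))) * (√n * l2 v) := by ring
      _ = (θ * (C2 * κ)) * (√n * l2 v) := by rw [hκs]
      _ ≤ c2 * (√n * l2 v) := by gcongr
      _ ≤ C2 * (√(LL N n) * l1 v) := h3
      _ ≤ C2 * (√κ * l1 v) := by gcongr
      _ = _ := by ring
  refine (measure_mono hsub).trans ((measure_union_le _ _).trans ?_)
  rw [surj_ae hnN, add_zero]
  exact hcommon N n hn hnN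

/-- the regime of large `N`. -/
theorem large_regime : ∃ K : ℝ, 1 ≤ K ∧ ∀ (N n : ℕ), 0 < n → n ≤ N →
    (62208 : ℝ) * n ≤ N → mu N n {g | ¬ Good g 8 K} ≤ ENNReal.ofReal (4 * Real.exp (-n)) := by
  obtain ⟨c2, hc2, C2, hC2, hcommon⟩ := common
  set c : ℝ := 1 / 2048 with hc
  have hc0 : 0 < c := by norm_num
  have hsc : 0 < √c := Real.sqrt_pos.2 hc0
  set θ : ℝ := min 1 (min c2 (c2 / (C2 * √c))) with hθ
  have hθ0 : 0 < θ := lt_min (by norm_num) (lt_min hc2 (by positivity))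
  have hθ1 : θ ≤ 1 := min_le_left _ _
  have hθ2 : θ ≤ c2 := (min_le_right _ _).trans (min_le_left _ _)
  have hθ3 : θ * (C2 * √c) ≤ c2 := by
    have : θ ≤ c2 / (C2 * √c) := (min_le_right _ _).trans (min_le_right _ _)
    rwa [le_div_iff₀ (by positivity)] at this
  set C4 : ℝ := 4 / √c with hC4
  have hsc1 : √c ≤ 1 := by
    rw [Real.sqrt_le_left (by norm_num)]
    norm_num [hc]
  have hC41 : 1 ≤ C4 := by
    rw [hC4, le_div_iff₀ hsc]; linarith
  have hC43 : 4 ≤ C4 * √c := by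
    rw [hC4]; field_simp; exact le_rfl
  refine ⟨2 * (4 ^ 8) ^ 2 * (C4 * (4 / θ + 1)) ^ (4 * 8), ?_, ?_⟩
  · have h1 : 1 ≤ C4 * (4 / θ + 1) := by
      have : 0 ≤ 4 / θ := by positivity
      nlinarith
    have h2 : 1 ≤ (C4 * (4 / θ + 1)) ^ (4 * 8) := one_le_pow₀ h1
    nlinarith
  intro N n hn hnN hN
  have hn' : (0 : ℝ) < n := by exact_mod_cast hn
  have hN0 : 0 < N := lt_of_lt_of_le hn hnN
  have hN' : (0 : ℝ) < N := by exact_mod_cast hN0
  set L := LL N n with hL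
  have hL1 : 1 ≤ L := LL_one_le hn hnN
  have hL0 : 0 < L := by linarith
  have hNL2 : 16 * 9 * (n : ℝ) ≤ N * Real.exp (-L / 2) := by
    have h1 : (N * Real.exp (-L / 2)) ^ 2 = N * (N * Real.exp (-L)) := by
      rw [mul_pow, ← Real.exp_nat_mul]
      have : ((2 : ℕ) : ℝ) * (-L / 2) = -L := by push_cast; ring
      rw [this]; ring
    rw [exp_neg_LL hn hnN] at h1
    have h2 : (16 * 9 * (n : ℝ)) ^ 2 ≤ (N * Real.exp (-L / 2)) ^ 2 := by
      rw [h1]
      have h3 : (n : ℝ) / 3 ≤ n / Real.exp 1 := by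
        have := Real.exp_one_lt_d9
        exact div_le_div_of_nonneg_left hn'.le (Real.exp_pos _) (by linarith)
      calc (16 * 9 * (n : ℝ)) ^ 2 = (62208 * n) * (n / 3) := by ring
        _ ≤ N * (n / Real.exp 1) := mul_le_mul hN h3 (by positivity) (by positivity)
    exact (pow_le_pow_iff_left₀ (by positivity) (by positivity) (by norm_num)).1 h2
  have hbad3 := bad3 (N := N) (n := n) hL1 hn (exp_neg_LL_le hn hnN) hNL2
  have hsub : {g : Fin N → Fin n → ℝ | ¬ Good g 8 (2 * (4 ^ 8) ^ 2 * (C4 * (4 / θ + 1)) ^ (4 * 8))}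
      ⊆ {g | ¬ (Ev1 g (LL N n) ∧
          ∀ b, c2 * (√n * l2 b) ≤ l2 (Gm g b) + C2 * (√(LL N n) * l1 b))}
        ∪ {g | ¬ (Ev1 g L ∧ Ev3 g L)} := by
    intro g hg
    simp only [Set.mem_ofPred_eq, Set.mem_union] at hg ⊢
    by_contra hc
    push Not at hc
    obtain ⟨⟨h1, h2⟩, -, h3⟩ := hc
    apply hg
    have hs : Surj g := by
      intro y
      obtain ⟨t, ht, -⟩ := ev3_repr g hL0 h3 y
      exact ⟨t, ht⟩
    refine ⟨hs, fun m y => ?_⟩
    refine det_large hs hn (L := L) (c := c) (C1 := 8) (c2 := c2) (C2 := C2) (C3 := 4) (θ := θ)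
      (C4 := C4) (γ := 8) (by norm_num) hL0 hc0 (by norm_num) hc2 hC41 h1 h2 ?_ ?_ ?_ hθ0 hθ1 hθ2
      hθ3 hC43 y
    · intro y
      obtain ⟨t, ht, ht2⟩ := ev3_repr g hL0 h3 y
      refine le_trans ?_ ht2
      have := xn_le g t
      rw [ht] at this
      exact mul_le_mul_of_nonneg_left this (Real.sqrt_nonneg _)
    · norm_num [hc]
    · norm_num
  refine (measure_mono hsub).trans ((measure_union_le _ _).trans ?_)
  refine (add_le_add (hcommon N n hn hnN) hbad3).trans (le_of_eq ?_)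
  rw [← ENNReal.ofReal_add (by positivity) (by positivity)]
  congr 1
  ring

lemma Good.mono {N n : ℕ} {g : Fin N → Fin n → ℝ} {γ : ℕ} {K K' : ℝ} (h : Good g γ K)
    (hK : K ≤ K') : Good g γ K' := by
  obtain ⟨hg, h⟩ := h
  refine ⟨hg, fun m y => (h m y).trans ?_⟩
  have := ms_nonneg (xs hg) y
  gcongr

/-- all regimes. -/
theorem main_bad : ∃ K : ℝ, 1 ≤ K ∧ ∀ (N n : ℕ), 0 < n → n ≤ N →
    mu N n {g | ¬ Good g 8 K} ≤ ENNReal.ofReal (4 * Real.exp (-n)) := by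
  obtain ⟨K1, hK1, h1⟩ := small_regime 62208 (by norm_num)
  obtain ⟨K2, hK2, h2⟩ := large_regime
  refine ⟨max (K1 ^ (2 * 8)) K2, le_max_of_le_right hK2, fun N n hn hnN => ?_⟩
  rcases le_total (N : ℝ) (62208 * n) with h | h
  · refine le_trans (measure_mono ?_) ((h1 N n hn hnN h).trans (ENNReal.ofReal_le_ofReal ?_))
    · intro g hg
      simp only [Set.mem_ofPred_eq] at hg ⊢
      intro hgood
      exact hg ((hgood.good (by linarith) (by norm_num)).mono (le_max_left _ _))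
    · have := Real.exp_pos (-(n : ℝ))
      linarith
  · refine le_trans (measure_mono ?_) (h2 N n hn hnN h)
    intro g hg
    simp only [Set.mem_ofPred_eq] at hg ⊢
    intro hgood
    exact hg (hgood.mono (le_max_right _ _))

end H459R3
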