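import Pool.Agent.H459R3.Lift

/-! Nets of the Euclidean sphere. -/

set_option autoImplicit false
set_option linter.unusedSectionVars false

open Finset MeasureTheory Metric Module Set
open scoped ENNReal

namespace H459R3

section
variable {E : Type*} [NormedAddCommGroup E] [InnerProductSpace ℝ E] [FiniteDimensional ℝ E]

theorem card_le_of_sep (s : Finset E) {δ : ℝ} (hδ : 0 < δ) (hs : ∀ c ∈ s, ‖c‖ ≤ 1)
    (h : ∀ c ∈ s, ∀ d ∈ s, c ≠ d → δ ≤ ‖c - d‖) :
    (s.card : ℝ) ≤ (1 + 2 / δ) ^ finrank ℝ E := by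
  borelize E
  let μ : Measure E := Measure.addHaar
  set ρ : ℝ := 1 + δ / 2 with hρ
  have δpos : 0 < δ / 2 := by positivity
  have ρpos : 0 < ρ := by positivity
  set A := ⋃ c ∈ s, ball (c : E) (δ / 2) with hA
  have D : Set.Pairwise (s : Set E) (Function.onFun Disjoint fun c => ball (c : E) (δ / 2)) := by
    rintro c hc d hd hcd
    apply ball_disjoint_ball
    rw [dist_eq_norm]
    have := h c hc d hd hcd
    linarith
  have A_subset : A ⊆ ball (0 : E) ρ := by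
    refine iUnion₂_subset fun x hx => ?_
    apply ball_subset_ball'
    rw [dist_zero_right, hρ]
    have := hs x hx
    linarith
  have I : (s.card : ℝ≥0∞) * ENNReal.ofReal ((δ / 2) ^ finrank ℝ E) * μ (ball 0 1) ≤
      ENNReal.ofReal (ρ ^ finrank ℝ E) * μ (ball 0 1) :=
    calc
      (s.card : ℝ≥0∞) * ENNReal.ofReal ((δ / 2) ^ finrank ℝ E) * μ (ball 0 1) = μ A := by
        rw [hA, measure_biUnion_finset D fun c _ => measurableSet_ball]
        simp only [μ.addHaar_ball_of_pos _ δpos]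
        simp only [Finset.sum_const, nsmul_eq_mul, mul_assoc]
      _ ≤ μ (ball (0 : E) ρ) := measure_mono A_subset
      _ = ENNReal.ofReal (ρ ^ finrank ℝ E) * μ (ball 0 1) := by
        simp only [μ.addHaar_ball_of_pos _ ρpos]
  have J : (s.card : ℝ≥0∞) * ENNReal.ofReal ((δ / 2) ^ finrank ℝ E)
      ≤ ENNReal.ofReal (ρ ^ finrank ℝ E) :=
    (ENNReal.mul_le_mul_iff_left (measure_ball_pos _ _ zero_lt_one).ne' measure_ball_lt_top.ne).1 I
  have K : (s.card : ℝ) * (δ / 2) ^ finrank ℝ E ≤ ρ ^ finrank ℝ E := by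
    have h1 := ENNReal.toReal_le_of_le_ofReal (pow_nonneg ρpos.le _) J
    rw [ENNReal.toReal_mul, ENNReal.toReal_ofReal (by positivity)] at h1
    simpa using h1
  have e : (1 + 2 / δ) = ρ / (δ / 2) := by
    rw [hρ]; field_simp; ring
  rw [e, div_pow, le_div_iff₀ (by positivity)]
  exact K

/-- existence of a net of the unit sphere. -/
theorem exists_net {δ : ℝ} (hδ : 0 < δ) :
    ∃ T : Finset E, (∀ t ∈ T, ‖t‖ = 1) ∧ (T.card : ℝ) ≤ (1 + 2 / δ) ^ finrank ℝ E ∧
      ∀ x : E, ‖x‖ = 1 → ∃ t ∈ T, ‖x - t‖ ≤ δ := by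
  classical
  set P : Finset E → Prop := fun T => (∀ t ∈ T, ‖t‖ = 1) ∧ ∀ c ∈ T, ∀ d ∈ T, c ≠ d → δ ≤ ‖c - d‖
    with hP
  have hb : ∀ T, P T → (T.card : ℝ) ≤ (1 + 2 / δ) ^ finrank ℝ E := fun T hT =>
    card_le_of_sep T hδ (fun c hc => (hT.1 c hc).le) hT.2
  set B : ℕ := ⌊(1 + 2 / δ) ^ finrank ℝ E⌋₊ with hB
  have hb' : ∀ T, P T → T.card ≤ B := fun T hT => Nat.le_floor (hb T hT)
  have hex : ∃ m, ∃ T, P T ∧ T.card = m := ⟨0, ∅, ⟨by simp, by simp⟩, rfl⟩
  obtain ⟨T, hT, hTc⟩ : ∃ T, P T ∧ T.card = Nat.findGreatest (fun m => ∃ T, P T ∧ T.card = m) B := by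
    obtain ⟨m, T0, hT0, hm⟩ := hex
    exact Nat.findGreatest_spec (P := fun m => ∃ T, P T ∧ T.card = m) (hb' T0 hT0)
      ⟨T0, hT0, rfl⟩
  refine ⟨T, hT.1, hb T hT, fun x hx => ?_⟩
  by_contra hc
  push Not at hc
  have hxT : x ∉ T := by
    intro hxT
    have := hc x hxT
    rw [sub_self, norm_zero] at this
    linarith
  have hP' : P (insert x T) := by
    refine ⟨fun t ht => ?_, fun c hc' d hd hcd => ?_⟩
    · rcases Finset.mem_insert.1 ht with rfl | ht
      · exact hx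
      · exact hT.1 t ht
    · rcases Finset.mem_insert.1 hc' with hcx | hc2
      · rcases Finset.mem_insert.1 hd with hdx | hd2
        · exact absurd (hcx.trans hdx.symm) hcd
        · rw [hcx]
          exact (hc d hd2).le
      · rcases Finset.mem_insert.1 hd with hdx | hd2
        · rw [hdx, norm_sub_rev]
          exact (hc c hc2).le
        · exact hT.2 c hc2 d hd2 hcd
  have h1 : (insert x T).card ≤ Nat.findGreatest (fun m => ∃ T, P T ∧ T.card = m) B :=
    Nat.le_findGreatest (hb' _ hP') ⟨_, hP', rfl⟩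
  rw [Finset.card_insert_of_notMem hxT, ← hTc] at h1
  omega

end

section
variable {κ : Type} [Fintype κ] [DecidableEq κ]

lemma norm_toLp (x : κ → ℝ) : ‖(WithLp.toLp 2 x : EuclideanSpace ℝ κ)‖ = l2 x := rfl

/-- net of the sphere of `κ → ℝ`. -/
theorem exists_net_pi (κ : Type) [Fintype κ] {δ : ℝ} (hδ : 0 < δ) :
    ∃ T : Finset (κ → ℝ), (∀ t ∈ T, l2 t = 1) ∧
      (T.card : ℝ) ≤ (1 + 2 / δ) ^ Fintype.card κ ∧
      ∀ x : κ → ℝ, l2 x = 1 → ∃ t ∈ T, l2 (x - t) ≤ δ := by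
  classical
  obtain ⟨T, h1, h2, h3⟩ := exists_net (E := EuclideanSpace ℝ κ) hδ
  refine ⟨T.image (fun t => (WithLp.ofLp t : κ → ℝ)), ?_, ?_, ?_⟩
  · intro t ht
    obtain ⟨s, hs, rfl⟩ := Finset.mem_image.1 ht
    exact h1 s hs
  · rw [finrank_euclideanSpace] at h2
    refine le_trans ?_ h2
    exact_mod_cast Finset.card_image_le
  · intro x hx
    obtain ⟨t, ht, htx⟩ := h3 (WithLp.toLp 2 x) hx
    exact ⟨_, Finset.mem_image_of_mem _ ht, htx⟩

end

end H459R3
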