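import Pool.Agent.H459R3.Gauss

/-! One-point estimates. -/

set_option autoImplicit false
set_option linter.unusedSectionVars false

open MeasureTheory ProbabilityTheory Set
open scoped ENNReal NNReal

namespace H459R3

/-- product integral over the rows of a function of `⟨g_i, y⟩`. -/
lemma lint_rows {N n : ℕ} {y : Fin n → ℝ} (hy : l2 y = 1) {f : ℝ → ℝ≥0∞} (hf : Measurable f) :
    ∫⁻ g, ∏ i, f (∑ l, g i l * y l) ∂(mu N n) = (∫⁻ z, f z ∂(gaussianReal 0 1)) ^ N := by
  have hm : Measurable fun x : Fin n → ℝ => ∑ l, x l * y l := by fun_prop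
  have h1 := lint_pi_pow (gn n) N (f := fun x => f (∑ l, x l * y l)) (hf.comp hm)
  unfold mu
  rw [h1, ← law_inner hy, lintegral_map hf hm]

lemma point1 {N n : ℕ} {L : ℝ} (hL : 0 ≤ L) (hNL : N * Real.exp (-L) ≤ n / 2)
    {y : Fin n → ℝ} (hy : l2 y = 1) :
    mu N n {g | 16 * (n : ℝ) ≤ ∑ i, (max (|∑ l, g i l * y l| - 2 * √L) 0) ^ 2}
      ≤ ENNReal.ofReal (Real.exp (-3 * n)) := by
  set φ : ℝ → ℝ≥0∞ := fun x => ENNReal.ofReal (Real.exp ((max (|x| - 2 * √L) 0) ^ 2 / 4)) with hφ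
  have hφm : Measurable φ := by
    simp only [hφ]
    fun_prop
  have hint : ∫⁻ z, φ z ∂(gaussianReal 0 1) ≤ ENNReal.ofReal (Real.exp (√2 * Real.exp (-L))) := by
    have hpt : ∀ z, φ z ≤ 1 + ENNReal.ofReal (Real.exp (-L)) * ENNReal.ofReal (Real.exp (1 / 4 * z ^ 2)) := by
      intro z
      rw [← ENNReal.ofReal_mul (Real.exp_pos _).le, ← Real.exp_add, ← ENNReal.ofReal_one,
        ← ENNReal.ofReal_add (by norm_num) (Real.exp_pos _).le]
      refine ENNReal.ofReal_le_ofReal ?_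
      rcases le_or_gt (|z| - 2 * √L) 0 with h | h
      · rw [max_eq_right h]
        have := Real.exp_pos (-L + 1 / 4 * z ^ 2)
        simp only [ne_eq, OfNat.ofNat_ne_zero, not_false_eq_true, zero_pow, zero_div, Real.exp_zero]
        linarith
      · rw [max_eq_left h.le]
        have h2 : Real.exp ((|z| - 2 * √L) ^ 2 / 4) ≤ Real.exp (-L + 1 / 4 * z ^ 2) := by
          apply Real.exp_le_exp.2
          have h3 : √L ^ 2 = L := Real.sq_sqrt hL
          have h4 : z ^ 2 = |z| ^ 2 := (sq_abs z).symm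
          have h5 := Real.sqrt_nonneg L
          rw [h4]
          nlinarith
        linarith
    refine (lintegral_mono hpt).trans ?_
    rw [lintegral_add_left measurable_const, lintegral_const, measure_univ, mul_one,
      lintegral_const_mul _ (by fun_prop), gauss_exp_sq (by norm_num),
      ← ENNReal.ofReal_mul (Real.exp_pos _).le, ← ENNReal.ofReal_one,
      ← ENNReal.ofReal_add (by norm_num) (by positivity)]
    refine ENNReal.ofReal_le_ofReal ?_
    have e : (√(1 - 2 * (1 / 4)))⁻¹ = √2 := by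
      rw [← Real.sqrt_inv]
      norm_num
    rw [e]
    have := Real.add_one_le_exp (√2 * Real.exp (-L))
    linarith
  have hF : ∫⁻ g, ∏ i, φ (∑ l, g i l * y l) ∂(mu N n) ≤ ENNReal.ofReal (Real.exp n) := by
    rw [lint_rows hy hφm]
    refine (pow_le_pow_left' hint N).trans ?_
    rw [← ENNReal.ofReal_pow (Real.exp_pos _).le, ← Real.exp_nat_mul]
    refine ENNReal.ofReal_le_ofReal (Real.exp_le_exp.2 ?_)
    have h2 : √2 ≤ 2 := by
      rw [Real.sqrt_le_left (by norm_num)]; norm_num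
    have h3 : (N : ℝ) * (√2 * Real.exp (-L)) = √2 * (N * Real.exp (-L)) := by ring
    rw [h3]
    have h4 : 0 ≤ N * Real.exp (-L) := by positivity
    nlinarith
  have hmarkov := mul_meas_ge_le_lintegral₀ (μ := mu N n)
    (f := fun g => ∏ i, φ (∑ l, g i l * y l))
    (by
      refine Measurable.aemeasurable ?_
      refine Finset.measurable_prod _ fun i _ => hφm.comp ?_
      fun_prop) (ENNReal.ofReal (Real.exp (4 * n)))
  have hsub : {g : Fin N → Fin n → ℝ | 16 * (n : ℝ) ≤ ∑ i, (max (|∑ l, g i l * y l| - 2 * √L) 0) ^ 2}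
      ⊆ {g | ENNReal.ofReal (Real.exp (4 * n)) ≤ ∏ i, φ (∑ l, g i l * y l)} := by
    intro g hg
    simp only [Set.mem_ofPred_eq] at hg ⊢
    simp only [hφ]
    rw [← ENNReal.ofReal_prod_of_nonneg (fun i _ => (Real.exp_pos _).le), ← Real.exp_sum]
    refine ENNReal.ofReal_le_ofReal (Real.exp_le_exp.2 ?_)
    rw [← Finset.sum_div]
    linarith
  have h1 : ENNReal.ofReal (Real.exp (4 * n)) * mu N n
      {g | 16 * (n : ℝ) ≤ ∑ i, (max (|∑ l, g i l * y l| - 2 * √L) 0) ^ 2}
      ≤ ENNReal.ofReal (Real.exp n) :=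
    (mul_le_mul_right (measure_mono hsub) _).trans (hmarkov.trans hF)
  have h2 : ENNReal.ofReal (Real.exp (-(4 * n))) * (ENNReal.ofReal (Real.exp (4 * n)) * mu N n
      {g | 16 * (n : ℝ) ≤ ∑ i, (max (|∑ l, g i l * y l| - 2 * √L) 0) ^ 2})
      ≤ ENNReal.ofReal (Real.exp (-(4 * n))) * ENNReal.ofReal (Real.exp n) :=
    mul_le_mul_right h1 _
  rw [← mul_assoc, ← ENNReal.ofReal_mul (Real.exp_pos _).le, ← ENNReal.ofReal_mul (Real.exp_pos _).le,
    ← Real.exp_add, ← Real.exp_add, neg_add_cancel, Real.exp_zero, ENNReal.ofReal_one, one_mul] at h2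
  refine h2.trans (ENNReal.ofReal_le_ofReal (Real.exp_le_exp.2 ?_))
  linarith

end H459R3
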