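import Pool.Agent.H459R3.Point

/-! One-point estimates, continued. -/

set_option autoImplicit false
set_option linter.unusedSectionVars false

open MeasureTheory ProbabilityTheory Set
open scoped ENNReal NNReal

namespace H459R3

/-- small ball probability. -/
lemma point2 (B : ℝ) : ∃ c0 : ℝ, 0 < c0 ∧ ∀ (N n : ℕ) (x : Fin N → ℝ), l2 x = 1 →
    mu N n {g | ∑ l, (∑ j, x j • g j) l ^ 2 ≤ c0 * n} ≤ ENNReal.ofReal (Real.exp (-B * n)) := by
  set lam : ℝ := Real.exp (2 * (B + 1)) / 2 with hlam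
  have hlam0 : 0 < lam := by positivity
  refine ⟨1 / lam, by positivity, fun N n x hx => ?_⟩
  set F : (Fin n → ℝ) → ℝ≥0∞ := fun z => ∏ l, ENNReal.ofReal (Real.exp (-lam * z l ^ 2)) with hF
  have hFm : Measurable F := by
    simp only [hF]
    fun_prop
  have hsum : Measurable fun g : Fin N → Fin n → ℝ => ∑ j, x j • g j := by fun_prop
  have hint : ∫⁻ g, F (∑ j, x j • g j) ∂(mu N n) ≤ ENNReal.ofReal (Real.exp (-(B + 1) * n)) := by
    rw [← lintegral_map hFm hsum, law_Gx hx]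
    simp only [hF]
    unfold gn
    rw [lint_pi_pow (gaussianReal 0 1) n (f := fun z => ENNReal.ofReal (Real.exp (-lam * z ^ 2)))
      (by fun_prop), gauss_exp_sq (by linarith), ← ENNReal.ofReal_pow (by positivity)]
    refine ENNReal.ofReal_le_ofReal ?_
    have h1 : (√(1 - 2 * -lam))⁻¹ ≤ Real.exp (-(B + 1)) := by
      rw [Real.exp_neg]
      refine inv_anti₀ (Real.exp_pos _) ?_
      refine Real.le_sqrt_of_sq_le ?_
      rw [← Real.exp_nat_mul]
      push_cast
      rw [hlam]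
      linarith
    have h2 := pow_le_pow_left₀ (by positivity) h1 n
    refine h2.trans (le_of_eq ?_)
    rw [← Real.exp_nat_mul]
    congr 1
    ring
  have hmarkov := mul_meas_ge_le_lintegral₀ (μ := mu N n)
    (f := fun g => F (∑ j, x j • g j)) (hFm.comp hsum).aemeasurable
    (ENNReal.ofReal (Real.exp (-n)))
  have hsub : {g : Fin N → Fin n → ℝ | ∑ l, (∑ j, x j • g j) l ^ 2 ≤ 1 / lam * n}
      ⊆ {g | ENNReal.ofReal (Real.exp (-n)) ≤ F (∑ j, x j • g j)} := by
    intro g hg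
    simp only [Set.mem_ofPred_eq] at hg ⊢
    simp only [hF]
    rw [← ENNReal.ofReal_prod_of_nonneg (fun i _ => (Real.exp_pos _).le), ← Real.exp_sum]
    refine ENNReal.ofReal_le_ofReal (Real.exp_le_exp.2 ?_)
    rw [← Finset.mul_sum]
    have := mul_le_mul_of_nonneg_left hg hlam0.le
    have e : lam * (1 / lam * n) = n := by field_simp
    rw [e] at this
    linarith
  have h1 : ENNReal.ofReal (Real.exp (-n)) * mu N n
      {g | ∑ l, (∑ j, x j • g j) l ^ 2 ≤ 1 / lam * n}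
      ≤ ENNReal.ofReal (Real.exp (-(B + 1) * n)) :=
    (mul_le_mul_right (measure_mono hsub) _).trans (hmarkov.trans hint)
  have h2 : ENNReal.ofReal (Real.exp n) * (ENNReal.ofReal (Real.exp (-n)) * mu N n
      {g | ∑ l, (∑ j, x j • g j) l ^ 2 ≤ 1 / lam * n})
      ≤ ENNReal.ofReal (Real.exp n) * ENNReal.ofReal (Real.exp (-(B + 1) * n)) :=
    mul_le_mul_right h1 _
  rw [← mul_assoc, ← ENNReal.ofReal_mul (Real.exp_pos _).le, ← ENNReal.ofReal_mul (Real.exp_pos _).le,
    ← Real.exp_add, ← Real.exp_add, add_neg_cancel, Real.exp_zero, ENNReal.ofReal_one, one_mul] at h2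
  refine h2.trans (ENNReal.ofReal_le_ofReal (Real.exp_le_exp.2 ?_))
  linarith

/-- lower bound for the Gaussian tail. -/
lemma tail_lower {x0 : ℝ} (hx0 : 0 ≤ x0) :
    ENNReal.ofReal (1 / 8 * Real.exp (-x0 ^ 2)) ≤ gaussianReal 0 1 {z | x0 ≤ |z|} := by
  have hsub : Icc x0 (x0 + 1) ⊆ {z : ℝ | x0 ≤ |z|} := by
    intro z hz
    exact hz.1.trans (le_abs_self z)
  refine le_trans ?_ (measure_mono hsub)
  rw [gaussianReal_apply 0 one_ne_zero]
  have hlow : ∀ z ∈ Icc x0 (x0 + 1), ENNReal.ofReal (1 / 8 * Real.exp (-x0 ^ 2)) ≤ gaussianPDF 0 1 z := by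
    intro z hz
    rw [gaussianPDF]
    refine ENNReal.ofReal_le_ofReal ?_
    rw [gaussianPDFReal]
    simp only [NNReal.coe_one, mul_one, sub_zero]
    have hz0 : 0 ≤ z := hx0.trans hz.1
    have h1 : -x0 ^ 2 - 1 ≤ -z ^ 2 / 2 := by
      have : z ^ 2 ≤ (x0 + 1) ^ 2 := pow_le_pow_left₀ hz0 hz.2 2
      nlinarith [sq_nonneg (x0 - 1)]
    have h2 := Real.exp_le_exp.2 h1
    have h3 : Real.exp (-x0 ^ 2 - 1) = Real.exp (-x0 ^ 2) * (Real.exp 1)⁻¹ := by
      rw [sub_eq_add_neg, Real.exp_add, Real.exp_neg 1]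
    rw [h3] at h2
    have h4 : Real.exp 1 < 2.7182818286 := Real.exp_one_lt_d9
    have h5 : (1 : ℝ) / 2.72 ≤ (Real.exp 1)⁻¹ := by
      rw [one_div]
      exact inv_anti₀ (Real.exp_pos _) (by linarith)
    have h6 : √(2 * Real.pi) ≤ 2.53 := by
      rw [Real.sqrt_le_left (by norm_num)]
      have := Real.pi_lt_d2
      linarith
    have h7 : (1 : ℝ) / 2.53 ≤ (√(2 * Real.pi))⁻¹ := by
      rw [one_div]
      exact inv_anti₀ (Real.sqrt_pos.2 (by positivity)) h6
    have h8 : (1 : ℝ) / 8 ≤ (√(2 * Real.pi))⁻¹ * (Real.exp 1)⁻¹ := by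
      have : (1 : ℝ) / 2.53 * (1 / 2.72) ≤ (√(2 * Real.pi))⁻¹ * (Real.exp 1)⁻¹ := by gcongr
      refine le_trans ?_ this
      norm_num
    calc 1 / 8 * Real.exp (-x0 ^ 2) ≤ ((√(2 * Real.pi))⁻¹ * (Real.exp 1)⁻¹) * Real.exp (-x0 ^ 2) := by
          gcongr
      _ = (√(2 * Real.pi))⁻¹ * (Real.exp (-x0 ^ 2) * (Real.exp 1)⁻¹) := by ring
      _ ≤ (√(2 * Real.pi))⁻¹ * Real.exp (-z ^ 2 / 2) := by gcongr
  calc ENNReal.ofReal (1 / 8 * Real.exp (-x0 ^ 2))
      = ∫⁻ z in Icc x0 (x0 + 1), ENNReal.ofReal (1 / 8 * Real.exp (-x0 ^ 2)) := by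
        rw [setLIntegral_const, Real.volume_Icc]
        simp
    _ ≤ ∫⁻ z in Icc x0 (x0 + 1), gaussianPDF 0 1 z := by
        refine setLIntegral_mono (measurable_gaussianPDF 0 1) hlow

/-- many rows have a large inner product. -/
lemma point3 {N n : ℕ} {L : ℝ} (hL : 0 ≤ L) {θ : Fin n → ℝ} (hθ : l2 θ = 1) :
    mu N n {g | ((Finset.univ.filter fun i => √L / 2 ≤ |∑ l, g i l * θ l|).card : ℝ) < n}
      ≤ ENNReal.ofReal (Real.exp (n - 1 / 16 * (N * Real.exp (-L / 2)))) := by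
  set A : Set ℝ := {z | √L / 2 ≤ |z|} with hA
  have hAm : MeasurableSet A := measurableSet_le measurable_const (by fun_prop)
  set ψ : ℝ → ℝ≥0∞ := fun z => if √L / 2 ≤ |z| then ENNReal.ofReal (Real.exp (-1)) else 1 with hψ
  have hψm : Measurable ψ := Measurable.ite hAm measurable_const measurable_const
  have hp : ENNReal.ofReal (1 / 8 * Real.exp (-L / 2)) ≤ gaussianReal 0 1 A := by
    refine le_trans (ENNReal.ofReal_le_ofReal ?_) (tail_lower (x0 := √L / 2) (by positivity))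
    have h3 : √L ^ 2 = L := Real.sq_sqrt hL
    have : Real.exp (-L / 2) ≤ Real.exp (-(√L / 2) ^ 2) := by
      apply Real.exp_le_exp.2
      nlinarith
    linarith
  have hint : ∫⁻ z, ψ z ∂(gaussianReal 0 1)
      ≤ ENNReal.ofReal (Real.exp (-(1 / 16 * Real.exp (-L / 2)))) := by
    have h1 : ψ = fun z => A.indicator (fun _ => ENNReal.ofReal (Real.exp (-1))) z
        + Aᶜ.indicator (fun _ => (1 : ℝ≥0∞)) z := by
      funext z
      by_cases hz : √L / 2 ≤ |z|
      · have hzA : z ∈ A := hz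
        simp [hψ, hz, hzA]
      · have hzA : z ∉ A := hz
        simp [hψ, hz, hzA]
    rw [h1, lintegral_add_left (measurable_const.indicator hAm), lintegral_indicator_const hAm,
      lintegral_indicator_const hAm.compl, one_mul, prob_compl_eq_one_sub hAm]
    set q := gaussianReal 0 1 A with hq
    have hq1 : q ≤ 1 := prob_le_one
    have hqt : q ≠ ∞ := (hq1.trans_lt ENNReal.one_lt_top).ne
    have hqr : q = ENNReal.ofReal q.toReal := (ENNReal.ofReal_toReal hqt).symm
    have hq1r : q.toReal ≤ 1 := by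
      have := ENNReal.toReal_mono ENNReal.one_ne_top hq1
      simpa using this
    have hq0r : 0 ≤ q.toReal := ENNReal.toReal_nonneg
    have hplr : 1 / 8 * Real.exp (-L / 2) ≤ q.toReal := by
      have := ENNReal.toReal_mono hqt hp
      rwa [ENNReal.toReal_ofReal (by positivity)] at this
    rw [hqr, ← ENNReal.ofReal_one, ← ENNReal.ofReal_sub _ hq0r, ← ENNReal.ofReal_mul (Real.exp_pos _).le,
      ← ENNReal.ofReal_add (by positivity) (by linarith)]
    refine ENNReal.ofReal_le_ofReal ?_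
    have he : Real.exp (-1) ≤ 1 / 2 := by
      rw [Real.exp_neg, one_div]
      refine inv_anti₀ (by norm_num) ?_
      have := Real.exp_one_gt_d9
      linarith
    have h2 := Real.add_one_le_exp (-(1 / 16 * Real.exp (-L / 2)))
    nlinarith
  have hF : ∫⁻ g, ∏ i, ψ (∑ l, g i l * θ l) ∂(mu N n)
      ≤ ENNReal.ofReal (Real.exp (-(1 / 16 * (N * Real.exp (-L / 2))))) := by
    rw [lint_rows hθ hψm]
    refine (pow_le_pow_left' hint N).trans ?_
    rw [← ENNReal.ofReal_pow (Real.exp_pos _).le, ← Real.exp_nat_mul]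
    refine ENNReal.ofReal_le_ofReal (Real.exp_le_exp.2 ?_)
    linarith
  have hmarkov := mul_meas_ge_le_lintegral₀ (μ := mu N n)
    (f := fun g => ∏ i, ψ (∑ l, g i l * θ l))
    (by
      refine Measurable.aemeasurable ?_
      refine Finset.measurable_prod _ fun i _ => hψm.comp ?_
      fun_prop) (ENNReal.ofReal (Real.exp (-n)))
  have hsub : {g : Fin N → Fin n → ℝ |
        ((Finset.univ.filter fun i => √L / 2 ≤ |∑ l, g i l * θ l|).card : ℝ) < n}
      ⊆ {g | ENNReal.ofReal (Real.exp (-n)) ≤ ∏ i, ψ (∑ l, g i l * θ l)} := by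
    intro g hg
    simp only [Set.mem_ofPred_eq] at hg ⊢
    simp only [hψ]
    rw [Finset.prod_ite, Finset.prod_const, Finset.prod_const_one, mul_one,
      ← ENNReal.ofReal_pow (Real.exp_pos _).le, ← Real.exp_nat_mul]
    refine ENNReal.ofReal_le_ofReal (Real.exp_le_exp.2 ?_)
    linarith
  have h1 : ENNReal.ofReal (Real.exp (-n)) * mu N n
      {g | ((Finset.univ.filter fun i => √L / 2 ≤ |∑ l, g i l * θ l|).card : ℝ) < n}
      ≤ ENNReal.ofReal (Real.exp (-(1 / 16 * (N * Real.exp (-L / 2))))) :=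
    (mul_le_mul_right (measure_mono hsub) _).trans (hmarkov.trans hF)
  have h2 : ENNReal.ofReal (Real.exp n) * (ENNReal.ofReal (Real.exp (-n)) * mu N n
      {g | ((Finset.univ.filter fun i => √L / 2 ≤ |∑ l, g i l * θ l|).card : ℝ) < n})
      ≤ ENNReal.ofReal (Real.exp n) * ENNReal.ofReal (Real.exp (-(1 / 16 * (N * Real.exp (-L / 2))))) :=
    mul_le_mul_right h1 _
  rw [← mul_assoc, ← ENNReal.ofReal_mul (Real.exp_pos _).le, ← ENNReal.ofReal_mul (Real.exp_pos _).le,
    ← Real.exp_add, ← Real.exp_add, add_neg_cancel, Real.exp_zero, ENNReal.ofReal_one, one_mul] at h2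
  refine h2.trans (ENNReal.ofReal_le_ofReal (Real.exp_le_exp.2 ?_))
  linarith

end H459R3
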