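import Pool.Agent.H459R3.Cube

/-! Rademacher sums with values in a seminormed space. -/

set_option autoImplicit false
set_option linter.unusedSectionVars false

open Finset

namespace H459R3

section
variable {ι : Type*} [Fintype ι] [DecidableEq ι]
variable {V : Type*} [AddCommGroup V] [Module ℝ V]
variable {W : Type*} [AddCommGroup W] [Module ℝ W]

/-- Rademacher sum -/
noncomputable def rad (y : ι → V) (σ : ι → Bool) : V := ∑ i, sg (σ i) • y i

/-- vector average -/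
noncomputable def avgV (f : (ι → Bool) → V) : V := ((2 : ℝ) ^ Fintype.card ι)⁻¹ • ∑ σ, f σ

/-- degree one coefficients -/
noncomputable def coef (f : (ι → Bool) → V) (i : ι) : V := avgV (fun σ => sg (σ i) • f σ)

/-- noise operator -/
noncomputable def noise (ρ : ℝ) (f : (ι → Bool) → V) (σ : ι → Bool) : V := ∑ τ, kern ρ σ τ • f τ

lemma avgV_real (f : (ι → Bool) → ℝ) : avgV f = avg f := by
  unfold avgV avg
  rw [smul_eq_mul, div_eq_inv_mul]

lemma map_rad (T : V →ₗ[ℝ] W) (y : ι → V) (σ : ι → Bool) :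
    T (rad y σ) = rad (fun i => T (y i)) σ := by
  simp [rad, map_sum, map_smul]

lemma map_avgV (T : V →ₗ[ℝ] W) (f : (ι → Bool) → V) : T (avgV f) = avgV (fun σ => T (f σ)) := by
  simp [avgV, map_sum, map_smul]

lemma map_coef (T : V →ₗ[ℝ] W) (f : (ι → Bool) → V) (i : ι) :
    T (coef f i) = coef (fun σ => T (f σ)) i := by
  unfold coef
  rw [map_avgV]
  simp

lemma map_noise (T : V →ₗ[ℝ] W) (ρ : ℝ) (f : (ι → Bool) → V) (σ : ι → Bool) :
    T (noise ρ f σ) = noise ρ (fun σ => T (f σ)) σ := by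
  simp [noise, map_sum, map_smul]

lemma rad_add (y z : ι → V) (σ : ι → Bool) : rad (fun i => y i + z i) σ = rad y σ + rad z σ := by
  simp [rad, smul_add, Finset.sum_add_distrib]

lemma rad_sub (y z : ι → V) (σ : ι → Bool) : rad (fun i => y i - z i) σ = rad y σ - rad z σ := by
  simp [rad, smul_sub, Finset.sum_sub_distrib]

lemma avgV_add (f g : (ι → Bool) → V) : avgV (fun σ => f σ + g σ) = avgV f + avgV g := by
  simp [avgV, Finset.sum_add_distrib, smul_add]

lemma avgV_sub (f g : (ι → Bool) → V) : avgV (fun σ => f σ - g σ) = avgV f - avgV g := by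
  simp [avgV, Finset.sum_sub_distrib, smul_sub]

lemma coef_add (f g : (ι → Bool) → V) (i : ι) :
    coef (fun σ => f σ + g σ) i = coef f i + coef g i := by
  unfold coef
  rw [← avgV_add]
  simp [smul_add]

lemma coef_sub (f g : (ι → Bool) → V) (i : ι) :
    coef (fun σ => f σ - g σ) i = coef f i - coef g i := by
  unfold coef
  rw [← avgV_sub]
  simp [smul_sub]

lemma noise_sub (ρ : ℝ) (f g : (ι → Bool) → V) (σ : ι → Bool) :
    noise ρ (fun σ => f σ - g σ) σ = noise ρ f σ - noise ρ g σ := by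
  simp [noise, smul_sub, Finset.sum_sub_distrib]

lemma coef_rad (y : ι → V) (i : ι) : coef (rad y) i = y i := by
  unfold coef avgV rad
  have h : ∑ σ : ι → Bool, sg (σ i) • ∑ j, sg (σ j) • y j
      = ∑ j, (∑ σ : ι → Bool, sg (σ i) * sg (σ j)) • y j := by
    simp_rw [Finset.smul_sum, smul_smul]
    rw [Finset.sum_comm]
    simp_rw [Finset.sum_smul]
  rw [h, Finset.smul_sum]
  have h2 : ∀ j, ((2 : ℝ) ^ Fintype.card ι)⁻¹ • ((∑ σ : ι → Bool, sg (σ i) * sg (σ j)) • y j)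
      = if i = j then y j else 0 := by
    intro j
    have := avg_sg_mul_sg i j
    unfold avg at this
    rw [smul_smul, ← div_eq_inv_mul, this]
    split_ifs <;> simp
  simp_rw [h2]
  simp

lemma noise_rad (ρ : ℝ) (y : ι → V) (σ : ι → Bool) : noise ρ (rad y) σ = ρ • rad y σ := by
  unfold noise rad
  simp_rw [Finset.smul_sum, smul_smul]
  rw [Finset.sum_comm]
  refine Finset.sum_congr rfl fun i _ => ?_
  rw [← Finset.sum_smul, sum_kern_sg]

/-- `f - P₁ f` has no degree one part. -/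
lemma coef_sub_rad (f : (ι → Bool) → V) (i : ι) :
    coef (fun σ => f σ - rad (coef f) σ) i = 0 := by
  rw [coef_sub, coef_rad, sub_self]

/-! scalar facts -/

lemma coef_real (f : (ι → Bool) → ℝ) (i : ι) : coef f i = avg (fun σ => f σ * sg (σ i)) := by
  unfold coef
  rw [avgV_real]
  congr 1
  funext σ
  rw [smul_eq_mul, mul_comm]

lemma avg_mul_rad (f : (ι → Bool) → ℝ) (c : ι → ℝ) :
    avg (fun σ => f σ * rad c σ) = ∑ i, coef f i * c i := by
  have : (fun σ => f σ * rad c σ) = fun σ => ∑ i, c i * (f σ * sg (σ i)) := by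
    funext σ
    unfold rad
    rw [Finset.mul_sum]
    refine Finset.sum_congr rfl fun i _ => ?_
    rw [smul_eq_mul]; ring
  rw [this, avg_sum]
  refine Finset.sum_congr rfl fun i _ => ?_
  rw [avg_mul, coef_real, mul_comm]

lemma avg_rad_sq (c : ι → ℝ) : avg (fun σ => rad c σ ^ 2) = ∑ i, c i ^ 2 := by
  have := avg_mul_rad (rad c) c
  simp_rw [coef_rad] at this
  simp_rw [sq]
  exact this

/-- Pythagoras for the degree one projection. -/
lemma avg_sub_rad_sq (f : (ι → Bool) → ℝ) :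
    avg (fun σ => (f σ - rad (coef f) σ) ^ 2) = avg (fun σ => f σ ^ 2) - ∑ i, coef f i ^ 2 := by
  have e : (fun σ => (f σ - rad (coef f) σ) ^ 2)
      = fun σ => (f σ ^ 2 - 2 * (f σ * rad (coef f) σ)) + rad (coef f) σ ^ 2 := by
    funext σ; ring
  rw [e, avg_add, avg_sub, avg_mul, avg_mul_rad, avg_rad_sq]
  have : ∑ i, coef f i * coef f i = ∑ i, coef f i ^ 2 :=
    Finset.sum_congr rfl fun i _ => (sq _).symm
  rw [this]; ring

lemma bessel (f : (ι → Bool) → ℝ) : ∑ i, coef f i ^ 2 ≤ avg (fun σ => f σ ^ 2) := by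
  have h1 := avg_sub_rad_sq f
  have h2 := avg_nonneg (f := fun σ => (f σ - rad (coef f) σ) ^ 2) (fun σ => sq_nonneg _)
  linarith

lemma avg_sub_rad_le (f : (ι → Bool) → ℝ) :
    avg (fun σ => (f σ - rad (coef f) σ) ^ 2) ≤ avg (fun σ => f σ ^ 2) := by
  rw [avg_sub_rad_sq]
  have : 0 ≤ ∑ i, coef f i ^ 2 := Finset.sum_nonneg fun i _ => sq_nonneg _
  linarith

/-! seminorms -/

lemma seminorm_sum_le (p : Seminorm ℝ V) {κ : Type*} (s : Finset κ) (f : κ → V) :
    p (∑ k ∈ s, f k) ≤ ∑ k ∈ s, p (f k) := by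
  classical
  induction s using Finset.induction_on with
  | empty => simp
  | insert a s ha ih =>
    rw [Finset.sum_insert ha, Finset.sum_insert ha]
    exact (map_add_le_add p _ _).trans (by linarith)

lemma seminorm_avgV_le (p : Seminorm ℝ V) (f : (ι → Bool) → V) :
    p (avgV f) ≤ avg (fun σ => p (f σ)) := by
  unfold avgV avg
  rw [map_smul_eq_mul, div_eq_inv_mul, Real.norm_of_nonneg (by positivity)]
  gcongr
  exact seminorm_sum_le p _ _

lemma seminorm_coef_le (p : Seminorm ℝ V) (f : (ι → Bool) → V) (i : ι) :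
    p (coef f i) ≤ avg (fun σ => p (f σ)) := by
  refine (seminorm_avgV_le p _).trans (avg_mono fun σ => ?_)
  rw [map_smul_eq_mul, Real.norm_eq_abs, sg_abs, one_mul]

/-- the noise operator is a contraction of `L²(p)`. -/
lemma seminorm_noise_le (p : Seminorm ℝ V) {ρ : ℝ} (h0 : 0 ≤ ρ) (h1 : ρ ≤ 1)
    (f : (ι → Bool) → V) :
    avg (fun σ => p (noise ρ f σ) ^ 2) ≤ avg (fun σ => p (f σ) ^ 2) := by
  have h : ∀ σ, p (noise ρ f σ) ^ 2 ≤ ∑ τ, kern ρ σ τ * p (f τ) ^ 2 := by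
    intro σ
    have e1 : p (noise ρ f σ) ≤ ∑ τ, kern ρ σ τ * p (f τ) := by
      unfold noise
      refine (seminorm_sum_le p _ _).trans (le_of_eq ?_)
      refine Finset.sum_congr rfl fun τ _ => ?_
      rw [map_smul_eq_mul, Real.norm_of_nonneg (kern_nonneg h0 h1 σ τ)]
    have e2 : (∑ τ, kern ρ σ τ * p (f τ)) ^ 2
        ≤ (∑ τ, kern ρ σ τ) * ∑ τ, kern ρ σ τ * p (f τ) ^ 2 := by
      have := Finset.sum_sq_le_sum_mul_sum_of_sq_eq_mul (Finset.univ : Finset (ι → Bool))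
        (r := fun τ => kern ρ σ τ * p (f τ)) (f := fun τ => kern ρ σ τ)
        (g := fun τ => kern ρ σ τ * p (f τ) ^ 2)
        (fun τ _ => kern_nonneg h0 h1 σ τ)
        (fun τ _ => mul_nonneg (kern_nonneg h0 h1 σ τ) (sq_nonneg _))
        (fun τ _ => by ring)
      exact this
    rw [sum_kern, one_mul] at e2
    exact (pow_le_pow_left₀ (apply_nonneg p _) e1 2).trans e2
  refine (avg_mono h).trans (le_of_eq ?_)
  unfold avg
  congr 1
  rw [Finset.sum_comm]
  refine Finset.sum_congr rfl fun τ _ => ?_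
  rw [← Finset.sum_mul, sum_kern', one_mul]

/-! Minkowski -/

/-- `L²` norm over the cube. -/
noncomputable def N2 (f : (ι → Bool) → ℝ) : ℝ := √(avg (fun σ => f σ ^ 2))

lemma N2_nonneg (f : (ι → Bool) → ℝ) : 0 ≤ N2 f := Real.sqrt_nonneg _

lemma N2_sq (f : (ι → Bool) → ℝ) : N2 f ^ 2 = avg (fun σ => f σ ^ 2) :=
  Real.sq_sqrt (avg_nonneg fun σ => sq_nonneg _)

lemma avg_mul_le_N2 (f g : (ι → Bool) → ℝ) : avg (fun σ => f σ * g σ) ≤ N2 f * N2 g := by
  unfold N2
  rw [← Real.sqrt_mul (avg_nonneg fun σ => sq_nonneg _)]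
  refine Real.le_sqrt_of_sq_le ?_
  unfold avg
  rw [div_pow, div_mul_div_comm, ← sq]
  gcongr
  exact Finset.sum_mul_sq_le_sq_mul_sq _ _ _

lemma N2_add_le (f g : (ι → Bool) → ℝ) : N2 (fun σ => f σ + g σ) ≤ N2 f + N2 g := by
  have h1 : N2 (fun σ => f σ + g σ) ^ 2 ≤ (N2 f + N2 g) ^ 2 := by
    rw [N2_sq]
    have e : (fun σ => (f σ + g σ) ^ 2) = fun σ => (f σ ^ 2 + 2 * (f σ * g σ)) + g σ ^ 2 := by
      funext σ; ring
    rw [e, avg_add, avg_add, avg_mul, ← N2_sq, ← N2_sq]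
    have := avg_mul_le_N2 f g
    nlinarith
  exact (pow_le_pow_iff_left₀ (N2_nonneg _) (add_nonneg (N2_nonneg _) (N2_nonneg _))
    (by norm_num)).1 h1

lemma N2_mono {f g : (ι → Bool) → ℝ} (h0 : ∀ σ, 0 ≤ f σ) (h : ∀ σ, f σ ≤ g σ) : N2 f ≤ N2 g := by
  unfold N2
  refine Real.sqrt_le_sqrt (avg_mono fun σ => ?_)
  exact pow_le_pow_left₀ (h0 σ) (h σ) 2

lemma N2_mul {c : ℝ} (hc : 0 ≤ c) (f : (ι → Bool) → ℝ) : N2 (fun σ => c * f σ) = c * N2 f := by
  unfold N2
  have : (fun σ => (c * f σ) ^ 2) = fun σ => c ^ 2 * f σ ^ 2 := by funext σ; ring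
  rw [this, avg_mul, Real.sqrt_mul (sq_nonneg c), Real.sqrt_sq hc]

lemma avg_le_N2 (f : (ι → Bool) → ℝ) : avg f ≤ N2 f :=
  Real.le_sqrt_of_sq_le (avg_sq_le f)

lemma N2_noise_le (p : Seminorm ℝ V) {ρ : ℝ} (h0 : 0 ≤ ρ) (h1 : ρ ≤ 1)
    (f : (ι → Bool) → V) :
    N2 (fun σ => p (noise ρ f σ)) ≤ N2 (fun σ => p (f σ)) :=
  Real.sqrt_le_sqrt (seminorm_noise_le p h0 h1 f)

end

end H459R3
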