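import Pool.Agent.H459R3.Events3

/-! Gaussian vectors are almost surely in general position. -/

set_option autoImplicit false
set_option linter.unusedSectionVars false

open MeasureTheory ProbabilityTheory Set
open scoped ENNReal NNReal

namespace H459R3

/-- a unit vector orthogonal to few given vectors. -/
lemma exists_orth {m n : ℕ} (hmn : m < n) (g : Fin m → Fin n → ℝ) :
    ∃ θ : Fin n → ℝ, l2 θ = 1 ∧ ∀ i, ∑ l, g i l * θ l = 0 := by
  classical
  set T : (Fin n → ℝ) →ₗ[ℝ] (Fin m → ℝ) := Matrix.toLin' (Matrix.of g) with hT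
  have hker : LinearMap.ker T ≠ ⊥ := by
    apply LinearMap.ker_ne_bot_of_finrank_lt
    simpa using hmn
  obtain ⟨v, hv, hv0⟩ := Submodule.exists_mem_ne_zero_of_ne_bot hker
  have hl : l2 v ≠ 0 := by
    intro h0
    apply hv0
    have : ∑ i, v i ^ 2 = 0 := by rw [← l2_sq, h0]; norm_num
    rw [Finset.sum_eq_zero_iff_of_nonneg (fun _ _ => sq_nonneg _)] at this
    funext i
    have := this i (Finset.mem_univ i)
    simpa using this
  have hlpos : 0 < l2 v := lt_of_le_of_ne (l2_nonneg v) (Ne.symm hl)
  refine ⟨(l2 v)⁻¹ • v, ?_, fun i => ?_⟩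
  · rw [map_smul_eq_mul, Real.norm_of_nonneg (by positivity)]
    field_simp
  · have h1 : T v i = 0 := by
      have : T v = 0 := hv
      rw [this]; rfl
    have h2 : ∑ l, g i l * v l = 0 := by
      rw [hT, Matrix.toLin'_apply] at h1
      simpa [Matrix.mulVec, dotProduct] using h1
    have h3 : ∑ l, g i l * ((l2 v)⁻¹ • v) l = (l2 v)⁻¹ * ∑ l, g i l * v l := by
      rw [Finset.mul_sum]
      exact Finset.sum_congr rfl fun l _ => by simp only [Pi.smul_apply, smul_eq_mul]; ring
    rw [h3, h2, mul_zero]

lemma span_null {m n : ℕ} (hmn : m < n) (g : Fin m → Fin n → ℝ) :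
    gn n {a | a ∈ Submodule.span ℝ (Set.range g)} = 0 := by
  obtain ⟨θ, hθ, horth⟩ := exists_orth hmn g
  have hsub : {a : Fin n → ℝ | a ∈ Submodule.span ℝ (Set.range g)}
      ⊆ (fun a : Fin n → ℝ => ∑ l, a l * θ l) ⁻¹' {0} := by
    intro a ha
    simp only [Set.mem_ofPred_eq] at ha
    rw [Set.mem_preimage, Set.mem_singleton_iff]
    induction ha using Submodule.span_induction with
    | mem x hx => obtain ⟨i, rfl⟩ := hx; exact horth i
    | zero => simp
    | add x y _ _ hx hy =>
      simp only [Pi.add_apply, add_mul, Finset.sum_add_distrib, hx, hy, add_zero]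
    | smul c x _ hx =>
      simp only [Pi.smul_apply, smul_eq_mul, mul_assoc, ← Finset.mul_sum, hx, mul_zero]
  refine measure_mono_null hsub ?_
  rw [← Measure.map_apply (by fun_prop) (measurableSet_singleton _), law_inner hθ]
  have := noAtoms_gaussianReal (μ := 0) (v := 1) one_ne_zero
  exact measure_singleton _

lemma ae_li {n : ℕ} (m : ℕ) (hmn : m ≤ n) :
    mu m n {g | ¬ LinearIndependent ℝ g} = 0 := by
  induction m with
  | zero =>
    have : {g : Fin 0 → Fin n → ℝ | ¬ LinearIndependent ℝ g} = ∅ := by
      ext g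
      simp only [Set.mem_ofPred_eq, Set.mem_empty_iff_false, iff_false, not_not]
      exact linearIndependent_empty_type
    rw [this, measure_empty]
  | succ m ih =>
    have ih' := ih (by omega)
    have hmeas : ∀ k, MeasurableSet {g : Fin k → Fin n → ℝ | ¬ LinearIndependent ℝ g} := by
      intro k
      have h1 : IsOpen {g : Fin k → Fin n → ℝ | LinearIndependent ℝ g} :=
        isOpen_setOfPred_linearIndependent
      exact h1.measurableSet.compl
    have hmp := measurePreserving_piFinSuccAbove (fun _ : Fin (m + 1) => gn n) 0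
    set e := MeasurableEquiv.piFinSuccAbove (fun _ : Fin (m + 1) => Fin n → ℝ) 0 with he
    set s : Set ((Fin n → ℝ) × (Fin m → Fin n → ℝ)) :=
      {z | ¬ LinearIndependent ℝ (Fin.cons z.1 z.2 : Fin (m + 1) → Fin n → ℝ)} with hs
    have hsm : MeasurableSet s := by
      have hc : Continuous fun z : (Fin n → ℝ) × (Fin m → Fin n → ℝ) =>
          (Fin.cons z.1 z.2 : Fin (m + 1) → Fin n → ℝ) := by
        refine continuous_pi fun i => ?_
        refine Fin.cases ?_ (fun j => ?_) i
        · exact continuous_fst
        · exact (continuous_apply j).comp continuous_snd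
      exact hc.measurable (hmeas (m + 1))
    have hpre : {g : Fin (m + 1) → Fin n → ℝ | ¬ LinearIndependent ℝ g} = e ⁻¹' s := by
      ext g
      simp only [hs, Set.mem_ofPred_eq, Set.mem_preimage]
      have : (Fin.cons (e g).1 (e g).2 : Fin (m + 1) → Fin n → ℝ) = g := by
        funext i
        refine Fin.cases ?_ (fun j => ?_) i
        · rfl
        · rfl
      rw [this]
    unfold mu
    rw [hpre, hmp.measure_preimage hsm.nullMeasurableSet, Measure.prod_apply_symm hsm]
    rw [lintegral_eq_zero_iff' (measurable_measure_prodMk_right hsm).aemeasurable]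
    have hae : ∀ᵐ g ∂(mu m n), LinearIndependent ℝ g := by
      rw [ae_iff]; exact ih'
    have hae' : ∀ᵐ g ∂(Measure.pi fun _ : Fin m => gn n), LinearIndependent ℝ g := hae
    filter_upwards [hae'] with g hg
    have hsub : (fun x : Fin n → ℝ => (x, g)) ⁻¹' s
        ⊆ {a | a ∈ Submodule.span ℝ (Set.range g)} := by
      intro a ha
      simp only [hs, Set.mem_preimage, Set.mem_ofPred_eq] at ha ⊢
      by_contra hc
      exact ha (linearIndependent_finCons.2 ⟨hg, hc⟩)
    exact measure_mono_null hsub (span_null (by omega) g)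

lemma map_restrict {N n k : ℕ} (hk : k ≤ N) :
    (mu N n).map (fun g i => g (Fin.castLE hk i)) = mu k n := by
  have h1 : iIndepFun (fun (i : Fin N) (g : Fin N → Fin n → ℝ) => g i) (mu N n) :=
    iIndepFun_pi (X := fun _ => id) (fun _ => aemeasurable_id)
  have h2 := h1.precomp (g := Fin.castLE hk) (Fin.castLE_injective hk)
  have h3 := h2.map_fun_eq_pi_map (fun i => (measurable_pi_apply _).aemeasurable)
  rw [h3]
  unfold mu
  congr 1
  funext i
  exact (measurePreserving_eval (fun _ : Fin N => gn n) (Fin.castLE hk i)).map_eq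

lemma surj_ae {N n : ℕ} (hnN : n ≤ N) : mu N n {g | ¬ Surj g} = 0 := by
  have hsub : {g : Fin N → Fin n → ℝ | ¬ Surj g}
      ⊆ (fun g i => g (Fin.castLE hnN i)) ⁻¹' {h : Fin n → Fin n → ℝ | ¬ LinearIndependent ℝ h} := by
    intro g hg
    simp only [Set.mem_ofPred_eq, Set.mem_preimage] at hg ⊢
    intro hli
    apply hg
    intro y
    have hspan : Submodule.span ℝ (Set.range fun i => g (Fin.castLE hnN i)) = ⊤ :=
      hli.span_eq_top_of_card_eq_finrank' (by simp)
    have hy : y ∈ Submodule.span ℝ (Set.range g) := by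
      have h1 : Set.range (fun i => g (Fin.castLE hnN i)) ⊆ Set.range g := by
        rintro _ ⟨i, rfl⟩
        exact ⟨_, rfl⟩
      exact Submodule.span_mono h1 (by rw [hspan]; trivial)
    exact (Submodule.mem_span_range_iff_exists_fun ℝ).1 hy
  refine measure_mono_null hsub ?_
  have hm : MeasurableSet {h : Fin n → Fin n → ℝ | ¬ LinearIndependent ℝ h} := by
    have h1 : IsOpen {g : Fin n → Fin n → ℝ | LinearIndependent ℝ g} :=
      isOpen_setOfPred_linearIndependent
    exact h1.measurableSet.compl
  rw [← Measure.map_apply (by fun_prop) hm, map_restrict]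
  exact ae_li n le_rfl

end H459R3
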