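import Pool.Agent.H459R3.Lift

/-! The sum `l1 + q` of the `ℓ₁` norm and a Hilbertian seminorm: a gain for finitely many vectors. -/

set_option autoImplicit false
set_option linter.unusedSectionVars false

open Finset

namespace H459R3

section
variable {κ lam : Type} [Fintype κ] [DecidableEq κ] [Fintype lam] [DecidableEq lam]

/-- `q(w) = α |w|₂ + β |T w|₂`. -/
noncomputable def qn (T : (κ → ℝ) →ₗ[ℝ] (lam → ℝ)) (α β : NNReal) : Seminorm ℝ (κ → ℝ) :=
  α • l2 + β • (l2.comp T)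

lemma qn_apply (T : (κ → ℝ) →ₗ[ℝ] (lam → ℝ)) (α β : NNReal) (w : κ → ℝ) :
    qn T α β w = α * l2 w + β * l2 (T w) := rfl

/-- the infimal convolution `l1 □ q`. -/
noncomputable def zn (T : (κ → ℝ) →ₗ[ℝ] (lam → ℝ)) (α β : NNReal) : Seminorm ℝ (κ → ℝ) :=
  l1 ⊓ qn T α β

lemma zn_le (T : (κ → ℝ) →ₗ[ℝ] (lam → ℝ)) (α β : NNReal) (a b : κ → ℝ) :
    zn T α β a ≤ l1 b + qn T α β (a - b) := by
  unfold zn
  rw [Seminorm.inf_apply]
  exact ciInf_le ⟨0, by rintro _ ⟨u, rfl⟩; exact add_nonneg (apply_nonneg _ _) (apply_nonneg _ _)⟩ b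

lemma continuous_l1 : Continuous (l1 : (κ → ℝ) → ℝ) := by
  have : (l1 : (κ → ℝ) → ℝ) = fun x => ∑ i, |x i| := rfl
  rw [this]
  fun_prop

lemma continuous_l2 : Continuous (l2 : (κ → ℝ) → ℝ) := by
  have : (l2 : (κ → ℝ) → ℝ) = fun x => √(∑ i, x i ^ 2) := by
    funext x; exact l2_eq x
  rw [this]
  fun_prop

lemma norm_le_l1 (b : κ → ℝ) : ‖b‖ ≤ l1 b := by
  rw [pi_norm_le_iff_of_nonneg (l1_nonneg b)]
  intro i
  rw [Real.norm_eq_abs, l1_apply]
  exact Finset.single_le_sum (f := fun i => |b i|) (fun i _ => abs_nonneg _) (Finset.mem_univ i)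

lemma zn_attained (T : (κ → ℝ) →ₗ[ℝ] (lam → ℝ)) (α β : NNReal) (a : κ → ℝ) :
    ∃ b, l1 b + qn T α β (a - b) = zn T α β a := by
  have hc : Continuous fun b => l1 b + qn T α β (a - b) := by
    have hT : Continuous T := T.continuous_of_finiteDimensional
    have h1 := continuous_l1 (κ := κ)
    have h2 := continuous_l2 (κ := κ)
    have h3 := continuous_l2 (κ := lam)
    simp only [qn_apply]
    have h4 : Continuous fun b : κ → ℝ => a - b := by fun_prop
    exact h1.add ((continuous_const.mul (h2.comp h4)).add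
      (continuous_const.mul (h3.comp (hT.comp h4))))
  have ht : Filter.Tendsto (fun b => l1 b + qn T α β (a - b)) (Filter.cocompact _)
      Filter.atTop := by
    refine Filter.tendsto_atTop_mono (fun b => ?_) tendsto_norm_cocompact_atTop
    exact (norm_le_l1 b).trans (le_add_of_nonneg_right (apply_nonneg _ _))
  obtain ⟨b, hb⟩ := hc.exists_forall_le ht
  refine ⟨b, le_antisymm ?_ (zn_le T α β a b)⟩
  unfold zn
  rw [Seminorm.inf_apply]
  exact le_ciInf hb

lemma zn_le_l1 (T : (κ → ℝ) →ₗ[ℝ] (lam → ℝ)) (α β : NNReal) (a : κ → ℝ) :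
    zn T α β a ≤ l1 a := by
  have := zn_le T α β a a
  simpa using this

lemma zn_le_qn (T : (κ → ℝ) →ₗ[ℝ] (lam → ℝ)) (α β : NNReal) (a : κ → ℝ) :
    zn T α β a ≤ qn T α β a := by
  have := zn_le T α β a 0
  simpa using this

/-- restriction of a vector to a set of coordinates. -/
def res (S : Finset κ) (x : κ → ℝ) : κ → ℝ := fun i => if i ∈ S then x i else 0

lemma l1_res (S : Finset κ) (x : κ → ℝ) : l1 (res S x) = ∑ i ∈ S, |x i| := by
  rw [l1_apply]
  simp only [res]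
  have : ∀ i, |if i ∈ S then x i else 0| = if i ∈ S then |x i| else 0 := by
    intro i; split_ifs <;> simp
  simp_rw [this]
  rw [Finset.sum_ite_mem, Finset.univ_inter]

lemma l1_res_le (S : Finset κ) (x : κ → ℝ) : l1 (res S x) ≤ l1 x := by
  rw [l1_res, l1_apply]
  exact Finset.sum_le_univ_sum_of_nonneg fun i => abs_nonneg _

lemma l2_res_sq (S : Finset κ) (x : κ → ℝ) : l2 (res S x) ^ 2 = ∑ i ∈ S, x i ^ 2 := by
  rw [l2_sq]
  simp only [res]
  have : ∀ i, (if i ∈ S then x i else 0) ^ 2 = if i ∈ S then x i ^ 2 else 0 := by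
    intro i; split_ifs <;> simp
  simp_rw [this]
  rw [Finset.sum_ite_mem, Finset.univ_inter]

lemma res_add_res_compl (S : Finset κ) (x : κ → ℝ) : res S x + res Sᶜ x = x := by
  funext i
  simp only [res, Pi.add_apply, Finset.mem_compl]
  by_cases h : i ∈ S <;> simp [h]

/-- Minkowski's inequality `ℓ₂(ℓ₁) ≤ ℓ₁(ℓ₂)`. -/
lemma minkowski {k : ℕ} (S : Finset κ) (x : Fin k → κ → ℝ) :
    ∑ j, (∑ i ∈ S, |x j i|) ^ 2 ≤ (∑ i ∈ S, √(∑ j, x j i ^ 2)) ^ 2 := by
  set v : κ → EuclideanSpace ℝ (Fin k) := fun i => WithLp.toLp 2 (fun j => |x j i|) with hv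
  have h1 : ‖∑ i ∈ S, v i‖ ≤ ∑ i ∈ S, ‖v i‖ := norm_sum_le _ _
  have h2 : ∀ i, ‖v i‖ = √(∑ j, x j i ^ 2) := by
    intro i
    rw [EuclideanSpace.norm_eq]
    congr 1
    refine Finset.sum_congr rfl fun j _ => ?_
    simp [hv]
  have h3 : ‖∑ i ∈ S, v i‖ ^ 2 = ∑ j, (∑ i ∈ S, |x j i|) ^ 2 := by
    rw [EuclideanSpace.norm_eq, Real.sq_sqrt (Finset.sum_nonneg fun i _ => sq_nonneg _)]
    refine Finset.sum_congr rfl fun j _ => ?_
    rw [Real.norm_eq_abs, sq_abs]
    congr 1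
    simp [hv, WithLp.ofLp_sum, Finset.sum_apply]
  simp_rw [h2] at h1
  rw [← h3]
  exact pow_le_pow_left₀ (norm_nonneg _) h1 2

/-- **the gain.** -/
theorem gain (T : (κ → ℝ) →ₗ[ℝ] (lam → ℝ)) (α β : NNReal) {A1 ε1 : ℝ} (hA1 : 0 ≤ A1)
    (hε1 : 0 ≤ ε1) (hQ : ∀ w, qn T α β w ≤ A1 * (α * l2 w) + ε1 * l1 w) {k : ℕ}
    (hε : 4 * ε1 ^ 2 ≤ 1 / 8) (hk : 8 * (72 + 64 * A1 ^ 2) ≤ k) :
    HasCot (zn T α β) (Fin k) ((k : ℝ) / 4) := by
  intro y
  set p := zn T α β with hp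
  set E := ms p y with hE
  have hE0 : 0 ≤ E := ms_nonneg p y
  choose B hB using zn_attained T α β
  set b : (Fin k → Bool) → κ → ℝ := fun σ => B (rad y σ) with hb
  set w : (Fin k → Bool) → κ → ℝ := fun σ => rad y σ - b σ with hw
  have hbw : ∀ σ, l1 (b σ) + qn T α β (w σ) = p (rad y σ) := fun σ => hB (rad y σ)
  have hl1b : ∀ σ, l1 (b σ) ≤ p (rad y σ) := fun σ => by
    have := hbw σ; have := apply_nonneg (qn T α β) (w σ); linarith
  have hqw : ∀ σ, qn T α β (w σ) ≤ p (rad y σ) := fun σ => by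
    have := hbw σ; have := l1_nonneg (b σ); linarith
  have hα0 : (0 : ℝ) ≤ α := α.2
  have hβ0 : (0 : ℝ) ≤ β := β.2
  -- coefficients
  have hy : ∀ j, y j = coef b j + coef w j := by
    intro j
    have : coef w j = coef (rad y) j - coef b j := coef_sub _ _ _
    rw [this, coef_rad]
    abel
  -- bound for w
  have hwE : avg (fun σ => α ^ 2 * l2 (w σ) ^ 2 + β ^ 2 * l2 (T (w σ)) ^ 2) ≤ E := by
    refine avg_mono fun σ => ?_
    have h1 := hqw σ
    rw [qn_apply] at h1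
    have h2 := l2_nonneg (w σ)
    have h3 := l2_nonneg (T (w σ))
    have h4 : 0 ≤ (α : ℝ) * l2 (w σ) := mul_nonneg hα0 h2
    have h5 : 0 ≤ (β : ℝ) * l2 (T (w σ)) := mul_nonneg hβ0 h3
    have h6 := pow_le_pow_left₀ (add_nonneg h4 h5) h1 2
    nlinarith
  have hwE1 : (α : ℝ) ^ 2 * avg (fun σ => l2 (w σ) ^ 2) ≤ E := by
    rw [avg_add, avg_mul, avg_mul] at hwE
    have : 0 ≤ (β : ℝ) ^ 2 * avg (fun σ => l2 (T (w σ)) ^ 2) :=
      mul_nonneg (sq_nonneg _) (avg_nonneg fun σ => sq_nonneg _)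
    linarith
  -- Bessel for w
  have hx4 : ∑ j, qn T α β (coef w j) ^ 2 ≤ 2 * E := by
    have h1 : ∀ j, qn T α β (coef w j) ^ 2
        ≤ 2 * (α ^ 2 * l2 (coef w j) ^ 2 + β ^ 2 * l2 (T (coef w j)) ^ 2) := by
      intro j
      rw [qn_apply]
      nlinarith [sq_nonneg ((α : ℝ) * l2 (coef w j) - β * l2 (T (coef w j)))]
    have h2 : ∑ j, l2 (coef w j) ^ 2 ≤ avg (fun σ => l2 (w σ) ^ 2) := by
      rw [avg_l2_sq]
      simp_rw [l2_sq]
      rw [Finset.sum_comm]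
      refine Finset.sum_le_sum fun i _ => ?_
      simp_rw [coef_apply]
      exact bessel _
    have h3 : ∑ j, l2 (T (coef w j)) ^ 2 ≤ avg (fun σ => l2 (T (w σ)) ^ 2) := by
      rw [avg_l2_sq]
      simp_rw [l2_sq]
      rw [Finset.sum_comm]
      refine Finset.sum_le_sum fun i _ => ?_
      simp_rw [map_coef, coef_apply]
      exact bessel _
    refine (Finset.sum_le_sum fun j _ => h1 j).trans ?_
    rw [← Finset.mul_sum, Finset.sum_add_distrib, ← Finset.mul_sum, ← Finset.mul_sum]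
    rw [avg_add, avg_mul, avg_mul] at hwE
    have h4 := mul_le_mul_of_nonneg_left h2 (sq_nonneg (α : ℝ))
    have h5 := mul_le_mul_of_nonneg_left h3 (sq_nonneg (β : ℝ))
    linarith
  -- the defect of b
  set u : (Fin k → Bool) → κ → ℝ := fun σ => b σ - rad (coef b) σ with hu
  have huw : ∀ σ, u σ = -(w σ - rad (coef w) σ) := by
    intro σ
    have h1 : rad (coef w) σ = rad y σ - rad (coef b) σ := by
      rw [← rad_sub]
      congr 1
      funext j
      rw [hy j]; abel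
    rw [h1]
    simp only [hu, hw]
    abel
  set Bf : κ → ℝ := fun i => √(∑ j, coef b j i ^ 2) with hBf
  set Uf : κ → ℝ := fun i => √(avg (fun σ => u σ i ^ 2)) with hUf
  have hU2 : (α : ℝ) ^ 2 * ∑ i, Uf i ^ 2 ≤ E := by
    refine le_trans ?_ hwE1
    refine mul_le_mul_of_nonneg_left ?_ (sq_nonneg _)
    rw [avg_l2_sq]
    refine Finset.sum_le_sum fun i _ => ?_
    simp only [hUf]
    rw [Real.sq_sqrt (avg_nonneg fun σ => sq_nonneg _)]
    have : (fun σ => u σ i ^ 2) = fun σ => (w σ i - rad (coef (fun σ => w σ i)) σ) ^ 2 := by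
      funext σ
      rw [huw σ, Pi.neg_apply, Pi.sub_apply, rad_apply]
      simp_rw [coef_apply]
      ring
    rw [this]
    exact avg_sub_rad_le _
  classical
  set S : Finset κ := Finset.univ.filter fun i => 4 * Uf i ≤ Bf i with hS
  have hSb : ∀ i ∈ S, Bf i ≤ 4 * avg (fun σ => |b σ i|) := by
    intro i hi
    have hi' : 4 * Uf i ≤ Bf i := (Finset.mem_filter.1 hi).2
    have h1 := khintchine (fun j => coef b j i)
    have h2 : avg (fun σ => |rad (fun j => coef b j i) σ|)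
        ≤ avg (fun σ => |b σ i|) + avg (fun σ => |u σ i|) := by
      rw [← avg_add]
      refine avg_mono fun σ => ?_
      have : rad (fun j => coef b j i) σ = b σ i - u σ i := by
        rw [← rad_apply]
        simp only [hu, Pi.sub_apply]
        ring
      rw [this]
      exact abs_sub _ _
    have h3 : avg (fun σ => |u σ i|) ≤ Uf i := by
      have := avg_le_N2 (fun σ => |u σ i|)
      unfold N2 at this
      simpa using this
    simp only [hBf] at hi' ⊢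
    linarith
  have hS1 : ∑ i ∈ S, Bf i ≤ 4 * avg (fun σ => l1 (b σ)) := by
    have h1 : (fun σ => l1 (b σ)) = fun σ => ∑ i, |b σ i| := by funext σ; exact l1_apply _
    rw [h1, avg_sum, Finset.mul_sum]
    refine (Finset.sum_le_sum hSb).trans ?_
    exact Finset.sum_le_univ_sum_of_nonneg fun i =>
      mul_nonneg (by norm_num) (avg_nonneg fun σ => abs_nonneg _)
  have hM1 : avg (fun σ => l1 (b σ)) ^ 2 ≤ E := by
    refine (avg_sq_le _).trans (avg_mono fun σ => ?_)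
    exact pow_le_pow_left₀ (l1_nonneg _) (hl1b σ) 2
  have hl1b0 : 0 ≤ avg (fun σ => l1 (b σ)) := avg_nonneg fun σ => l1_nonneg _
  have hx1 : ∑ j, l1 (res S (coef b j)) ^ 2 ≤ 16 * E := by
    simp_rw [l1_res]
    refine (minkowski S (fun j => coef b j)).trans ?_
    have h1 : (0 : ℝ) ≤ ∑ i ∈ S, Bf i := Finset.sum_nonneg fun i _ => Real.sqrt_nonneg _
    have h2 := pow_le_pow_left₀ h1 hS1 2
    calc (∑ i ∈ S, √(∑ j, coef b j i ^ 2)) ^ 2 = (∑ i ∈ S, Bf i) ^ 2 := rfl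
      _ ≤ (4 * avg (fun σ => l1 (b σ))) ^ 2 := h2
      _ = 16 * avg (fun σ => l1 (b σ)) ^ 2 := by ring
      _ ≤ 16 * E := by linarith
  have hx2 : ∑ j, (α * l2 (res Sᶜ (coef b j))) ^ 2 ≤ 16 * E := by
    simp_rw [mul_pow, l2_res_sq]
    rw [← Finset.mul_sum, Finset.sum_comm]
    have h1 : ∑ i ∈ Sᶜ, ∑ j, coef b j i ^ 2 ≤ 16 * ∑ i, Uf i ^ 2 := by
      rw [Finset.mul_sum]
      refine (Finset.sum_le_sum (g := fun i => 16 * Uf i ^ 2) fun i hi => ?_).trans
        (Finset.sum_le_univ_sum_of_nonneg fun i => by positivity)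
      have hi' : Bf i < 4 * Uf i := by
        by_contra hc
        push Not at hc
        exact (Finset.mem_compl.1 hi) (Finset.mem_filter.2 ⟨Finset.mem_univ _, hc⟩)
      have h2 : ∑ j, coef b j i ^ 2 = Bf i ^ 2 := by
        simp only [hBf]
        rw [Real.sq_sqrt (Finset.sum_nonneg fun j _ => sq_nonneg _)]
      rw [h2]
      have h3 : 0 ≤ Bf i := Real.sqrt_nonneg _
      nlinarith
    have h2 := mul_le_mul_of_nonneg_left h1 (sq_nonneg (α : ℝ))
    nlinarith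
  have hx3 : ∑ j, l1 (res Sᶜ (coef b j)) ^ 2 ≤ k * E := by
    have h1 : ∀ j, l1 (res Sᶜ (coef b j)) ^ 2 ≤ E := by
      intro j
      have h2 : l1 (res Sᶜ (coef b j)) ≤ avg (fun σ => l1 (b σ)) :=
        (l1_res_le _ _).trans (seminorm_coef_le l1 b j)
      exact (pow_le_pow_left₀ (l1_nonneg _) h2 2).trans hM1
    refine (Finset.sum_le_sum fun j _ => h1 j).trans ?_
    simp
  -- combine
  have hpt : ∀ j, p (y j) ^ 2 ≤ 4 * l1 (res S (coef b j)) ^ 2
      + 4 * A1 ^ 2 * (α * l2 (res Sᶜ (coef b j))) ^ 2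
      + 4 * ε1 ^ 2 * l1 (res Sᶜ (coef b j)) ^ 2 + 4 * qn T α β (coef w j) ^ 2 := by
    intro j
    have h1 : p (y j) ≤ l1 (res S (coef b j)) + (qn T α β (res Sᶜ (coef b j))
        + qn T α β (coef w j)) := by
      refine (zn_le T α β (y j) (res S (coef b j))).trans ?_
      have : y j - res S (coef b j) = res Sᶜ (coef b j) + coef w j := by
        nth_rw 1 [hy j, ← res_add_res_compl S (coef b j)]
        abel
      rw [this]
      gcongr
      exact map_add_le_add _ _ _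
    have h2 := hQ (res Sᶜ (coef b j))
    have h0 := apply_nonneg p (y j)
    set x1 := l1 (res S (coef b j))
    set x2 := (α : ℝ) * l2 (res Sᶜ (coef b j))
    set x3 := l1 (res Sᶜ (coef b j))
    set x4 := qn T α β (coef w j)
    have h3 : p (y j) ≤ x1 + A1 * x2 + ε1 * x3 + x4 := by linarith
    have h4 := pow_le_pow_left₀ h0 h3 2
    refine h4.trans ?_
    have e : 4 * x1 ^ 2 + 4 * A1 ^ 2 * x2 ^ 2 + 4 * ε1 ^ 2 * x3 ^ 2 + 4 * x4 ^ 2
        - (x1 + A1 * x2 + ε1 * x3 + x4) ^ 2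
        = (x1 - A1 * x2) ^ 2 + (x1 - ε1 * x3) ^ 2 + (x1 - x4) ^ 2 + (A1 * x2 - ε1 * x3) ^ 2
          + (A1 * x2 - x4) ^ 2 + (ε1 * x3 - x4) ^ 2 := by ring
    nlinarith [sq_nonneg (x1 - A1 * x2), sq_nonneg (x1 - ε1 * x3), sq_nonneg (x1 - x4),
      sq_nonneg (A1 * x2 - ε1 * x3), sq_nonneg (A1 * x2 - x4), sq_nonneg (ε1 * x3 - x4)]
  refine (Finset.sum_le_sum fun j _ => hpt j).trans ?_
  simp only [Finset.sum_add_distrib, ← Finset.mul_sum]
  have hA2 : 0 ≤ 4 * A1 ^ 2 := by positivity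
  have hε2 : 0 ≤ 4 * ε1 ^ 2 := by positivity
  have t2 := mul_le_mul_of_nonneg_left hx2 hA2
  have t3 := mul_le_mul_of_nonneg_left hx3 hε2
  have t4 : 4 * ε1 ^ 2 * (k * E) ≤ 1 / 8 * (k * E) :=
    mul_le_mul_of_nonneg_right hε (by positivity)
  have t5 : 8 * (72 + 64 * A1 ^ 2) * E ≤ k * E := mul_le_mul_of_nonneg_right hk hE0
  nlinarith

end

end H459R3
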